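import Pool.Agent.H82.LX.Exm
import Pool.Agent.H69.PG.Bdy

/-!
# BD2: the boundary terms, exponential form

`0 ≤ om n ≤ 1` (`om_nonneg`, `om_le_one` in `Pool/Agent/H69/PG/Bdy.lean`). Let `n ∈ Cf` with `om n ≠ 0`. Then `∑ v(n_i) > l - vm` or `∑ v(n_i) ≥ l`: if `|sp n| + 1 ≤ N` and `∑ v(n_i) + vm ≤ l` then
all `a` are allowed in `om` (as `v a ≤ vm`) and `om n = 1 - ∑ q_a = 0`. If `|sp n| + 1 > N` then `|sp n| ≥ N`, every active coordinate costs at least `l/N` (`hN`; if `N = 0` then `hN` gives `l ≤ 0`, unless `m = 0`, where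
`hq1` is false), so `∑ v(n_i) ≥ l ≥ l - vm`. In all cases `∑ v(n_i) ≥ l - vm`, so for all `n ∈ Cf`: `om(n)^2 ≤ exp(τ ∑ v(n_i) - τ (l - vm)) = exp(- τ (l - vm)) ∏_i (1 + w(n_i))`,
`w a = exp(τ v a) - 1 ≥ 0`, `w 0 = 0`. As in `bdy` (swap the sums: `n k = 0` iff `k ∉ sp n`; `∑_{k ∉ sp n} V(insert k (sp n)) ≤ μ V(sp n)`, `|sp n| < N + 1`) the left side is at most
`μ ∑_{n ∈ Cf} om(n)^2 ms(n) ≤ μ exp(-τ(l - vm)) ∑_{n ∈ Cf} ∏ (1 + w(n_i)) ms(n)`; use `exm`.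
-/

open Finset

namespace H82LX

open H69PG

variable {ι : Type} [Fintype ι] [DecidableEq ι]

omit [DecidableEq ι] in
theorem Bd2_cost {m N : ℕ} {v : ℕ → ℝ} {l vm : ℝ} (hv : ∀ a, 0 ≤ v a)
    (hvm : ∀ a ∈ Icc 1 m, v a ≤ vm) (hN : ∀ a ∈ Icc 1 m, l ≤ N * v a) {q : ℕ → ℝ}
    (hq1 : ∑ a ∈ Icc 1 m, q a = 1) (n : ι → Fin (m + 1)) (hn : om N v l q n ≠ 0) :
    l - vm ≤ ∑ i, v (n i) := by
  classical
  have hm : 1 ≤ m := by
    by_contra h
    have : m = 0 := by omega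
    subst this
    simp at hq1
  have h1m : 1 ∈ Icc 1 m := Finset.mem_Icc.2 ⟨le_rfl, hm⟩
  have hvm0 : 0 ≤ vm := (hv 1).trans (hvm 1 h1m)
  have hs0 : 0 ≤ ∑ i, v (n i) := Finset.sum_nonneg fun i _ => hv _
  by_cases hc : (sp n).card + 1 ≤ N
  · by_cases hd : ∑ i, v (n i) + vm ≤ l
    · exfalso
      apply hn
      unfold om
      have hs : (∑ a ∈ Icc 1 m, if (sp n).card + 1 ≤ N ∧ ∑ i, v (n i) + v a ≤ l then q a else 0) =
          ∑ a ∈ Icc 1 m, q a := by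
        refine Finset.sum_congr rfl fun a ha => ?_
        rw [if_pos ⟨hc, by linarith [hvm a ha]⟩]
      rw [hq1] at hs
      have hs' : (1 : ℝ) - (∑ a ∈ Icc 1 m, if (sp n).card + 1 ≤ N ∧ ∑ i, v (n i) + v a ≤ l then q a else 0) = 0 := by
        rw [hs]; norm_num
      convert hs'
    · push Not at hd
      linarith
  · have hle : N ≤ (sp n).card := by omega
    rcases le_or_gt l 0 with hl | hl
    · linarith
    · have hN0 : 0 < (N : ℝ) := by
        by_contra h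
        have h2 : (N : ℝ) = 0 := le_antisymm (not_lt.1 h) (Nat.cast_nonneg _)
        have h3 := hN 1 h1m
        rw [h2, zero_mul] at h3
        linarith
      have h1 : ((sp n).card : ℝ) * l ≤ ∑ i ∈ sp n, (N : ℝ) * v (n i) := by
        rw [← nsmul_eq_mul, ← Finset.sum_const]
        refine Finset.sum_le_sum fun i hi => ?_
        have hi' : n i ≠ 0 := by simpa [sp] using hi
        refine hN _ (Finset.mem_Icc.2 ⟨?_, ?_⟩)
        · have : ((n i : Fin (m + 1)) : ℕ) ≠ 0 := fun hh => hi' (Fin.ext (by simpa using hh))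
          omega
        · have := (n i).isLt
          omega
      have h2 : ∑ i ∈ sp n, (N : ℝ) * v (n i) ≤ N * ∑ i, v (n i) := by
        rw [← Finset.mul_sum]
        exact mul_le_mul_of_nonneg_left (Finset.sum_le_sum_of_subset_of_nonneg
          (Finset.subset_univ _) fun i _ _ => hv _) hN0.le
      have h3 : (N : ℝ) * l ≤ ((sp n).card : ℝ) * l :=
        mul_le_mul_of_nonneg_right (by exact_mod_cast hle) hl.le
      have h4 : l ≤ ∑ i, v (n i) := le_of_mul_le_mul_left (h3.trans (h1.trans h2)) hN0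
      linarith

theorem Bd2_sq {m N : ℕ} {v : ℕ → ℝ} {l vm τ : ℝ} (hv : ∀ a, 0 ≤ v a)
    (hvm : ∀ a ∈ Icc 1 m, v a ≤ vm) (hN : ∀ a ∈ Icc 1 m, l ≤ N * v a) (hτ : 0 ≤ τ) {q : ℕ → ℝ}
    (hq : ∀ a, 0 ≤ q a) (hq1 : ∑ a ∈ Icc 1 m, q a = 1) (n : ι → Fin (m + 1)) :
    om N v l q n ^ 2 ≤ Real.exp (-(τ * (l - vm))) * ∏ i, (1 + (Real.exp (τ * v (n i)) - 1)) := by
  have h0 := om_nonneg (N := N) (v := v) (l := l) hq hq1 n
  have h1 := om_le_one (N := N) (v := v) (l := l) hq n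
  have h2 : Real.exp (-(τ * (l - vm))) * ∏ i, (1 + (Real.exp (τ * v (n i)) - 1)) =
      Real.exp (τ * (∑ i, v (n i) - (l - vm))) := by
    simp only [add_sub_cancel]
    rw [← Real.exp_sum, ← Real.exp_add, ← Finset.mul_sum]
    congr 1
    ring
  rw [h2]
  by_cases hn : om N v l q n = 0
  · rw [hn]
    have := Real.exp_pos (τ * (∑ i, v (n i) - (l - vm)))
    nlinarith
  · have h3 := Bd2_cost hv hvm hN hq1 n hn
    have h4 : 1 ≤ Real.exp (τ * (∑ i, v (n i) - (l - vm))) :=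
      Real.one_le_exp (mul_nonneg hτ (by linarith))
    nlinarith

theorem bd2 {m N : ℕ} {v : ℕ → ℝ} {l vm τ : ℝ} {V : Finset ι → ℝ} {μ : ℝ} (h : Vh V μ (N + 1)) {s q : ℕ → ℝ}
    (hs : ∀ a, 0 ≤ s a) (hs0 : s 0 = 1) (hv : ∀ a, 0 ≤ v a) (hv0 : v 0 = 0) (hvm : ∀ a ∈ Icc 1 m, v a ≤ vm)
    (hN : ∀ a ∈ Icc 1 m, l ≤ N * v a) (hτ : 0 ≤ τ)
    (hq : ∀ a, 0 ≤ q a) (hq1 : ∑ a ∈ Icc 1 m, q a = 1) :
    ∑ k : ι, ∑ n ∈ (Cf ι m N v l).filter (fun n => n k = 0),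
      om N v l q n ^ 2 * (V (insert k (sp n)) * ∏ i, s (n i)) ≤
        μ * (Real.exp (μ * (∑ a ∈ Icc 1 m, s a * (Real.exp (τ * v a) - 1)) - τ * (l - vm)) * MM m N v l V s) := by
  classical
  have hVh : Vh V μ N := ⟨h.nonneg, h.empty, h.μ_nonneg, fun A hA => h.step A (by omega)⟩
  have hms : ∀ n : ι → Fin (m + 1), 0 ≤ ms V s n := fun n =>
    mul_nonneg (h.nonneg _) (Finset.prod_nonneg fun i _ => hs _)
  have e1 : ∑ k : ι, ∑ n ∈ (Cf ι m N v l).filter (fun n => n k = 0),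
      om N v l q n ^ 2 * (V (insert k (sp n)) * ∏ i, s (n i)) =
      ∑ n ∈ Cf ι m N v l, ∑ k ∈ (sp n)ᶜ, om N v l q n ^ 2 * (V (insert k (sp n)) * ∏ i, s (n i)) := by
    simp_rw [Finset.sum_filter]
    rw [Finset.sum_comm]
    refine Finset.sum_congr rfl fun n _ => ?_
    rw [← Finset.sum_filter]
    refine Finset.sum_congr ?_ fun _ _ => rfl
    ext k
    simp [sp]
  have e2 : ∀ n ∈ Cf ι m N v l, ∑ k ∈ (sp n)ᶜ, om N v l q n ^ 2 * (V (insert k (sp n)) * ∏ i, s (n i)) ≤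
      om N v l q n ^ 2 * (μ * ms V s n) := by
    intro n hn
    have hcard : (sp n).card < N + 1 := by
      have := (Finset.mem_filter.1 hn).2.1
      omega
    have hst := h.step (sp n) hcard
    rw [← Finset.mul_sum, ← Finset.sum_mul]
    refine mul_le_mul_of_nonneg_left ?_ (sq_nonneg _)
    unfold ms
    rw [← mul_assoc]
    exact mul_le_mul_of_nonneg_right hst (Finset.prod_nonneg fun i _ => hs _)
  have e3 := exm (m := m) (l := l) hVh (s := s) (w := fun a => Real.exp (τ * v a) - 1) hs hs0 hv hv0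
    (fun a => sub_nonneg.2 (Real.one_le_exp (mul_nonneg hτ (hv a)))) (by simp [hv0])
  calc ∑ k : ι, ∑ n ∈ (Cf ι m N v l).filter (fun n => n k = 0),
      om N v l q n ^ 2 * (V (insert k (sp n)) * ∏ i, s (n i))
      = ∑ n ∈ Cf ι m N v l, ∑ k ∈ (sp n)ᶜ, om N v l q n ^ 2 * (V (insert k (sp n)) * ∏ i, s (n i)) := e1
    _ ≤ ∑ n ∈ Cf ι m N v l, om N v l q n ^ 2 * (μ * ms V s n) := Finset.sum_le_sum e2
    _ ≤ ∑ n ∈ Cf ι m N v l, (Real.exp (-(τ * (l - vm))) *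
          ∏ i, (1 + (Real.exp (τ * v (n i)) - 1))) * (μ * ms V s n) :=
        Finset.sum_le_sum fun n _ => mul_le_mul_of_nonneg_right (Bd2_sq hv hvm hN hτ hq hq1 n)
          (mul_nonneg h.μ_nonneg (hms n))
    _ = μ * (Real.exp (-(τ * (l - vm))) * ∑ n ∈ Cf ι m N v l,
          (∏ i, (1 + (Real.exp (τ * v (n i)) - 1))) * ms V s n) := by
        rw [Finset.mul_sum, Finset.mul_sum]
        exact Finset.sum_congr rfl fun n _ => by ring
    _ ≤ μ * (Real.exp (-(τ * (l - vm))) * (Real.exp (μ * ∑ a ∈ Icc 1 m,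
          s a * (Real.exp (τ * v a) - 1)) * MM m N v l V s)) :=
        mul_le_mul_of_nonneg_left (mul_le_mul_of_nonneg_left e3 (Real.exp_pos _).le) h.μ_nonneg
    _ = _ := by
        rw [← mul_assoc (Real.exp _), ← Real.exp_add, neg_add_eq_sub]

end H82LX
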