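import Pool.Agent.H69.PG.Qfa
import Pool.Agent.H69.PG.Qfb

/-!
# FPB: the parts of the coefficient sums with a given prime divisor
-/

open Finset EG

namespace H82LX

open H69PG

theorem Fpb_kind {p : ℕ} (P T : Finset (ℕ × ℕ)) (φ : ℕ × ℕ → ℕ × ℕ) (hφ : ∀ x ∈ T, φ x ∈ P)
    (hinj : Set.InjOn φ (T : Set (ℕ × ℕ)))
    (hl : ∀ x ∈ T, Nat.lcm x.1 x.2 = p * Nat.lcm (φ x).1 (φ x).2) :
    ∑ x ∈ T, 1 / (Nat.lcm x.1 x.2 : ℝ) ≤ 1 / (p : ℝ) * ∑ x ∈ P, 1 / (Nat.lcm x.1 x.2 : ℝ) := by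
  classical
  have h1 : ∑ x ∈ T, 1 / (Nat.lcm x.1 x.2 : ℝ) =
      1 / (p : ℝ) * ∑ x ∈ T, 1 / (Nat.lcm (φ x).1 (φ x).2 : ℝ) := by
    rw [mul_sum]
    refine sum_congr rfl fun x hx => ?_
    rw [hl x hx]
    push_cast
    rw [one_div_mul_one_div]
  have h2 : ∑ x ∈ T, 1 / (Nat.lcm (φ x).1 (φ x).2 : ℝ) =
      ∑ y ∈ T.image φ, 1 / (Nat.lcm y.1 y.2 : ℝ) :=
    (sum_image (f := fun y : ℕ × ℕ => 1 / (Nat.lcm y.1 y.2 : ℝ)) hinj).symm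
  rw [h1, h2]
  refine mul_le_mul_of_nonneg_left ?_ (by positivity)
  refine sum_le_sum_of_subset_of_nonneg ?_ (fun _ _ _ => by positivity)
  intro y hy
  obtain ⟨x, hx, rfl⟩ := mem_image.1 hy
  exact hφ x hx

theorem Fpb_lcm1 {p d d' : ℕ} (hp : p.Prime) (h : p ∣ d) (h' : ¬ p ∣ d') :
    Nat.lcm d d' = p * Nat.lcm (d / p) d' := by
  obtain ⟨e, rfl⟩ := h
  rw [Nat.mul_div_cancel_left e hp.pos]
  have hc : Nat.Coprime p d' := (Nat.Prime.coprime_iff_not_dvd hp).2 h'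
  unfold Nat.lcm
  rw [Nat.Coprime.gcd_mul_left_cancel e hc, mul_assoc, Nat.mul_div_assoc]
  exact (Nat.gcd_dvd_left e d').mul_right d'

theorem Fpb_lcm3 {p d d' : ℕ} (hp : p.Prime) (h : p ∣ d) (h' : p ∣ d') :
    Nat.lcm d d' = p * Nat.lcm (d / p) (d' / p) := by
  obtain ⟨e, rfl⟩ := h
  obtain ⟨e', rfl⟩ := h'
  rw [Nat.mul_div_cancel_left e hp.pos, Nat.mul_div_cancel_left e' hp.pos, Nat.lcm_mul_left]

theorem Fpb_div_inj {p a b : ℕ} (h : p ∣ a) (h' : p ∣ b) (he : a / p = b / p) : a = b :=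
  (Nat.div_left_inj h h').1 he

theorem Fpb_W (Q z z' : ℕ) {p : ℕ} (hp : p.Prime) :
    ∑ d ∈ sq Q z, ∑ d' ∈ sq Q z', (if p ∣ Nat.lcm d d' then 1 / (Nat.lcm d d' : ℝ) else 0) ≤
      3 / (p : ℝ) * ∑ d ∈ sq Q z, ∑ d' ∈ sq Q z', 1 / (Nat.lcm d d' : ℝ) := by
  classical
  rw [← sum_product', ← sum_product']
  set P := sq Q z ×ˢ sq Q z' with hP
  have hdiv : ∀ {a y : ℕ}, a ∈ sq Q y → p ∣ a → a / p ∈ sq Q y := fun h1 h2 =>
    selT_dvd h1 (Nat.div_dvd_of_dvd h2)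
  have k1 := Fpb_kind (p := p) P (P.filter fun x => p ∣ x.1 ∧ ¬ p ∣ x.2) (fun x => (x.1 / p, x.2))
    (by
      intro x hx
      rw [mem_filter, hP, mem_product] at hx
      rw [hP, mem_product]
      exact ⟨hdiv hx.1.1 hx.2.1, hx.1.2⟩)
    (by
      intro x hx y hy h
      rw [mem_coe, mem_filter] at hx hy
      simp only [Prod.mk.injEq] at h
      exact Prod.ext (Fpb_div_inj hx.2.1 hy.2.1 h.1) h.2)
    (by
      intro x hx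
      rw [mem_filter] at hx
      exact Fpb_lcm1 hp hx.2.1 hx.2.2)
  have k2 := Fpb_kind (p := p) P (P.filter fun x => ¬ p ∣ x.1 ∧ p ∣ x.2) (fun x => (x.1, x.2 / p))
    (by
      intro x hx
      rw [mem_filter, hP, mem_product] at hx
      rw [hP, mem_product]
      exact ⟨hx.1.1, hdiv hx.1.2 hx.2.2⟩)
    (by
      intro x hx y hy h
      rw [mem_coe, mem_filter] at hx hy
      simp only [Prod.mk.injEq] at h
      exact Prod.ext h.1 (Fpb_div_inj hx.2.2 hy.2.2 h.2))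
    (by
      intro x hx
      rw [mem_filter] at hx
      show Nat.lcm x.1 x.2 = p * Nat.lcm x.1 (x.2 / p)
      rw [Nat.lcm_comm, Fpb_lcm1 hp hx.2.2 hx.2.1, Nat.lcm_comm])
  have k3 := Fpb_kind (p := p) P (P.filter fun x => p ∣ x.1 ∧ p ∣ x.2) (fun x => (x.1 / p, x.2 / p))
    (by
      intro x hx
      rw [mem_filter, hP, mem_product] at hx
      rw [hP, mem_product]
      exact ⟨hdiv hx.1.1 hx.2.1, hdiv hx.1.2 hx.2.2⟩)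
    (by
      intro x hx y hy h
      rw [mem_coe, mem_filter] at hx hy
      simp only [Prod.mk.injEq] at h
      exact Prod.ext (Fpb_div_inj hx.2.1 hy.2.1 h.1) (Fpb_div_inj hx.2.2 hy.2.2 h.2))
    (by
      intro x hx
      rw [mem_filter] at hx
      exact Fpb_lcm3 hp hx.2.1 hx.2.2)
  rw [sum_filter] at k1 k2 k3
  have hsplit : ∑ x ∈ P, (if p ∣ Nat.lcm x.1 x.2 then 1 / (Nat.lcm x.1 x.2 : ℝ) else 0) =
      ∑ x ∈ P, (if p ∣ x.1 ∧ ¬ p ∣ x.2 then 1 / (Nat.lcm x.1 x.2 : ℝ) else 0) +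
      ∑ x ∈ P, (if ¬ p ∣ x.1 ∧ p ∣ x.2 then 1 / (Nat.lcm x.1 x.2 : ℝ) else 0) +
      ∑ x ∈ P, (if p ∣ x.1 ∧ p ∣ x.2 then 1 / (Nat.lcm x.1 x.2 : ℝ) else 0) := by
    rw [← sum_add_distrib, ← sum_add_distrib]
    refine sum_congr rfl fun x _ => ?_
    have hd : p ∣ Nat.lcm x.1 x.2 ↔ p ∣ x.1 ∨ p ∣ x.2 := by
      constructor
      · intro h
        have h1 : p ∣ x.1 * x.2 := h.trans (Nat.lcm_dvd_mul x.1 x.2)
        exact (Nat.Prime.dvd_mul hp).1 h1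
      · rintro (h | h)
        · exact h.trans (Nat.dvd_lcm_left _ _)
        · exact h.trans (Nat.dvd_lcm_right _ _)
    by_cases h1 : p ∣ x.1 <;> by_cases h2 : p ∣ x.2 <;> simp [hd, h1, h2]
  rw [hsplit]
  have e : 3 / (p : ℝ) * ∑ x ∈ P, 1 / (Nat.lcm x.1 x.2 : ℝ) =
      1 / (p : ℝ) * ∑ x ∈ P, 1 / (Nat.lcm x.1 x.2 : ℝ) +
      1 / (p : ℝ) * ∑ x ∈ P, 1 / (Nat.lcm x.1 x.2 : ℝ) +
      1 / (p : ℝ) * ∑ x ∈ P, 1 / (Nat.lcm x.1 x.2 : ℝ) := by ring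
  rw [e]
  exact add_le_add (add_le_add k1 k2) k3

theorem Fpb_gen {Q z z' p : ℕ} (hp : p.Prime) (f f' : ℕ → ℝ) {A A' : ℝ} (hA : 0 ≤ A) (hf : ∀ d, |f d| ≤ A)
    (hf' : ∀ d, |f' d| ≤ A') :
    ∑ B ∈ (lcD (sq Q z) (sq Q z')).filter (fun B => p ∣ B), |lcf (sq Q z) (sq Q z') f f' B| / (B : ℝ) ≤
      3 / (p : ℝ) * (A * A' * ∑ d ∈ sq Q z, ∑ d' ∈ sq Q z', 1 / (Nat.lcm d d' : ℝ)) := by
  have h0 : ∀ n : ℕ, 0 ≤ (fun n : ℕ => if p ∣ n then 1 / (n : ℝ) else 0) n := by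
    intro n
    change (0 : ℝ) ≤ if p ∣ n then 1 / (n : ℝ) else 0
    split_ifs
    · positivity
    · exact le_rfl
  have h1 : ∑ B ∈ (lcD (sq Q z) (sq Q z')).filter (fun B => p ∣ B),
      |lcf (sq Q z) (sq Q z') f f' B| / (B : ℝ) =
      ∑ B ∈ lcD (sq Q z) (sq Q z'), |lcf (sq Q z) (sq Q z') f f' B| *
        (fun n : ℕ => if p ∣ n then 1 / (n : ℝ) else 0) B := by
    rw [sum_filter]
    refine sum_congr rfl fun B _ => ?_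
    change _ = _ * (if p ∣ B then 1 / (B : ℝ) else 0)
    split_ifs
    · rw [mul_one_div]
    · rw [mul_zero]
  rw [h1]
  refine (Qfa_lcf_abs _ _ _ _ _ h0).trans ?_
  have h2 : ∑ d ∈ sq Q z, ∑ d' ∈ sq Q z', |f d| * |f' d'| *
        (fun n : ℕ => if p ∣ n then 1 / (n : ℝ) else 0) (Nat.lcm d d') ≤
      ∑ d ∈ sq Q z, ∑ d' ∈ sq Q z', (A * A') *
        (if p ∣ Nat.lcm d d' then 1 / (Nat.lcm d d' : ℝ) else 0) := by
    refine sum_le_sum fun d _ => sum_le_sum fun d' _ => ?_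
    refine mul_le_mul_of_nonneg_right ?_ (h0 _)
    exact mul_le_mul (hf d) (hf' d') (abs_nonneg _) hA
  refine h2.trans ?_
  have h3 : ∑ d ∈ sq Q z, ∑ d' ∈ sq Q z', (A * A') *
        (if p ∣ Nat.lcm d d' then 1 / (Nat.lcm d d' : ℝ) else 0) =
      (A * A') * ∑ d ∈ sq Q z, ∑ d' ∈ sq Q z',
        (if p ∣ Nat.lcm d d' then 1 / (Nat.lcm d d' : ℝ) else 0) := by
    rw [mul_sum]
    refine sum_congr rfl fun d _ => ?_
    rw [mul_sum]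
  rw [h3]
  have hA' : 0 ≤ A' := (abs_nonneg _).trans (hf' 0)
  refine (mul_le_mul_of_nonneg_left (Fpb_W Q z z' hp) (mul_nonneg hA hA')).trans (le_of_eq ?_)
  ring

theorem fAB_p {Z : ℕ → ℕ} {z M a a' : ℕ} (hz : 1 ≤ z) (hZ : Z a ≤ z ^ M) (hZ' : Z a' ≤ z ^ M) (hM : 2 * M ≤ z) {Γ : ℝ}
    (h : GG (primorial z) (Z a) ≤ Γ) (h' : GG (primorial z) (Z a') ≤ Γ) {p : ℕ} (hp : p.Prime) :
    ∑ B ∈ (DAB Z (primorial z) a a').filter (fun B => p ∣ B), |fAB Z (primorial z) a a' B| / (B : ℝ) ≤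
      3 / (p : ℝ) * (4 * Γ ^ 5) := by
  have hΓ : 0 ≤ Γ := (Qfa_GG_nonneg _ _).trans h
  refine (Fpb_gen hp (lamA Z (primorial z) a) (lamA Z (primorial z) a') (A := 2 * Γ) (A' := 2 * Γ)
    (by positivity) (lamA_abs hz hZ hM h) (lamA_abs hz hZ' hM h')).trans ?_
  refine mul_le_mul_of_nonneg_left ?_ (by positivity)
  have h4 := Qfa_lcm_sum h h'
  have h5 := mul_le_mul_of_nonneg_left h4 (show (0 : ℝ) ≤ 2 * Γ * (2 * Γ) by positivity)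
  refine h5.trans (le_of_eq ?_)
  ring

theorem fB_p {Q R : ℕ} (hR : 1 ≤ R) {Γ : ℝ} (h : GG Q R ≤ Γ) {p : ℕ} (hp : p.Prime) :
    ∑ B ∈ (DB Q R).filter (fun B => p ∣ B), |fB Q R B| / (B : ℝ) ≤ 3 / (p : ℝ) * Γ ^ 3 := by
  refine (Fpb_gen hp (lb Q R) (lb Q R) (A := 1) (A' := 1) zero_le_one (Qfb_lb hR) (Qfb_lb hR)).trans ?_
  refine mul_le_mul_of_nonneg_left ?_ (by positivity)
  rw [one_mul, one_mul]
  exact Qfa_lcm_sum h h

end H82LX
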