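import Pool.Agent.H69.PG.Zfl
import Pool.Agent.H69.PG.VVf

/-!
# ZFU: size of the parameters, uniform versions

* `zfu`: with `u = (ε/2) log x ≥ 1`: `x^ε = e^(2u)`, `e^(2u) - 1 ≥ e^u` (`e^(2u) - e^u = e^u (e^u - 1) ≥ e (e - 1) ≥ 1`), so `e^u ≤ ⌊x^ε⌋ ≤ x^ε`; take logarithms; `⌊x^ε⌋ ≥ e > 2`. (Compare `zfl` in `Pool/Agent/H69/PG/Zfl.lean`.)
* `mch`: `m` = the largest natural number with `B^(16 m) ≤ ⌊H⌋₊` (`Nat.log (B^16) ⌊H⌋₊`); then `⌊H⌋₊ < B^(16(m+1))`, so `H < B^(16(m+1))` (the right side is a natural number: `⌊H⌋₊ + 1 ≤ B^(16(m+1))`, `H < ⌊H⌋₊ + 1`). `H0 = B^(16 m0)`.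
* `vv1`: `vv_mu` with `z0 = 2`: `φ(2)/2 = 1/2` (`primorial 2 = 2`), `VV K z 1 ≤ 2 C log K/(log 2 log z) ≤ 3 C log K/log z`.
-/

open Finset EG

namespace H82LX

open H69PG

theorem zfu {ε x : ℝ} (hx : 1 ≤ x) (h : 2 ≤ ε * Real.log x) :
    ε / 2 * Real.log x ≤ Real.log (zf ε x) ∧ Real.log (zf ε x) ≤ ε * Real.log x ∧
      Real.exp (ε / 2 * Real.log x) ≤ zf ε x ∧ 2 ≤ zf ε x := by
  have hx0 : 0 < x := by linarith
  set u : ℝ := ε / 2 * Real.log x with hu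
  have hu1 : 1 ≤ u := by
    rw [hu]
    linarith
  have hxe : x ^ ε = Real.exp (u + u) := by
    rw [Real.rpow_def_of_pos hx0]
    congr 1
    rw [hu]
    ring
  have he : 2 < Real.exp 1 := by
    have := Real.exp_one_gt_d9
    linarith
  have heu : Real.exp 1 ≤ Real.exp u := Real.exp_le_exp.2 hu1
  have h1 : Real.exp u ≤ (zf ε x : ℝ) := by
    have h2 : x ^ ε < (zf ε x : ℝ) + 1 := by
      unfold zf
      exact Nat.lt_floor_add_one _
    rw [hxe, Real.exp_add] at h2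
    nlinarith
  have hpos : (0 : ℝ) < zf ε x := lt_of_lt_of_le (Real.exp_pos _) h1
  refine ⟨?_, ?_, h1, ?_⟩
  · have := Real.log_le_log (Real.exp_pos u) h1
    rwa [Real.log_exp] at this
  · have h3 := Real.log_le_log hpos (zf_le (ε := ε) hx0.le)
    rwa [Real.log_rpow hx0] at h3
  · have h4 : (2 : ℝ) < zf ε x := by linarith
    have h5 : 2 < zf ε x := by exact_mod_cast h4
    omega

theorem mch (B m0 : ℕ) (hB : 2 ≤ B) : ∃ H0 : ℝ, ∀ H : ℝ, H0 ≤ H →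
    ∃ m : ℕ, m0 ≤ m ∧ (B : ℝ) ^ (16 * m) ≤ H ∧ H ≤ (B : ℝ) ^ (16 * (m + 1)) := by
  refine ⟨(B : ℝ) ^ (16 * m0), fun H hH => ?_⟩
  have hBR : (1 : ℝ) ≤ B := by
    have : 1 ≤ B := by omega
    exact_mod_cast this
  have hHpos : 0 ≤ H := le_trans (by positivity) hH
  set n := ⌊H⌋₊ with hn
  have h1 : B ^ (16 * m0) ≤ n := by
    rw [hn, Nat.le_floor_iff hHpos]
    push_cast
    exact hH
  have hb : 1 < B ^ 16 := Nat.one_lt_pow (by norm_num) (by omega)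
  have hn0 : n ≠ 0 := by
    have : 0 < B ^ (16 * m0) := Nat.pow_pos (by omega)
    omega
  refine ⟨Nat.log (B ^ 16) n, ?_, ?_, ?_⟩
  · refine Nat.le_log_of_pow_le hb ?_
    rw [← pow_mul]
    exact h1
  · have h2 := Nat.pow_log_le_self (B ^ 16) hn0
    rw [← pow_mul] at h2
    have h3 : ((B ^ (16 * Nat.log (B ^ 16) n) : ℕ) : ℝ) ≤ (n : ℝ) := by exact_mod_cast h2
    push_cast at h3
    exact h3.trans (Nat.floor_le hHpos)
  · have h2 := Nat.lt_pow_succ_log_self hb n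
    rw [← pow_mul] at h2
    have h3 : ((n + 1 : ℕ) : ℝ) ≤ ((B ^ (16 * (Nat.log (B ^ 16) n + 1)) : ℕ) : ℝ) := by
      exact_mod_cast h2
    push_cast at h3
    exact (Nat.lt_floor_add_one H).le.trans h3

theorem vv1 : ∃ C : ℝ, 1 ≤ C ∧ ∀ K z : ℕ, 2 ≤ K → K ≤ z → VV K z 1 ≤ C * Real.log K / Real.log z := by
  obtain ⟨C, hC, h⟩ := vv_mu
  refine ⟨3 * C, by linarith, fun K z hK hz => ?_⟩
  have h1 := h 2 K z le_rfl hK hz
  have hp : primorial 2 = 2 := by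
    unfold primorial
    decide
  rw [hp] at h1
  have ht : Nat.totient 2 = 1 := Nat.totient_two
  rw [ht] at h1
  have lz : 0 < Real.log z := Real.log_pos (by exact_mod_cast (by omega : 1 < z))
  have lK : 0 < Real.log K := Real.log_pos (by exact_mod_cast (by omega : 1 < K))
  have l2 : 2 / 3 < Real.log 2 := by
    have := Real.log_two_gt_d9
    linarith
  have h2 : VV K z 1 ≤ 2 * (C * Real.log K / (Real.log 2 * Real.log z)) := by
    push_cast at h1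
    linarith
  refine h2.trans ?_
  rw [← mul_div_assoc, div_le_div_iff₀ (by positivity) lz]
  have h3 : 0 < C * Real.log K * Real.log z := by positivity
  nlinarith

end H82LX
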