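import Pool.Agent.H82.LX.Num

/-!
# EPU: the error terms are small

Put `P = 2N + 1`, `X = 1 + (m+1)² μ`, `Γ = 2 D N²`. For `N ≥ N0(D, C)` (in particular `N ≥ 12`, `32 D^5 · 4 ≤ N²`, i.e. `4 Γ^5 = 128 D^5 N^10 ≤ N^12`, `N ≥ C`, `N² ≥ 600`, `N0` of `num`):
`X ≤ 1 + N² · N³ ≤ N^6` (`m + 1 ≤ N`, `μ ≤ m N² ≤ N³`), `4 Γ² ≤ 4 Γ^5 ≤ N^12`, `P ≤ N^2 ≤ N^P`. So `(4Γ^5)^P P X^P ≤ N^(19 P) ≤ N^(23 P)`. Let `W = N^(43 P) ≤ exp(N²/60 - 1)/300`.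
(i) `exp(-b0) ≤ exp(-(N²/60 - 1))` (`b0 = N²/60` rounded down, `b0 ≥ N²/60 - 1`), so `exp(-b0) (4Γ^5)^P P X^P ≤ 1/300`.
(ii) `z ≥ exp(log x/(2N²)) ≥ exp(N^6/2) ≥ exp(N²/60 - 1)`, `9 P² ≤ N^P`, so `(9 P²/z) (4Γ^5)^P P X^P ≤ N^(24 P)/z ≤ 1/300`.
(iii) `z^(3(4 b0 + 10)) ≤ x^((12 b0 + 30)/N²) ≤ x^(1/5 + 30/N²) ≤ x^(1/4)`, `(x^(1/8))² R² ≤ x^(1/4 + 1/8)`, `T ≥ x^(7/10)`, `1/V ≤ (C log z)^(2P) ≤ (N · N^9)^(2P) = N^(20 P)` (`log z ≤ log x ≤ N^9`), so the quotient is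
at most `x^(5/8 - 7/10) (4Γ²)^P N^(20P)`, and times `P X^P` it is at most `exp(-(3/40) log x) N^(43 P) ≤ exp(-(3/40) N^8) N^(43P) ≤ 1/300` (`(3/40) N^8 ≥ N²/60 - 1`; `12 P + 20 P + P + 6 P = 39 P`).
Sum: `3/300 ≤ 1/8`.
-/

namespace H82LX

theorem epu {D C : ℝ} (hD : 1 ≤ D) (hC : 1 ≤ C) : ∃ N0 : ℕ, ∀ N : ℕ, N0 ≤ N → ∀ (m z R T : ℕ) (x μ V : ℝ),
    1 ≤ x → (N : ℝ) ^ 8 ≤ Real.log x → Real.log x ≤ (N : ℝ) ^ 9 → m + 1 ≤ N → 0 ≤ μ → μ ≤ m * (N : ℝ) ^ 2 →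
    (z : ℝ) ≤ x ^ (1 / (N : ℝ) ^ 2) → Real.exp (1 / (N : ℝ) ^ 2 / 2 * Real.log x) ≤ z → (R : ℝ) ≤ x ^ (1 / 16 : ℝ) →
    x ^ (7 / 10 : ℝ) ≤ T → 1 / (C * Real.log z) ^ (2 * (2 * N + 1)) ≤ V →
    ((Real.exp (-((N ^ 2 / 60 : ℕ) : ℝ)) + 9 * (2 * (N : ℝ) + 1) ^ 2 / z) * (4 * (2 * D / (1 / (N : ℝ) ^ 2)) ^ 5) ^ (2 * N + 1) +
      (z : ℝ) ^ (3 * (4 * (N ^ 2 / 60) + 10)) * (4 * (2 * D / (1 / (N : ℝ) ^ 2)) ^ 2) ^ (2 * N + 1) *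
        ((x ^ (1 / 8 : ℝ)) ^ 2 * (R : ℝ) ^ 2) / (T * V)) *
      ((2 * (N : ℝ) + 1) * (1 + ((m : ℝ) + 1) ^ 2 * μ) ^ (2 * N + 1)) ≤ 1 / 8 := by
  obtain ⟨N1, hN1⟩ := num
  refine ⟨N1 + 25 + ⌈128 * D ^ 5⌉₊ + ⌈C⌉₊, ?_⟩
  intro N hN m z R T x μ V hx hlx1 hlx2 hm hμ0 hμ hz1 hz2 hR hT hV
  have hnum := hN1 N (by omega)
  have hN25 : (25 : ℝ) ≤ N := by
    have : 25 ≤ N := by omega
    exact_mod_cast this
  have hnD : 128 * D ^ 5 ≤ (N : ℝ) := by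
    refine (Nat.le_ceil _).trans ?_
    have : ⌈128 * D ^ 5⌉₊ ≤ N := by omega
    exact_mod_cast this
  have hnC : C ≤ (N : ℝ) := by
    refine (Nat.le_ceil _).trans ?_
    have : ⌈C⌉₊ ≤ N := by omega
    exact_mod_cast this
  set n : ℝ := (N : ℝ) with hn
  have hn0 : 0 < n := by linarith
  have hn1 : 1 ≤ n := by linarith
  set P : ℕ := 2 * N + 1 with hP
  have hPr : (2 * n + 1) = (P : ℝ) := by rw [hP, hn]; push_cast; ring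
  have hx0 : 0 < x := by linarith
  -- Gamma
  have hΓ : 2 * D / (1 / n ^ 2) = 2 * D * n ^ 2 := by
    rw [div_div_eq_mul_div, div_one]
  rw [hΓ]
  set Γ := 2 * D * n ^ 2 with hΓd
  have hΓ1 : 1 ≤ Γ := by
    rw [hΓd]
    have : 1 ≤ n ^ 2 := one_le_pow₀ hn1
    nlinarith
  have h5 : 4 * Γ ^ 5 ≤ n ^ 12 := by
    have e : 4 * Γ ^ 5 = (128 * D ^ 5) * n ^ 10 := by rw [hΓd]; ring
    rw [e]
    calc (128 * D ^ 5) * n ^ 10 ≤ n * n ^ 10 := mul_le_mul_of_nonneg_right hnD (by positivity)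
      _ ≤ n * n ^ 11 := mul_le_mul_of_nonneg_left (pow_le_pow_right₀ hn1 (by norm_num)) hn0.le
      _ = n ^ 12 := by ring
  have h2 : 4 * Γ ^ 2 ≤ n ^ 12 := by
    have : Γ ^ 2 ≤ Γ ^ 5 := pow_le_pow_right₀ hΓ1 (by norm_num)
    linarith
  have hm' : (m : ℝ) + 1 ≤ n := by
    rw [hn]; exact_mod_cast hm
  have hm0 : (0 : ℝ) ≤ m := Nat.cast_nonneg m
  have hX : 1 + ((m : ℝ) + 1) ^ 2 * μ ≤ n ^ 6 := by
    have h3 : μ ≤ n * n ^ 2 := hμ.trans (mul_le_mul_of_nonneg_right (by linarith) (by positivity))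
    have h4 : ((m : ℝ) + 1) ^ 2 ≤ n ^ 2 := pow_le_pow_left₀ (by linarith) hm' 2
    have h6 : ((m : ℝ) + 1) ^ 2 * μ ≤ n ^ 2 * (n * n ^ 2) := mul_le_mul h4 h3 hμ0 (by positivity)
    have h7 : (1 : ℝ) ≤ n ^ 5 := one_le_pow₀ hn1
    calc 1 + ((m : ℝ) + 1) ^ 2 * μ ≤ n ^ 5 + n ^ 5 := by nlinarith
      _ = 2 * n ^ 5 := by ring
      _ ≤ n * n ^ 5 := mul_le_mul_of_nonneg_right (by linarith) (by positivity)
      _ = n ^ 6 := by ring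
  have hX0 : 0 ≤ 1 + ((m : ℝ) + 1) ^ 2 * μ := by positivity
  have hP2 : 2 * n + 1 ≤ n ^ 2 := by nlinarith
  have hPP : n ^ 2 ≤ n ^ P := pow_le_pow_right₀ hn1 (by omega)
  have hF : (2 * n + 1) * (1 + ((m : ℝ) + 1) ^ 2 * μ) ^ P ≤ n ^ (7 * P) := by
    have h3 : (1 + ((m : ℝ) + 1) ^ 2 * μ) ^ P ≤ (n ^ 6) ^ P := pow_le_pow_left₀ hX0 hX P
    calc (2 * n + 1) * (1 + ((m : ℝ) + 1) ^ 2 * μ) ^ P ≤ n ^ P * (n ^ 6) ^ P :=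
          mul_le_mul (hP2.trans hPP) h3 (pow_nonneg hX0 _) (by positivity)
      _ = n ^ (7 * P) := by rw [← pow_mul, ← pow_add]; congr 1; omega
  have hF0 : 0 ≤ (2 * n + 1) * (1 + ((m : ℝ) + 1) ^ 2 * μ) ^ P := by positivity
  have h5P : (4 * Γ ^ 5) ^ P ≤ n ^ (12 * P) := by
    rw [pow_mul]
    exact pow_le_pow_left₀ (by positivity) h5 P
  have h2P : (4 * Γ ^ 2) ^ P ≤ n ^ (12 * P) := by
    rw [pow_mul]
    exact pow_le_pow_left₀ (by positivity) h2 P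
  set E := Real.exp (n ^ 2 / 60 - 1) with hE
  have hE0 : 0 < E := Real.exp_pos _
  have hW : 300 * n ^ (43 * P) ≤ E := hnum
  have hnP : ∀ k, 0 < n ^ k := fun k => by positivity
  -- generic: n^(a P) / E ≤ 1/300 for a ≤ 43
  have hgen : ∀ a : ℕ, a ≤ 43 → n ^ (a * P) / E ≤ 1 / 300 := by
    intro a ha
    rw [div_le_iff₀ hE0]
    have h3 : n ^ (a * P) ≤ n ^ (43 * P) := pow_le_pow_right₀ hn1 (Nat.mul_le_mul_right P ha)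
    linarith
  -- b0
  set b0 : ℕ := N ^ 2 / 60 with hb0
  have hb0l : n ^ 2 / 60 - 1 ≤ (b0 : ℝ) := by
    have h3 : N ^ 2 < 60 * (b0 + 1) := by
      rw [hb0]
      have := Nat.lt_mul_div_succ (N ^ 2) (by norm_num : 0 < 60)
      simpa using this
    have h4 : n ^ 2 < 60 * ((b0 : ℝ) + 1) := by
      rw [hn]
      exact_mod_cast h3
    linarith
  have hb0u : (b0 : ℝ) ≤ n ^ 2 / 60 := by
    have h3 : 60 * b0 ≤ N ^ 2 := by rw [hb0]; exact Nat.mul_div_le _ _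
    have h4 : 60 * (b0 : ℝ) ≤ n ^ 2 := by
      rw [hn]
      exact_mod_cast h3
    linarith
  have hT1 : Real.exp (-(b0 : ℝ)) ≤ 1 / E := by
    rw [hE, one_div, ← Real.exp_neg]
    exact Real.exp_le_exp.2 (by linarith)
  -- z
  have hn6 : n ^ 2 / 60 - 1 ≤ 1 / n ^ 2 / 2 * Real.log x := by
    have h3 : 1 / n ^ 2 / 2 * n ^ 8 ≤ 1 / n ^ 2 / 2 * Real.log x :=
      mul_le_mul_of_nonneg_left hlx1 (by positivity)
    have h4 : 1 / n ^ 2 / 2 * n ^ 8 = n ^ 6 / 2 := by field_simp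
    have h6 : n ^ 2 ≤ n ^ 6 := pow_le_pow_right₀ hn1 (by norm_num)
    rw [h4] at h3
    have : 0 < n ^ 2 := by positivity
    linarith
  have hzE : E ≤ (z : ℝ) := (Real.exp_le_exp.2 hn6).trans hz2
  have hz0 : (0 : ℝ) < z := lt_of_lt_of_le hE0 hzE
  have hz1' : (1 : ℝ) < z := by
    have h3 : 300 * n ^ (43 * P) ≤ (z : ℝ) := hW.trans hzE
    have h4 : 1 ≤ n ^ (43 * P) := one_le_pow₀ hn1
    linarith
  have hT2 : 9 * (2 * n + 1) ^ 2 / z ≤ n ^ P / E := by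
    have h3 : 9 * (2 * n + 1) ^ 2 ≤ n ^ P := by
      calc 9 * (2 * n + 1) ^ 2 ≤ n * (n ^ 2) ^ 2 :=
            mul_le_mul (by linarith) (pow_le_pow_left₀ (by linarith) hP2 2) (by positivity) hn0.le
        _ = n ^ 5 := by ring
        _ ≤ n ^ P := pow_le_pow_right₀ hn1 (by
            have : 25 ≤ N := by omega
            omega)
    exact div_le_div₀ (hnP P).le h3 hE0 hzE
  have hTA : (Real.exp (-(b0 : ℝ)) + 9 * (2 * n + 1) ^ 2 / z) * (4 * Γ ^ 5) ^ P *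
      ((2 * n + 1) * (1 + ((m : ℝ) + 1) ^ 2 * μ) ^ P) ≤ 2 / 300 := by
    have h3 : Real.exp (-(b0 : ℝ)) + 9 * (2 * n + 1) ^ 2 / z ≤ 2 * (n ^ P / E) := by
      have h4 : 1 / E ≤ n ^ P / E := div_le_div_of_nonneg_right (one_le_pow₀ hn1) hE0.le
      linarith
    have h6 : (4 * Γ ^ 5) ^ P * ((2 * n + 1) * (1 + ((m : ℝ) + 1) ^ 2 * μ) ^ P) ≤ n ^ (12 * P) * n ^ (7 * P) :=
      mul_le_mul h5P hF hF0 (hnP _).le
    have h7 : 0 ≤ (4 * Γ ^ 5) ^ P * ((2 * n + 1) * (1 + ((m : ℝ) + 1) ^ 2 * μ) ^ P) := by positivity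
    calc _ = (Real.exp (-(b0 : ℝ)) + 9 * (2 * n + 1) ^ 2 / z) *
          ((4 * Γ ^ 5) ^ P * ((2 * n + 1) * (1 + ((m : ℝ) + 1) ^ 2 * μ) ^ P)) := by ring
      _ ≤ (2 * (n ^ P / E)) * (n ^ (12 * P) * n ^ (7 * P)) :=
          mul_le_mul h3 h6 h7 (by positivity)
      _ = 2 * (n ^ (20 * P) / E) := by
          have : n ^ P * (n ^ (12 * P) * n ^ (7 * P)) = n ^ (20 * P) := by
            rw [← pow_add, ← pow_add]; congr 1; omega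
          rw [← this]; ring
      _ ≤ 2 * (1 / 300) := mul_le_mul_of_nonneg_left (hgen 20 (by norm_num)) (by norm_num)
      _ = 2 / 300 := by norm_num
  -- third term
  have hzp : (z : ℝ) ^ (3 * (4 * b0 + 10)) ≤ x ^ (1 / 4 : ℝ) := by
    calc (z : ℝ) ^ (3 * (4 * b0 + 10)) ≤ (x ^ (1 / n ^ 2)) ^ (3 * (4 * b0 + 10)) :=
          pow_le_pow_left₀ hz0.le hz1 _
      _ = x ^ (1 / n ^ 2 * ((3 * (4 * b0 + 10) : ℕ) : ℝ)) := by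
          rw [Real.rpow_mul hx0.le, Real.rpow_natCast]
      _ ≤ x ^ (1 / 4 : ℝ) := by
          refine Real.rpow_le_rpow_of_exponent_le hx ?_
          have hn2 : 0 < n ^ 2 := by positivity
          rw [one_div, inv_mul_le_iff₀ hn2]
          push_cast
          nlinarith
  have hR2 : (R : ℝ) ^ 2 ≤ x ^ (1 / 8 : ℝ) := by
    calc (R : ℝ) ^ 2 ≤ (x ^ (1 / 16 : ℝ)) ^ 2 := pow_le_pow_left₀ (Nat.cast_nonneg R) hR 2
      _ = x ^ (1 / 8 : ℝ) := by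
          rw [← Real.rpow_natCast, ← Real.rpow_mul hx0.le]
          norm_num
  have hx8 : (x ^ (1 / 8 : ℝ)) ^ 2 = x ^ (1 / 4 : ℝ) := by
    rw [← Real.rpow_natCast, ← Real.rpow_mul hx0.le]
    norm_num
  have hlz : Real.log z ≤ n ^ 9 := by
    have h3 : Real.log z ≤ Real.log (x ^ (1 / n ^ 2)) := Real.log_le_log hz0 hz1
    rw [Real.log_rpow hx0] at h3
    have h4 : 1 / n ^ 2 ≤ 1 := by
      rw [div_le_one (by positivity)]; exact one_le_pow₀ hn1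
    have h6 : 0 ≤ Real.log x := Real.log_nonneg hx
    nlinarith
  have hlz0 : 0 < Real.log z := Real.log_pos hz1'
  have hCl : (C * Real.log z) ^ (2 * P) ≤ n ^ (20 * P) := by
    have h3 : C * Real.log z ≤ n * n ^ 9 := mul_le_mul hnC hlz hlz0.le hn0.le
    calc (C * Real.log z) ^ (2 * P) ≤ (n * n ^ 9) ^ (2 * P) :=
          pow_le_pow_left₀ (by positivity) h3 _
      _ = n ^ (20 * P) := by rw [← pow_succ', ← pow_mul]; congr 1; omega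
  have hV' : 1 / n ^ (20 * P) ≤ V :=
    (one_div_le_one_div_of_le (by positivity) hCl).trans hV
  have hx7 : 0 < x ^ (7 / 10 : ℝ) := Real.rpow_pos_of_pos hx0 _
  have hTV : x ^ (7 / 10 : ℝ) * (1 / n ^ (20 * P)) ≤ T * V :=
    mul_le_mul hT hV' (by positivity) (by linarith)
  have hTV0 : 0 < x ^ (7 / 10 : ℝ) * (1 / n ^ (20 * P)) := by positivity
  have hx340 : x ^ (-(3 / 40) : ℝ) ≤ 1 / E := by
    rw [Real.rpow_def_of_pos hx0, hE, one_div, ← Real.exp_neg]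
    refine Real.exp_le_exp.2 ?_
    have h3 : n ^ 2 ≤ n ^ 8 := pow_le_pow_right₀ hn1 (by norm_num)
    have h4 : 0 < n ^ 2 := by positivity
    nlinarith
  have hTB : (z : ℝ) ^ (3 * (4 * b0 + 10)) * (4 * Γ ^ 2) ^ P * ((x ^ (1 / 8 : ℝ)) ^ 2 * (R : ℝ) ^ 2) / (T * V) *
      ((2 * n + 1) * (1 + ((m : ℝ) + 1) ^ 2 * μ) ^ P) ≤ 1 / 300 := by
    rw [hx8]
    have h3 : (z : ℝ) ^ (3 * (4 * b0 + 10)) * (4 * Γ ^ 2) ^ P * (x ^ (1 / 4 : ℝ) * (R : ℝ) ^ 2) ≤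
        x ^ (1 / 4 : ℝ) * n ^ (12 * P) * (x ^ (1 / 4 : ℝ) * x ^ (1 / 8 : ℝ)) := by
      refine mul_le_mul (mul_le_mul hzp h2P (by positivity) (by positivity)) ?_ (by positivity) (by positivity)
      exact mul_le_mul_of_nonneg_left hR2 (by positivity)
    have h4 : (z : ℝ) ^ (3 * (4 * b0 + 10)) * (4 * Γ ^ 2) ^ P * (x ^ (1 / 4 : ℝ) * (R : ℝ) ^ 2) / (T * V) ≤
        x ^ (1 / 4 : ℝ) * n ^ (12 * P) * (x ^ (1 / 4 : ℝ) * x ^ (1 / 8 : ℝ)) /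
          (x ^ (7 / 10 : ℝ) * (1 / n ^ (20 * P))) :=
      div_le_div₀ (by positivity) h3 hTV0 hTV
    have h6 : x ^ (1 / 4 : ℝ) * n ^ (12 * P) * (x ^ (1 / 4 : ℝ) * x ^ (1 / 8 : ℝ)) /
          (x ^ (7 / 10 : ℝ) * (1 / n ^ (20 * P))) = x ^ (-(3 / 40) : ℝ) * n ^ (32 * P) := by
      have e1 : x ^ (1 / 4 : ℝ) * (x ^ (1 / 4 : ℝ) * x ^ (1 / 8 : ℝ)) = x ^ (-(3 / 40) : ℝ) * x ^ (7 / 10 : ℝ) := by
        rw [← Real.rpow_add hx0, ← Real.rpow_add hx0, ← Real.rpow_add hx0]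
        norm_num
      have e2 : n ^ (32 * P) = n ^ (12 * P) * n ^ (20 * P) := by
        rw [← pow_add]; congr 1; omega
      rw [e2, div_eq_iff (by positivity)]
      have hne : n ^ (20 * P) ≠ 0 := (hnP _).ne'
      calc x ^ (1 / 4 : ℝ) * n ^ (12 * P) * (x ^ (1 / 4 : ℝ) * x ^ (1 / 8 : ℝ))
          = (x ^ (1 / 4 : ℝ) * (x ^ (1 / 4 : ℝ) * x ^ (1 / 8 : ℝ))) * n ^ (12 * P) := by ring
        _ = (x ^ (-(3 / 40) : ℝ) * x ^ (7 / 10 : ℝ)) * n ^ (12 * P) := by rw [e1]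
        _ = x ^ (-(3 / 40) : ℝ) * (n ^ (12 * P) * n ^ (20 * P)) * (x ^ (7 / 10 : ℝ) * (1 / n ^ (20 * P))) := by
            field_simp
    rw [h6] at h4
    calc _ ≤ (x ^ (-(3 / 40) : ℝ) * n ^ (32 * P)) * n ^ (7 * P) :=
          mul_le_mul h4 hF hF0 (by positivity)
      _ ≤ (1 / E * n ^ (32 * P)) * n ^ (7 * P) := by
          refine mul_le_mul_of_nonneg_right (mul_le_mul_of_nonneg_right hx340 (hnP _).le) (hnP _).le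
      _ = n ^ (39 * P) / E := by
          have : n ^ (39 * P) = n ^ (32 * P) * n ^ (7 * P) := by rw [← pow_add]; congr 1; omega
          rw [this]; ring
      _ ≤ 1 / 300 := hgen 39 (by norm_num)
  have hfin : ((Real.exp (-(b0 : ℝ)) + 9 * (2 * n + 1) ^ 2 / z) * (4 * Γ ^ 5) ^ P +
      (z : ℝ) ^ (3 * (4 * b0 + 10)) * (4 * Γ ^ 2) ^ P * ((x ^ (1 / 8 : ℝ)) ^ 2 * (R : ℝ) ^ 2) / (T * V)) *
      ((2 * n + 1) * (1 + ((m : ℝ) + 1) ^ 2 * μ) ^ P) ≤ 2 / 300 + 1 / 300 := by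
    rw [add_mul]
    exact add_le_add hTA hTB
  refine hfin.trans (by norm_num)

end H82LX
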