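import Pool.Agent.H82.LX.Zfu
import Pool.Agent.H69.PG.Wbd

/-!
# WBU: sizes of the norms of the blocks, uniform version

The proof of `wbd` (`Pool/Agent/H69/PG/Wbd.lean`) with `zfu` instead of `zfl`: `2 ≤ ε log x` implies `2 ≤ e log x` for all exponents `e ≥ ε` which occur (`e = vs B m v a ≥ vs B m v 1 ≥ ε`, `e = r ≥ ε`), so `Wbd_key`
applies for every `x` in question (`2 ≤ x` because `log x ≥ 2/ε ≥ 2`).
-/

open Finset EG

namespace H82LX

open H69PG

theorem wbu : ∃ D : ℝ, 1 ≤ D ∧ ∀ (B m : ℕ) (v r ε x : ℝ), 8 * D ^ 2 ≤ B → 1 ≤ m → 0 < v → v ≤ 1 → 0 < r → r ≤ 1 → 0 < ε →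
    ε ≤ vs B m v 1 / (4 * D) → ε ≤ r → 1 ≤ x → 2 ≤ ε * Real.log x →
    (∀ a ∈ Icc 1 m, vs B m v a / (4 * D * ε) ≤ wA (fun a => zf (vs B m v a) x) (primorial (zf ε x)) a) ∧
    (∀ a ≤ m, GG (primorial (zf ε x)) (zf (vs B m v a) x) ≤ 2 * D / ε) ∧
    GG (primorial (zf ε x)) (zf r x) ≤ 2 * D / ε ∧
    1 / GG (primorial (zf ε x)) (zf r x) ≤ 2 * D * ε / r := by
  obtain ⟨C, hC, hg⟩ := ggb
  refine ⟨C, hC, ?_⟩
  intro B m v r ε x hB hm hv hv1 hr hr1 hε hεv hεr hx1 hεx
  have hC0 : 0 < C := by linarith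
  have hB8 : (8 : ℝ) ≤ B := by nlinarith
  have hBpos : (0 : ℝ) < B := by linarith
  have hB1 : 1 ≤ B := by
    have : (1 : ℝ) ≤ B := by linarith
    exact_mod_cast this
  have hvp : ∀ a, 1 ≤ a → 0 < vs B m v a := by
    intro a ha
    unfold vs
    rw [if_neg (by omega)]
    positivity
  have hv1' : ∀ a, vs B m v a ≤ 1 := fun a => (vs_le hB1 hv.le a).trans hv1
  have hmono := vs_mono (B := B) (m := m) hB1 hv.le
  have hεv1 : ε ≤ vs B m v 1 := by
    refine hεv.trans ?_
    rw [div_le_iff₀ (by positivity)]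
    have := hvp 1 le_rfl
    nlinarith
  have hL0 : 0 ≤ Real.log x := Real.log_nonneg hx1
  have hL2 : 2 ≤ Real.log x := by
    have : ε * Real.log x ≤ 1 * Real.log x := mul_le_mul_of_nonneg_right (hεr.trans hr1) hL0
    linarith
  have hxx3 : 2 ≤ x := by
    have h1 := Real.log_le_sub_one_of_pos (show 0 < x by linarith)
    linarith
  have hzz : ∀ e : ℝ, ε ≤ e → e / 2 * Real.log x ≤ Real.log (zf e x) ∧
      Real.log (zf e x) ≤ e * Real.log x := by
    intro e he
    have h1 : ε * Real.log x ≤ e * Real.log x := mul_le_mul_of_nonneg_right he hL0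
    obtain ⟨h2, h3, _⟩ := zfu hx1 (hεx.trans h1)
    exact ⟨h2, h3⟩
  have hzε := hzz ε le_rfl
  have hzr := hzz r hεr
  have hza : ∀ a, 1 ≤ a → a ≤ m →
      vs B m v a / (2 * C * ε) ≤ GG (primorial (zf ε x)) (zf (vs B m v a) x) ∧
      GG (primorial (zf ε x)) (zf (vs B m v a) x) ≤ 2 * C * vs B m v a / ε := by
    intro a ha ham
    exact Wbd_key hC hg hε (hεv1.trans (hmono ha)) hxx3 hzε (hzz _ (hεv1.trans (hmono ha)))
  have hR := Wbd_key hC hg hε hεr hxx3 hzε hzr
  have h0 : GG (primorial (zf ε x)) (zf (vs B m v 0) x) = 1 := by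
    have : vs B m v 0 = 0 := by
      unfold vs
      rw [if_pos rfl]
    rw [this, zf_zero, Wbd_one]
  refine ⟨?_, ?_, ?_, ?_⟩
  · intro a ha
    rw [Finset.mem_Icc] at ha
    obtain ⟨ha1, ham⟩ := ha
    unfold wA
    rw [if_neg (by omega)]
    show vs B m v a / (4 * C * ε) ≤ GG (primorial (zf ε x)) (zf (vs B m v a) x) -
      GG (primorial (zf ε x)) (zf (vs B m v (a - 1)) x)
    obtain ⟨g1, g2⟩ := hza a ha1 ham
    have e1 : vs B m v a / (2 * C * ε) = 2 * (vs B m v a / (4 * C * ε)) := by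
      field_simp
      ring
    rcases Nat.eq_or_lt_of_le ha1 with h | h
    · subst h
      rw [show 1 - 1 = 0 from rfl, h0]
      have : 1 ≤ vs B m v 1 / (4 * C * ε) := by
        rw [le_div_iff₀ (by positivity)]
        rw [le_div_iff₀ (by positivity)] at hεv
        linarith
      linarith
    · obtain ⟨g3, g4⟩ := hza (a - 1) (by omega) (by omega)
      have e2 : vs B m v (a - 1) = vs B m v a / B := by
        unfold vs
        rw [if_neg (by omega), if_neg (by omega), div_div, ← pow_succ]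
        congr 2
        omega
      have e3 : 2 * C * vs B m v (a - 1) / ε ≤ vs B m v a / (4 * C * ε) := by
        rw [e2, div_le_div_iff₀ hε (by positivity)]
        have hva := hvp a ha1
        calc 2 * C * (vs B m v a / B) * (4 * C * ε) = (8 * C ^ 2) / B * (vs B m v a * ε) := by ring
          _ ≤ 1 * (vs B m v a * ε) := by
              apply mul_le_mul_of_nonneg_right _ (by positivity)
              rw [div_le_one hBpos]
              exact hB
          _ = vs B m v a * ε := one_mul _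
      linarith
  · intro a ham
    rcases Nat.eq_zero_or_pos a with h | h
    · subst h
      rw [h0, le_div_iff₀ hε]
      nlinarith
    · refine (hza a h ham).2.trans ?_
      have h3 : 2 * C * vs B m v a ≤ 2 * C * 1 := mul_le_mul_of_nonneg_left (hv1' a) (by positivity)
      rw [mul_one] at h3
      exact div_le_div_of_nonneg_right h3 hε.le
  · refine hR.2.trans ?_
    have h3 : 2 * C * r ≤ 2 * C * 1 := mul_le_mul_of_nonneg_left hr1 (by positivity)
    rw [mul_one] at h3
    exact div_le_div_of_nonneg_right h3 hε.le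
  · rw [one_div_le (lt_of_lt_of_le (by positivity) hR.1) (by positivity)]
    refine le_trans (le_of_eq ?_) hR.1
    rw [one_div_div]

end H82LX
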