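import Pool.Agent.H82.LX.CoU
import Pool.Agent.H82.LX.Wbu
import Pool.Agent.H82.LX.Epu
import Pool.Agent.H69.PG.CoB

/-!
# COR: the core theorem, choice of the parameters

`B = ⌈8D²⌉ + 16`, `m` with `B^(16m) ≤ log x ≤ B^(16(m+1))`, `N = B^(2m)`, `ε = 1/N²`, `v = 1/B^m`, `v_a = v/B^(m-a)`, `z = ⌊x^ε⌋`, `Z a = ⌊x^(v_a)⌋`, `R = ⌊x^r⌋`, `b0 = N²/60`, `M = 2N²`, `Γ = 2D/ε`,
`τ = B^m`, `l = 1/8`, `f0 a = cφ/v_a`.
-/

open Finset EG

namespace H82LX

open H69PG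

/-- numbers -/
theorem Cor_B {B m N : ℕ} {H : ℝ} (hB : 16 ≤ B) (hm : 8 ≤ m) (hN : N = B ^ (2 * m)) (h1 : (B : ℝ) ^ (16 * m) ≤ H)
    (h2 : H ≤ (B : ℝ) ^ (16 * (m + 1))) :
    m + 1 ≤ N ∧ (N : ℝ) ^ 8 ≤ H ∧ H ≤ (N : ℝ) ^ 9 ∧ Real.log H ≤ 32 * m * Real.log B := by
  have hB0 : (0 : ℝ) < B := by
    have : (16 : ℝ) ≤ B := by exact_mod_cast hB
    linarith
  have hNr : (N : ℝ) = (B : ℝ) ^ (2 * m) := by rw [hN]; push_cast; rfl
  have hH0 : 0 < H := lt_of_lt_of_le (by positivity) h1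
  refine ⟨?_, ?_, ?_, ?_⟩
  · have h3 : 2 * m < 2 ^ (2 * m) := Nat.lt_two_pow_self
    have h4 : 2 ^ (2 * m) ≤ B ^ (2 * m) := Nat.pow_le_pow_left (by omega) _
    omega
  · rw [hNr, ← pow_mul]
    refine le_trans (le_of_eq ?_) h1
    congr 1
    ring
  · refine h2.trans ?_
    rw [hNr, ← pow_mul]
    have hBr : (16 : ℝ) ≤ B := by exact_mod_cast hB
    exact pow_le_pow_right₀ (by linarith) (by omega)
  · have h3 : Real.log H ≤ (16 * (m + 1) : ℕ) * Real.log B := by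
      rw [← Real.log_pow]
      exact Real.log_le_log hH0 h2
    have h4 : 0 ≤ Real.log B := Real.log_natCast_nonneg B
    have h5 : ((16 * (m + 1) : ℕ) : ℝ) ≤ 32 * m := by
      have : 16 * (m + 1) ≤ 32 * m := by omega
      exact_mod_cast this
    exact h3.trans (mul_le_mul_of_nonneg_right h5 h4)

/-- the exponential sum -/
theorem Cor_S {m : ℕ} {w W f0 : ℕ → ℝ} {τ cφ : ℝ} (hτ : 0 ≤ τ) (hw : ∀ a ∈ Icc 1 m, 0 ≤ w a ∧ τ * w a ≤ 1)
    (hW : ∀ a ∈ Icc 1 m, 0 ≤ W a) (h : ∑ a ∈ Icc 1 m, f0 a ^ 2 * W a * w a = cφ) :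
    ∑ a ∈ Icc 1 m, f0 a ^ 2 * W a * (Real.exp (τ * w a) - 1) ≤ 2 * τ * cφ := by
  rw [← h, Finset.mul_sum]
  refine Finset.sum_le_sum fun a ha => ?_
  obtain ⟨h1, h2⟩ := hw a ha
  have h3 : Real.exp (τ * w a) - 1 ≤ 2 * (τ * w a) := by
    have h4 := Real.abs_exp_sub_one_le (x := τ * w a) (by rw [abs_of_nonneg (by positivity)]; exact h2)
    rw [abs_of_nonneg (a := τ * w a) (by positivity)] at h4
    exact (le_abs_self _).trans h4
  have h5 : 0 ≤ f0 a ^ 2 * W a := mul_nonneg (sq_nonneg _) (hW a ha)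
  calc f0 a ^ 2 * W a * (Real.exp (τ * w a) - 1) ≤ f0 a ^ 2 * W a * (2 * (τ * w a)) := mul_le_mul_of_nonneg_left h3 h5
    _ = _ := by ring

/-- the boundary condition -/
theorem Cor_num {G μ S τ cφ r D Nr m E lv : ℝ} (hD : 1 ≤ D) (hr : 0 < r) (hr1 : r ≤ 1) (hN : 0 < Nr) (hm : 0 < m)
    (hG0 : 0 ≤ G) (hG : G ≤ 2 * D * (1 / Nr ^ 2) / r) (hμ0 : 0 ≤ μ) (hμ : μ ≤ r * m * Nr ^ 2 / (256 * D))
    (hc0 : 0 < cφ) (hc : cφ ≤ 4 * D * (1 / Nr ^ 2) / m) (hτ : 0 ≤ τ) (hS : S ≤ 2 * τ * cφ) (hlv : 1 / 16 ≤ lv)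
    (hE : E = Real.exp (-(τ / 32))) (hmE : m * E ≤ 1) :
    G * (μ * Real.exp (μ * S - τ * lv)) ≤ 1 / 8 := by
  have hD0 : 0 < D := by linarith
  have h1 : μ * cφ ≤ 1 / 64 := by
    calc μ * cφ ≤ (r * m * Nr ^ 2 / (256 * D)) * (4 * D * (1 / Nr ^ 2) / m) := mul_le_mul hμ hc hc0.le (hμ0.trans hμ)
      _ = r / 64 := by field_simp; ring
      _ ≤ 1 / 64 := by linarith
  have h2 : μ * S ≤ τ / 32 := by
    calc μ * S ≤ μ * (2 * τ * cφ) := mul_le_mul_of_nonneg_left hS hμ0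
      _ = 2 * τ * (μ * cφ) := by ring
      _ ≤ 2 * τ * (1 / 64) := mul_le_mul_of_nonneg_left h1 (by positivity)
      _ = τ / 32 := by ring
  have h3 : Real.exp (μ * S - τ * lv) ≤ E := by
    rw [hE]
    apply Real.exp_le_exp.2
    have : τ * (1 / 16) ≤ τ * lv := mul_le_mul_of_nonneg_left hlv hτ
    linarith
  have hE0 : 0 < E := by rw [hE]; exact Real.exp_pos _
  have h4 : G * μ ≤ m / 128 := by
    calc G * μ ≤ (2 * D * (1 / Nr ^ 2) / r) * (r * m * Nr ^ 2 / (256 * D)) := mul_le_mul hG hμ hμ0 (hG0.trans hG)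
      _ = m / 128 := by field_simp; ring
  calc G * (μ * Real.exp (μ * S - τ * lv)) = (G * μ) * Real.exp (μ * S - τ * lv) := by ring
    _ ≤ (m / 128) * E := mul_le_mul h4 h3 (Real.exp_pos _).le (by positivity)
    _ = (m * E) / 128 := by ring
    _ ≤ 1 / 8 := by linarith

theorem core (A : ℕ) (hA : 1 ≤ A) {r : ℝ} (hr : 0 < r) (hr1 : r ≤ 1 / 16) : ∃ c0 : ℝ, 0 < c0 ∧ ∃ x0 : ℝ, 1 ≤ x0 ∧ ∀ x : ℝ, x0 ≤ x →
    ∀ (ι : Type) [Fintype ι] [DecidableEq ι] (K Q0 T : ℕ) (cc : ι → ℕ),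
      Real.log x ≤ K → (K : ℝ) ≤ Real.log x ^ A → Fm K Q0 cc → (Fintype.card ι : ℝ) ≤ c0 * Real.log x →
      x ^ (7 / 10 : ℝ) ≤ T →
      ∃ t < T, ∀ i, ∃ p : ℕ, p.Prime ∧ (p : ℝ) ≤ x ^ r ∧ p ∣ Q0 * t + cc i := by
  obtain ⟨D, hD, hwbu⟩ := wbu
  obtain ⟨C, hco⟩ := coU
  obtain ⟨C2, hC2, hvv1⟩ := vv1
  obtain ⟨C3, hC3, hvvl⟩ := vv_low
  obtain ⟨N1, hepu⟩ := epu hD hC3
  obtain ⟨m1, hnum2⟩ := num2
  have hD0 : 0 < D := by linarith
  have hC20 : 0 < C2 := by linarith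
  obtain ⟨B, hB16, hB8⟩ : ∃ B : ℕ, 16 ≤ B ∧ 8 * D ^ 2 ≤ (B : ℝ) := by
    refine ⟨⌈8 * D ^ 2⌉₊ + 16, by omega, ?_⟩
    push_cast
    linarith [Nat.le_ceil (8 * D ^ 2)]
  have hBr : (16 : ℝ) ≤ B := by exact_mod_cast hB16
  have hB0 : (0 : ℝ) < B := by linarith
  have hlB : 0 < Real.log B := Real.log_pos (by linarith)
  have hAr : (1 : ℝ) ≤ A := by exact_mod_cast hA
  obtain ⟨rr, hrr⟩ : ∃ n : ℕ, 2 / r ≤ (n : ℝ) := ⟨⌈2 / r⌉₊, Nat.le_ceil _⟩
  obtain ⟨H0, hH0⟩ := mch B (N1 + m1 + 8 + 240 * C + 18 * A + rr + ⌈4 * D⌉₊) (by omega)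
  refine ⟨r / (256 * D) / (64 * A * C2 * Real.log B), by positivity, Real.exp (max H0 1), ?_, ?_⟩
  · exact Real.one_le_exp (by positivity)
  intro x hx ι _ _ K Q0 T cc hK1 hK2 hFm hcard hT
  have hx0 : 0 < x := (Real.exp_pos _).trans_le hx
  have hH : max H0 1 ≤ Real.log x := (Real.le_log_iff_exp_le hx0).2 hx
  obtain ⟨m, hm, hB1, hB2⟩ := hH0 (Real.log x) ((le_max_left _ _).trans hH)
  have hHpos : 1 ≤ Real.log x := (le_max_right _ _).trans hH
  have hx1 : 1 ≤ x := by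
    rw [← Real.log_nonneg_iff hx0]
    linarith
  have hceil := Nat.le_ceil (4 * D)
  set H := Real.log x with hHdef
  obtain ⟨N, hN⟩ : ∃ N : ℕ, N = B ^ (2 * m) := ⟨_, rfl⟩
  obtain ⟨hmN, hN8, hN9, hlH⟩ := Cor_B hB16 (by omega) hN hB1 hB2
  have hNbig : N1 + m1 + 8 + 240 * C + 18 * A + rr + ⌈4 * D⌉₊ ≤ N := by omega
  have hN2 : 8 ≤ N := by omega
  have hNr : (8 : ℝ) ≤ N := by exact_mod_cast hN2
  have hN0 : (0 : ℝ) < N := by linarith
  have hm1 : 1 ≤ m := by omega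
  have hmr : (0 : ℝ) < m := by exact_mod_cast hm1
  obtain ⟨ε, hε⟩ : ∃ ε : ℝ, ε = 1 / (N : ℝ) ^ 2 := ⟨_, rfl⟩
  have hε0 : 0 < ε := by rw [hε]; positivity
  have hBm : (0 : ℝ) < (B : ℝ) ^ m := by positivity
  obtain ⟨v, hv⟩ : ∃ v : ℝ, v = 1 / (B : ℝ) ^ m := ⟨_, rfl⟩
  have hv0 : 0 < v := by rw [hv]; positivity
  have hBm16 : (B : ℝ) ≤ (B : ℝ) ^ m := by
    calc (B : ℝ) = (B : ℝ) ^ 1 := (pow_one _).symm
      _ ≤ (B : ℝ) ^ m := pow_le_pow_right₀ (by linarith) hm1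
  have hv16 : v ≤ 1 / 16 := by
    rw [hv]
    exact one_div_le_one_div_of_le (by norm_num) (by linarith)
  -- powers of N
  have hεH : (N : ℝ) ^ 6 ≤ ε * H := by
    rw [hε, one_div, inv_mul_eq_div, le_div_iff₀ (by positivity)]
    refine le_trans (le_of_eq ?_) hN8
    ring
  have hN6 : (2 : ℝ) ≤ (N : ℝ) ^ 6 := by
    calc (2 : ℝ) ≤ 8 ^ 6 := by norm_num
      _ ≤ (N : ℝ) ^ 6 := pow_le_pow_left₀ (by norm_num) hNr 6
  have h2ε : 2 ≤ ε * Real.log x := hN6.trans hεH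
  have hvr : v ≤ r := by
    -- 1/B^m ≤ r since B^m ≥ m ≥ 2/r
    have h1 : (m : ℝ) ≤ (B : ℝ) ^ m := by
      have h2 : m < 2 ^ m := Nat.lt_two_pow_self
      have h3 : 2 ^ m ≤ B ^ m := Nat.pow_le_pow_left (by omega) _
      have h4 : m ≤ B ^ m := by omega
      exact_mod_cast h4
    have h5 : 2 / r ≤ (m : ℝ) := by
      refine hrr.trans ?_
      have : rr ≤ m := by omega
      exact_mod_cast this
    have h6 : 1 / r ≤ (B : ℝ) ^ m := by
      have : 1 / r ≤ 2 / r := div_le_div_of_nonneg_right (by norm_num) hr.le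
      linarith
    rw [hv, one_div_le hBm hr]
    exact h6
  have hεv : ε ≤ v := by
    rw [hε, hv]
    apply one_div_le_one_div_of_le hBm
    rw [hN]
    push_cast
    rw [← pow_mul]
    exact pow_le_pow_right₀ (by linarith) (by omega)
  set w : ℕ → ℝ := vs B m v with hw
  have hB1' : 1 ≤ B := by omega
  have hw1 : 0 < w 1 := CoB_vs_pos hB1' hv0 le_rfl
  have hwm : Monotone w := vs_mono hB1' hv0.le
  have hw0 : ∀ a, 0 ≤ w a := vs_nonneg hv0.le
  have hwv : ∀ a, w a ≤ v := vs_le hB1' hv0.le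
  have hwz : w 0 = 0 := by simp [hw, vs]
  have hw1N : 1 / (N : ℝ) ≤ w 1 := by
    have e1 : w 1 = v / (B : ℝ) ^ (m - 1) := by simp [hw, vs]
    rw [e1, hv, hN, div_div]
    push_cast
    apply one_div_le_one_div_of_le (by positivity)
    rw [← pow_add]
    exact pow_le_pow_right₀ (by linarith) (by omega)
  have hεw : ε ≤ w 1 / (4 * D) := by
    rw [le_div_iff₀ (by positivity)]
    refine le_trans ?_ hw1N
    rw [hε, one_div_mul_eq_div, div_le_div_iff₀ (by positivity) hN0]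
    have h1 : 4 * D ≤ N := by
      refine hceil.trans ?_
      have : ⌈4 * D⌉₊ ≤ N := by omega
      exact_mod_cast this
    calc 4 * D * (N : ℝ) ≤ N * N := mul_le_mul_of_nonneg_right h1 hN0.le
      _ = 1 * (N : ℝ) ^ 2 := by ring
  obtain ⟨w1, w2, w3, w4⟩ := hwbu B m v r ε x hB8 hm1 hv0 (by linarith) hr (by linarith) hε0 hεw (hεv.trans hvr) hx1 h2ε
  obtain ⟨z1, z2, z3, z4⟩ := zfu hx1 h2ε
  obtain ⟨r1, r2, r3, r4⟩ := zfu (ε := r) hx1 (h2ε.trans (mul_le_mul_of_nonneg_right (hεv.trans hvr) (by linarith)))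
  set z := zf ε x with hz
  set R := zf r x with hR
  set Z : ℕ → ℕ := fun a => zf (w a) x with hZ
  have hzK : K ≤ z := by
    have h1 : (K : ℝ) ≤ z := by
      refine hK2.trans (le_trans ?_ z3)
      rw [← Real.log_le_iff_le_exp (by positivity), Real.log_pow]
      have h2 : Real.log H ≤ 9 * N := by
        have h3 : Real.log H ≤ Real.log ((N : ℝ) ^ 9) := Real.log_le_log (by linarith) hN9
        rw [Real.log_pow] at h3
        have h4 : Real.log N ≤ N := (Real.log_le_sub_one_of_pos hN0).trans (by linarith)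
        push_cast at h3
        linarith
      have h5 : (A : ℝ) * Real.log H ≤ A * (9 * N) := mul_le_mul_of_nonneg_left h2 (by linarith)
      have h6 : ε / 2 * Real.log x = ε * H / 2 := by ring
      rw [h6]
      have h7 : 18 * (A : ℝ) ≤ N := by
        have : 18 * A ≤ N := by omega
        exact_mod_cast this
      have h8 : (N : ℝ) * N ≤ (N : ℝ) ^ 6 := by
        rw [← pow_two]
        exact pow_le_pow_right₀ (by linarith) (by norm_num)
      have h9 := mul_le_mul_of_nonneg_right h7 hN0.le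
      have h10 : (A : ℝ) * Real.log H ≤ ε * H / 2 := by
        calc (A : ℝ) * Real.log H ≤ A * (9 * N) := h5
          _ = 18 * (A : ℝ) * N / 2 := by ring
          _ ≤ ε * H / 2 := by linarith
      exact h10
    exact_mod_cast h1
  have hKN : 8 * N + 8 ≤ K := by
    have h1 : ((8 * N + 8 : ℕ) : ℝ) ≤ K := by
      refine le_trans ?_ hK1
      refine le_trans ?_ hN8
      push_cast
      have h2 : (N : ℝ) ^ 2 * (N : ℝ) ^ 6 = (N : ℝ) ^ 8 := by ring
      rw [← h2]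
      have h30 : (N : ℝ) * 8 ≤ N * N := mul_le_mul_of_nonneg_left hNr hN0.le
      have h3 : 8 * (N : ℝ) + 8 ≤ (N : ℝ) ^ 2 * 2 := by
        calc 8 * (N : ℝ) + 8 ≤ 2 * (N * N) := by linarith
          _ = (N : ℝ) ^ 2 * 2 := by ring
      exact h3.trans (mul_le_mul_of_nonneg_left hN6 (by positivity))
    exact_mod_cast h1
  have hVV1 : 0 < VV K z 1 := vv_pos (by omega)
  set μ : ℝ := (Fintype.card ι : ℝ) * VV K z 1 with hμ
  have hμ0 : 0 ≤ μ := by positivity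
  have hμU : μ ≤ r * m * (N : ℝ) ^ 2 / (256 * D) := by
    have h1 := hvv1 K z (by omega) hzK
    have h2 : Real.log K ≤ A * (32 * m * Real.log B) := by
      have h3 : Real.log K ≤ Real.log (H ^ A) := by
        refine Real.log_le_log ?_ hK2
        have : 0 < K := by omega
        exact_mod_cast this
      rw [Real.log_pow] at h3
      exact h3.trans (mul_le_mul_of_nonneg_left hlH (by linarith))
    have hlz : 0 < Real.log z := lt_of_lt_of_le (by positivity) z1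
    have h4 : VV K z 1 ≤ C2 * (A * (32 * m * Real.log B)) / (ε / 2 * Real.log x) := by
      refine h1.trans ?_
      apply div_le_div₀ (by positivity) (mul_le_mul_of_nonneg_left h2 hC20.le) (by positivity) z1
    rw [hμ]
    calc (Fintype.card ι : ℝ) * VV K z 1 ≤ (r / (256 * D) / (64 * A * C2 * Real.log B) * H) *
          (C2 * (A * (32 * m * Real.log B)) / (ε / 2 * Real.log x)) := mul_le_mul hcard h4 hVV1.le (by positivity)
      _ = r * m * (N : ℝ) ^ 2 / (256 * D) := by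
          rw [hε, ← hHdef]
          field_simp
          ring
  have hμN : μ ≤ m * (N : ℝ) ^ 2 := by
    refine hμU.trans ?_
    rw [div_le_iff₀ (by positivity)]
    have h1 : 0 ≤ (m : ℝ) * (N : ℝ) ^ 2 := by positivity
    calc r * m * (N : ℝ) ^ 2 = (m : ℝ) * (N : ℝ) ^ 2 * r := by ring
      _ ≤ _ := mul_le_mul_of_nonneg_left (by linarith) h1
  -- the coefficients
  obtain ⟨cφ, hc0, hcE, hs1, -, hs3⟩ := CoB_f0 (m := m) hm1 (w := w) (W := wA Z (primorial z)) (v1 := w 1) (E := 4 * D * ε)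
    hw1 (fun a ha => hwm (Finset.mem_Icc.1 ha).1) (by positivity) (fun a ha => w1 a ha)
  set f0 : ℕ → ℝ := fun a => if a = 0 then 0 else cφ / w a with hf0
  have hf0' : ∀ a ∈ Icc 1 m, f0 a = cφ / w a := by
    intro a ha
    have := (Finset.mem_Icc.1 ha).1
    simp only [hf0]
    rw [if_neg (by omega)]
  have hf0n : ∀ a, 0 ≤ f0 a := by
    intro a
    simp only [hf0]
    split_ifs
    · exact le_rfl
    · exact div_nonneg hc0.le (hw0 a)
  have hf0le : ∀ a, |f0 a| ≤ 1 := by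
    intro a
    rw [abs_of_nonneg (hf0n a)]
    simp only [hf0]
    split_ifs with ha
    · norm_num
    · have hwa : w 1 ≤ w a := hwm (by omega)
      have hwa0 : 0 < w a := lt_of_lt_of_le hw1 hwa
      rw [div_le_one hwa0]
      refine le_trans ?_ hwa
      refine hcE.trans ?_
      rw [div_le_iff₀ hmr]
      have h1 : ε * (4 * D) ≤ w 1 := by rwa [le_div_iff₀ (by positivity)] at hεw
      have h2 : (1 : ℝ) ≤ m := by exact_mod_cast hm1
      calc 4 * D * ε = ε * (4 * D) := by ring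
        _ ≤ w 1 := h1
        _ ≤ w 1 * m := le_mul_of_one_le_right hw1.le h2
  have hsum1 : ∑ a ∈ Icc 1 m, f0 a * wA Z (primorial z) a = 1 := by
    rw [← hs1]
    exact Finset.sum_congr rfl fun a ha => by rw [hf0' a ha]
  have hsum3 : ∑ a ∈ Icc 1 m, f0 a ^ 2 * wA Z (primorial z) a * w a = cφ := by
    refine Eq.trans ?_ hs3
    exact Finset.sum_congr rfl fun a ha => by rw [hf0' a ha]
  have hxz : x ≤ (z : ℝ) ^ (2 * N ^ 2) := by
    calc x = Real.exp (ε / 2 * Real.log x) ^ (2 * N ^ 2) := by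
          rw [← Real.exp_nat_mul, hε]
          push_cast
          have e1 : 2 * (N : ℝ) ^ 2 * (1 / (N : ℝ) ^ 2 / 2 * Real.log x) = Real.log x := by
            field_simp
          rw [e1, Real.exp_log hx0]
      _ ≤ (z : ℝ) ^ (2 * N ^ 2) := pow_le_pow_left₀ (Real.exp_pos _).le z3 _
  have hzfM : ∀ e : ℝ, e ≤ 1 → zf e x ≤ z ^ (2 * N ^ 2) := by
    intro e he
    have h1 : (zf e x : ℝ) ≤ x := by
      refine (zf_le hx0.le).trans ?_
      calc x ^ e ≤ x ^ (1 : ℝ) := Real.rpow_le_rpow_of_exponent_le hx1 he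
        _ = x := Real.rpow_one x
    have h2 : (zf e x : ℝ) ≤ ((z ^ (2 * N ^ 2) : ℕ) : ℝ) := by
      push_cast
      exact h1.trans hxz
    exact_mod_cast h2
  have hw1' : ∀ a, w a ≤ 1 := fun a => (hwv a).trans (by linarith)
  have hΓ1 : 1 ≤ 2 * D / ε := by
    rw [le_div_iff₀ hε0]
    have : ε ≤ 1 := hεv.trans (by linarith)
    linarith
  have hT1 : 1 ≤ T := by
    have h1 : (1 : ℝ) ≤ T := (Real.one_le_rpow hx1 (by norm_num)).trans hT
    exact_mod_cast h1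
  have hV := hvvl K z (2 * N + 1) (by omega) (by omega) hzK
  have hsys : SysU C N m (2 * N ^ 2) K z Q0 T R (N ^ 2 / 60) Z w f0 (1 / 8) (2 * D / ε) (x ^ (1 / 8 : ℝ))
      ((Real.exp (-((N ^ 2 / 60 : ℕ) : ℝ)) + 9 * (2 * (N : ℝ) + 1) ^ 2 / z) * (4 * (2 * D / ε) ^ 5) ^ (2 * N + 1) +
        (z : ℝ) ^ (3 * (4 * (N ^ 2 / 60) + 10)) * (4 * (2 * D / ε) ^ 2) ^ (2 * N + 1) *
        ((x ^ (1 / 8 : ℝ)) ^ 2 * (R : ℝ) ^ 2) / (T * VV K z (2 * N + 1))) cc := by
    refine ⟨hFm, by omega, hKN, hzK, ?_, ?_, ?_, ?_, ?_, by omega, ?_, hT1, hΓ1, ?_, w3, hf0le, ?_, ?_, le_rfl⟩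
    · rw [Nat.le_div_iff_mul_le (by norm_num)]
      have h1 : 240 * C ≤ N := by omega
      calc C * (2 * N + 2) * 60 ≤ C * (4 * N) * 60 :=
            Nat.mul_le_mul_right 60 (Nat.mul_le_mul_left C (by omega))
        _ = 240 * C * N := by ring
        _ ≤ N * N := Nat.mul_le_mul_right N h1
        _ = N ^ 2 := by ring
    · simp only [hZ, hwz]
      exact zf_zero x
    · intro a b hab
      exact zf_mono hx1 (hwm hab)
    · intro a _
      exact hzfM _ (hw1' a)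
    · exact hzfM _ (by linarith)
    · have h1 : ((2 * (2 * N ^ 2) : ℕ) : ℝ) ≤ z := by
        refine le_trans ?_ z3
        have h2 := Real.add_one_le_exp (ε / 2 * Real.log x)
        refine le_trans ?_ h2
        have h3 : ε / 2 * Real.log x = ε * H / 2 := by ring
        rw [h3]
        push_cast
        have h4 : (N : ℝ) ^ 2 * (N : ℝ) ^ 4 = (N : ℝ) ^ 6 := by ring
        have h5 : (8 : ℝ) ≤ (N : ℝ) ^ 4 := by
          calc (8 : ℝ) ≤ 8 ^ 4 := by norm_num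
            _ ≤ (N : ℝ) ^ 4 := pow_le_pow_left₀ (by norm_num) hNr 4
        have h6 : 8 * (N : ℝ) ^ 2 ≤ (N : ℝ) ^ 6 := by
          rw [← h4, mul_comm]
          exact mul_le_mul_of_nonneg_left h5 (by positivity)
        linarith
      exact_mod_cast h1
    · intro a ha
      exact w2 a ha
    · exact Real.one_le_rpow hx1 (by norm_num)
    · intro n hn
      unfold Cf at hn
      rw [Finset.mem_filter] at hn
      calc ∏ i, (Z (n i) : ℝ) ≤ ∏ i, x ^ (w (n i)) := by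
            refine Finset.prod_le_prod (fun i _ => Nat.cast_nonneg _) fun i _ => zf_le hx0.le
        _ = x ^ (∑ i, w (n i)) := (Real.rpow_sum_of_pos hx0 _ _).symm
        _ ≤ x ^ (1 / 8 : ℝ) := Real.rpow_le_rpow_of_exponent_le hx1 hn.2.2
  have hη := hepu N (by omega) m z R T x μ (VV K z (2 * N + 1)) hx1 hN8 hN9 hmN hμ0 hμN
    (by rw [← hε]; exact zf_le hx0.le) (by rw [← hε]; exact z3)
    ((zf_le hx0.le).trans (Real.rpow_le_rpow_of_exponent_le hx1 hr1)) hT hV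
  rw [← hε] at hη
  have hzR : z ≤ R := zf_mono hx1 (hεv.trans hvr)
  have hZR : ∀ a ≤ m, Z a ≤ R := fun a _ => zf_mono hx1 ((hwv a).trans hvr)
  obtain ⟨t, ht, hti⟩ := hco ι C N m (2 * N ^ 2) K z Q0 T R (N ^ 2 / 60) R Z w f0 (1 / 8) v ((B : ℝ) ^ m) (2 * D / ε)
    (x ^ (1 / 8 : ℝ)) _ cc le_rfl hsys hw0 hwz (fun a _ => hwv a) (by
      intro a ha
      have h1 : w 1 ≤ w a := hwm (Finset.mem_Icc.1 ha).1
      have h2 : (N : ℝ) * (1 / N) ≤ N * w a := mul_le_mul_of_nonneg_left (hw1N.trans h1) hN0.le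
      have h3 : (N : ℝ) * (1 / N) = 1 := by field_simp
      linarith) (by norm_num) hBm.le hf0n hsum1 le_rfl hzR hZR hη (by
      refine Cor_num (D := D) (r := r) (Nr := N) (m := m) (cφ := cφ) hD hr (by linarith) hN0 hmr ?_ ?_ hμ0 hμU hc0 ?_ hBm.le
        (Cor_S hBm.le ?_ ?_ hsum3) (by linarith) rfl (hnum2 m B (by omega) (by omega))
      · have hGG : 1 ≤ GG (primorial z) R := gg_ge_one _ (by omega)
        exact div_nonneg (by norm_num) (by linarith)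
      · rw [← hε]
        exact w4
      · rw [← hε]
        exact hcE
      · intro a ha
        refine ⟨hw0 a, ?_⟩
        calc (B : ℝ) ^ m * w a ≤ (B : ℝ) ^ m * v := mul_le_mul_of_nonneg_left (hwv a) hBm.le
          _ = 1 := by rw [hv]; field_simp
      · intro a _
        exact wA_nonneg _ (fun a b hab => zf_mono hx1 (hwm hab)) a)
  refine ⟨t, ht, fun i => ?_⟩
  obtain ⟨p, hp, hpR, hpd⟩ := hti i
  refine ⟨p, hp, ?_, hpd⟩
  calc (p : ℝ) ≤ R := by exact_mod_cast hpR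
    _ ≤ x ^ r := zf_le hx0.le

end H82LX
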