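import Pool.Agent.H82.LX.Cor
import Pool.Agent.H7.LX.Defs

/-!
# AMP: the amplitude theorem in the form used for prime gaps
-/

open Finset EG

namespace H82LX

open H69PG

theorem Amp_prim {x : ℝ} (hx : 1 ≤ x) {z : ℕ} (hz : 100 * (z : ℝ) ≤ Real.log x) :
    (primorial z : ℝ) ≤ x ^ (1 / 50 : ℝ) := by
  have hx0 : 0 < x := by linarith
  have h1 : (primorial z : ℝ) ≤ (4 : ℝ) ^ z := by
    exact_mod_cast primorial_le_four_pow _
  have h2 : ((4 : ℝ) ^ z) = Real.exp (Real.log 4 * (z : ℕ)) := by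
    rw [← Real.rpow_natCast, Real.rpow_def_of_pos (by norm_num)]
  have h4 : Real.log 4 ≤ 2 := by
    have h5 : (4 : ℝ) = 2 ^ (2 : ℕ) := by norm_num
    rw [h5, Real.log_pow]
    have := Real.log_two_lt_d9
    push_cast
    linarith
  refine h1.trans ?_
  rw [h2, Real.rpow_def_of_pos hx0]
  refine Real.exp_le_exp.2 ?_
  calc Real.log 4 * (z : ℕ) ≤ 2 * z := mul_le_mul_of_nonneg_right h4 (Nat.cast_nonneg _)
    _ ≤ Real.log x * (1 / 50) := by linarith

theorem amp : Pool.Agent.H7.LX.AMP := by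
  obtain ⟨c, hc, x0, hx0, hcore⟩ := core 3 (by norm_num) (r := 1 / 16) (by norm_num) le_rfl
  refine ⟨c, hc, max x0 (Real.exp 3), ?_⟩
  intro x hx z c0 S hz hS hcard
  have hx1 : x0 ≤ x := (le_max_left _ _).trans hx
  have hx3 : Real.exp 3 ≤ x := (le_max_right _ _).trans hx
  have hxpos : 0 < x := (Real.exp_pos _).trans_le hx3
  have hL3 : 3 ≤ Real.log x := (Real.le_log_iff_exp_le hxpos).2 hx3
  have hx1' : 1 ≤ x := hx0.trans hx1
  have hQ := Amp_prim hx1' hz
  have hQ0 : (0 : ℝ) < primorial z := by exact_mod_cast primorial_pos z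
  obtain ⟨K, hK⟩ : ∃ K : ℕ, K = ⌈Real.log x ^ 2⌉₊ := ⟨_, rfl⟩
  have hKge : Real.log x ^ 2 ≤ K := by rw [hK]; exact Nat.le_ceil _
  have hKle : (K : ℝ) ≤ Real.log x ^ 2 + 1 := by
    rw [hK]
    exact (Nat.ceil_lt_add_one (by positivity)).le
  have hT : x ^ (7 / 10 : ℝ) ≤ ((⌊x / (primorial z : ℝ)⌋₊ + 1 : ℕ) : ℝ) := by
    have h1 : x / (primorial z : ℝ) ≤ ((⌊x / (primorial z : ℝ)⌋₊ + 1 : ℕ) : ℝ) := by
      push_cast
      exact (Nat.lt_floor_add_one _).le
    refine le_trans ?_ h1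
    rw [le_div_iff₀ hQ0]
    calc x ^ (7 / 10 : ℝ) * (primorial z : ℝ) ≤ x ^ (7 / 10 : ℝ) * x ^ (1 / 50 : ℝ) :=
          mul_le_mul_of_nonneg_left hQ (Real.rpow_nonneg hxpos.le _)
      _ = x ^ (7 / 10 + 1 / 50 : ℝ) := (Real.rpow_add hxpos _ _).symm
      _ ≤ x ^ (1 : ℝ) := Real.rpow_le_rpow_of_exponent_le hx1' (by norm_num)
      _ = x := Real.rpow_one x
  have hFm : Fm K (primorial z) (fun i : {k // k ∈ S} => c0 + (i : ℕ)) := by
    refine ⟨primorial_pos z, ?_, ?_, ?_, ?_⟩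
    · intro p hp hpd
      have h1 : p ≤ z := (hp.dvd_primorial_iff).1 hpd
      have h2 : (p : ℝ) ≤ K := by
        refine le_trans ?_ hKge
        have h3 : (p : ℝ) ≤ z := by exact_mod_cast h1
        nlinarith
      exact_mod_cast h2
    · intro i j hij
      have : (i : ℕ) = j := by
        have h := hij
        simp only at h
        omega
      exact Subtype.ext this
    · intro i j
      have hi := hS i i.2
      have hj := hS j j.2
      have h1 : ((i : ℕ) : ℝ) ≤ K := hi.2.1.trans hKge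
      have h2 : ((j : ℕ) : ℝ) ≤ K := hj.2.1.trans hKge
      have h1' : (i : ℕ) ≤ K := by exact_mod_cast h1
      have h2' : (j : ℕ) ≤ K := by exact_mod_cast h2
      rw [abs_le]
      push_cast
      constructor <;> omega
    · intro i
      have hi := (hS i i.2).1
      show 1 ≤ c0 + (i : ℕ)
      omega
  obtain ⟨t, ht, hti⟩ := hcore x hx1 {k // k ∈ S} K (primorial z) (⌊x / (primorial z : ℝ)⌋₊ + 1)
    (fun i : {k // k ∈ S} => c0 + (i : ℕ)) (by nlinarith) (by nlinarith [mul_nonneg (by linarith : (0:ℝ) ≤ Real.log x - 3) (sq_nonneg (Real.log x))])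
    hFm (by rw [Fintype.card_coe]; exact hcard) hT
  refine ⟨t, ?_, ?_⟩
  · have h1 : t ≤ ⌊x / (primorial z : ℝ)⌋₊ := by omega
    have h2 : (t : ℝ) ≤ x / (primorial z : ℝ) := (Nat.le_floor_iff (by positivity)).1 h1
    rwa [le_div_iff₀ hQ0] at h2
  · intro k hk
    obtain ⟨p, hp, hpx, hpd⟩ := hti ⟨k, hk⟩
    refine ⟨p, hp, hpx, ?_⟩
    rw [add_assoc]
    exact hpd

end H82LX
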