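import Pool.Agent.H69.PG.Prs
import Pool.Agent.H69.PG.Bdy
import Pool.Agent.H69.PG.Rgh

/-!
# UP2: the weighted number of rough values from above, without estimating the boundary terms

This is `upr` (`Pool/Agent/H69/PG/Upr.lean`) before `bdy` is applied: copy its proof and omit the line with `hb` (the hypotheses `hN : 1 ≤ N`, `hvm`, `hl` are not needed).
-/

open Finset

namespace H82LX

open H69PG

variable {ι : Type} [Fintype ι] [DecidableEq ι]

open Classical in
theorem up2 {m N : ℕ} {v : ℕ → ℝ} {l : ℝ} {V : Finset ι → ℝ} {μ : ℝ} (h : Vh V μ (2 * N + 1)) {s q : ℕ → ℝ}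
    (hv : ∀ a, 0 ≤ v a) (hv0 : v 0 = 0)
    (hq : ∀ a, 0 ≤ q a) (hq1 : ∑ a ∈ Icc 1 m, q a = 1)
    {T : Finset ℕ} {g : ι → ℕ → ℕ → ℝ} {β : ι → ℕ → ℝ} {ρ : ι → ℕ → Prop} {η G : ℝ} (hη : 0 ≤ η)
    (hg0 : ∀ i t, g i 0 t = 1) (hβ : ∀ i t, 0 ≤ β i t)
    (hρ : ∀ i, ∀ t ∈ T, ρ i t → 1 ≤ β i t ∧ ∀ a ∈ Icc 1 m, g i a t = - q a)
    (h2 : ∀ k : ι, ∀ n ∈ Cf ι m N v l, ∀ n' ∈ Cf ι m N v l, n k = 0 → n' k = 0 →
      |∑ t ∈ T, (∏ i, (g i (n i) t * g i (n' i) t)) * β k t -
          (T.card : ℝ) * (if n = n' then G * (V (insert k (sp n)) * ∏ i, s (n i)) else 0)| ≤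
        (T.card : ℝ) * (η * V (insert k (sp n ∪ sp n')))) :
    ∑ k : ι, ∑ t ∈ T.filter (fun t => ρ k t), Ps m N v l g t ^ 2 ≤
      (T.card : ℝ) * (G * (∑ k : ι, ∑ n ∈ (Cf ι m N v l).filter (fun n => n k = 0),
          om N v l q n ^ 2 * (V (insert k (sp n)) * ∏ i, s (n i))) +
        η * ((2 * (N : ℝ) + 1) * (1 + ((m : ℝ) + 1) ^ 2 * μ) ^ (2 * N + 1))) := by
  have hp := pairs2 (m := m) (v := v) (l := l) h
  have hT : (0 : ℝ) ≤ T.card := Nat.cast_nonneg _
  have key : ∀ k : ι, ∑ t ∈ T.filter (fun t => ρ k t), Ps m N v l g t ^ 2 ≤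
      (T.card : ℝ) * (G * (∑ n ∈ (Cf ι m N v l).filter (fun n => n k = 0),
        om N v l q n ^ 2 * (V (insert k (sp n)) * ∏ i, s (n i)))) +
      (T.card : ℝ) * (η * (∑ n ∈ (Cf ι m N v l).filter (fun n => n k = 0),
        ∑ n' ∈ (Cf ι m N v l).filter (fun n => n k = 0), V (insert k (sp n ∪ sp n')))) := by
    intro k
    set F := (Cf ι m N v l).filter (fun n => n k = 0) with hF
    set R : ℕ → ℝ := fun t => ∑ n ∈ F, om N v l q n * ∏ i, g i (n i) t with hR
    have s1 : ∑ t ∈ T.filter (fun t => ρ k t), Ps m N v l g t ^ 2 ≤ ∑ t ∈ T, R t ^ 2 * β k t := by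
      calc ∑ t ∈ T.filter (fun t => ρ k t), Ps m N v l g t ^ 2
          ≤ ∑ t ∈ T.filter (fun t => ρ k t), R t ^ 2 * β k t := by
            apply Finset.sum_le_sum
            intro t ht
            rw [Finset.mem_filter] at ht
            obtain ⟨h1, h3⟩ := hρ k t ht.1 ht.2
            have : Ps m N v l g t = R t := rgh hv hv0 (fun i => hg0 i t) h3
            rw [this]
            nlinarith [sq_nonneg (R t)]
        _ ≤ ∑ t ∈ T, R t ^ 2 * β k t := by
            apply Finset.sum_le_sum_of_subset_of_nonneg (Finset.filter_subset _ _)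
            intro t _ _
            exact mul_nonneg (sq_nonneg _) (hβ k t)
    have s2 : ∑ t ∈ T, R t ^ 2 * β k t = ∑ n ∈ F, ∑ n' ∈ F, om N v l q n * om N v l q n' *
        ∑ t ∈ T, (∏ i, (g i (n i) t * g i (n' i) t)) * β k t := by
      have e1 : ∀ t, R t ^ 2 * β k t = ∑ n ∈ F, ∑ n' ∈ F, om N v l q n * om N v l q n' *
          ((∏ i, (g i (n i) t * g i (n' i) t)) * β k t) := by
        intro t
        rw [hR, sq, Finset.sum_mul_sum, Finset.sum_mul]
        apply Finset.sum_congr rfl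
        intro n _
        rw [Finset.sum_mul]
        apply Finset.sum_congr rfl
        intro n' _
        rw [Finset.prod_mul_distrib]
        ring
      simp only [e1]
      rw [Finset.sum_comm]
      apply Finset.sum_congr rfl
      intro n _
      rw [Finset.sum_comm]
      apply Finset.sum_congr rfl
      intro n' _
      rw [Finset.mul_sum]
    have s3 : ∀ n ∈ F, ∀ n' ∈ F, om N v l q n * om N v l q n' *
        ∑ t ∈ T, (∏ i, (g i (n i) t * g i (n' i) t)) * β k t ≤
        (if n = n' then (T.card : ℝ) * (G * (om N v l q n ^ 2 * (V (insert k (sp n)) * ∏ i, s (n i)))) else 0) +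
        (T.card : ℝ) * (η * V (insert k (sp n ∪ sp n'))) := by
      intro n hn n' hn'
      rw [hF, Finset.mem_filter] at hn hn'
      have h3 := (abs_le.mp (h2 k n hn.1 n' hn'.1 hn.2 hn'.2)).2
      have o1 := om_nonneg (N := N) (v := v) (l := l) hq hq1 n
      have o2 := om_nonneg (N := N) (v := v) (l := l) hq hq1 n'
      have o3 := om_le_one (N := N) (v := v) (l := l) hq n
      have o4 := om_le_one (N := N) (v := v) (l := l) hq n'
      have o5 : 0 ≤ om N v l q n * om N v l q n' := mul_nonneg o1 o2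
      have o6 : om N v l q n * om N v l q n' ≤ 1 := mul_le_one₀ o3 o2 o4
      have hE : 0 ≤ (T.card : ℝ) * (η * V (insert k (sp n ∪ sp n'))) :=
        mul_nonneg hT (mul_nonneg hη (h.nonneg _))
      have h4 := mul_le_mul_of_nonneg_left (sub_le_iff_le_add.mp h3) o5
      refine h4.trans ?_
      rw [mul_add]
      have h5 : om N v l q n * om N v l q n' * ((T.card : ℝ) * (η * V (insert k (sp n ∪ sp n')))) ≤
          (T.card : ℝ) * (η * V (insert k (sp n ∪ sp n'))) := by
        nlinarith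
      by_cases hnn : n = n'
      · subst hnn
        rw [if_pos rfl, if_pos rfl]
        have : om N v l q n * om N v l q n * ((T.card : ℝ) * (G * (V (insert k (sp n)) * ∏ i, s (n i)))) =
            (T.card : ℝ) * (G * (om N v l q n ^ 2 * (V (insert k (sp n)) * ∏ i, s (n i)))) := by ring
        linarith
      · rw [if_neg hnn, if_neg hnn]
        linarith
    refine s1.trans ?_
    rw [s2]
    refine (Finset.sum_le_sum (fun n hn => Finset.sum_le_sum (fun n' hn' => s3 n hn n' hn'))).trans ?_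
    have s4 : ∑ n ∈ F, ∑ n' ∈ F, ((if n = n' then (T.card : ℝ) * (G * (om N v l q n ^ 2 * (V (insert k (sp n)) * ∏ i, s (n i)))) else 0) +
        (T.card : ℝ) * (η * V (insert k (sp n ∪ sp n')))) =
        (T.card : ℝ) * (G * (∑ n ∈ F, om N v l q n ^ 2 * (V (insert k (sp n)) * ∏ i, s (n i)))) +
        (T.card : ℝ) * (η * (∑ n ∈ F, ∑ n' ∈ F, V (insert k (sp n ∪ sp n')))) := by
      simp only [Finset.sum_add_distrib, Finset.mul_sum]
      congr 1
      apply Finset.sum_congr rfl
      intro n hn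
      rw [Finset.sum_eq_single n]
      · rw [if_pos rfl]
      · intro b _ hb
        rw [if_neg (Ne.symm hb)]
      · intro h'
        exact absurd hn h'
    rw [s4]
  refine (Finset.sum_le_sum (fun k _ => key k)).trans ?_
  rw [Finset.sum_add_distrib, ← Finset.mul_sum, ← Finset.mul_sum, ← Finset.mul_sum, ← Finset.mul_sum, mul_add]
  apply add_le_add
  · exact le_rfl
  · exact mul_le_mul_of_nonneg_left (mul_le_mul_of_nonneg_left hp hη) hT

end H82LX
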