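import Mathlib

/-!
# NUM: elementary inequalities for large natural numbers

* `num`: take logarithms: `log 300 + 43 (2N+1) log N ≤ N²/60 - 1` for large `N` (`log N ≤ √N` for large `N`, or `isLittleO_log_id_atTop`; e.g. `log N = o(√N)`).
* `num2`: `exp x ≥ 1 + x + x²/2 ≥ x²/2` with `x = B^m/32 ≥ 2^m/32`, and `4^m/2048 ≥ m` for `m ≥ 7`.
-/

namespace H82LX

theorem Num_log : ∃ N0 : ℕ, ∀ N : ℕ, N0 ≤ N → Real.log N ≤ 1 / 15480 * N := by
  have h1 := (Real.isLittleO_log_id_atTop.comp_tendsto tendsto_natCast_atTop_atTop).bound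
    (show (0 : ℝ) < 1 / 15480 by norm_num)
  obtain ⟨N0, h⟩ := Filter.eventually_atTop.1 h1
  refine ⟨N0, fun N hN => ?_⟩
  have h2 := h N hN
  simp only [Function.comp_apply, id_eq, Real.norm_eq_abs] at h2
  rw [abs_of_nonneg (Nat.cast_nonneg N : (0 : ℝ) ≤ N)] at h2
  exact (le_abs_self _).trans h2

theorem num : ∃ N0 : ℕ, ∀ N : ℕ, N0 ≤ N → 300 * (N : ℝ) ^ (43 * (2 * N + 1)) ≤ Real.exp ((N : ℝ) ^ 2 / 60 - 1) := by
  obtain ⟨N0, h0⟩ := Num_log
  refine ⟨N0 + ⌈Real.log 300 + 1⌉₊ + 120, fun N hN => ?_⟩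
  have h1 := h0 N (by omega)
  have h2 : Real.log 300 + 1 ≤ N := by
    have h3 : ⌈Real.log 300 + 1⌉₊ ≤ N := by omega
    exact (Nat.le_ceil _).trans (by exact_mod_cast h3)
  have h4 : (120 : ℝ) ≤ N := by
    have h5 : 120 ≤ N := by omega
    exact_mod_cast h5
  have hN0 : (0 : ℝ) < N := by linarith
  have h6 : 300 * (N : ℝ) ^ (43 * (2 * N + 1)) =
      Real.exp (Real.log 300 + ((43 * (2 * N + 1) : ℕ) : ℝ) * Real.log N) := by
    rw [Real.exp_add, Real.exp_log (by norm_num), Real.exp_nat_mul, Real.exp_log hN0]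
  rw [h6]
  apply Real.exp_le_exp.2
  push_cast
  have h7 : 0 ≤ (43 : ℝ) * (2 * N + 1) := by positivity
  have h8 := mul_le_mul_of_nonneg_left h1 h7
  have h9 : (43 : ℝ) * (2 * N + 1) * (1 / 15480 * N) ≤ N ^ 2 / 120 := by nlinarith
  have h10 : (N : ℝ) ≤ N ^ 2 / 120 := by nlinarith
  linarith

theorem Num_two (m : ℕ) (h : 8 ≤ m) : 32 * m ≤ 2 ^ m := by
  induction m, h using Nat.le_induction with
  | base => norm_num
  | succ m hm ih => rw [pow_succ]; omega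

theorem num2 : ∃ m0 : ℕ, ∀ m B : ℕ, m0 ≤ m → 2 ≤ B → (m : ℝ) * Real.exp (-((B : ℝ) ^ m / 32)) ≤ 1 := by
  refine ⟨8, fun m B hm hB => ?_⟩
  have h1 : (32 : ℝ) * m ≤ (B : ℝ) ^ m := by
    have h2 : 32 * m ≤ B ^ m := (Num_two m hm).trans (Nat.pow_le_pow_left hB m)
    exact_mod_cast h2
  have h3 : (m : ℝ) ≤ Real.exp ((B : ℝ) ^ m / 32) := by
    have h4 := Real.add_one_le_exp ((B : ℝ) ^ m / 32)
    linarith
  calc (m : ℝ) * Real.exp (-((B : ℝ) ^ m / 32))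
      ≤ Real.exp ((B : ℝ) ^ m / 32) * Real.exp (-((B : ℝ) ^ m / 32)) :=
        mul_le_mul_of_nonneg_right h3 (Real.exp_pos _).le
    _ = 1 := by rw [← Real.exp_add, add_neg_cancel, Real.exp_zero]

end H82LX
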