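import Pool.Agent.H82.LX.Num

/-!
# EPV: the error terms are small, without an upper bound for `log x`

`epu` (`Epu.lean`) without the hypothesis `log x ≤ N^9`: instead `(C log z)^(8 N + 2) ≤ exp(log x / 40)` (`Epv_log`). Also: `epv2` for the hypothesis of `h4u`, `epv3` for the constant of the fourth moment.
-/

namespace H82LX

theorem Epv_C {C n x : ℝ} {k z : ℕ} (hC : 1 ≤ C) (hx : 1 ≤ x) (hn : 25 ≤ n) (hnC : C ≤ n) (hH : n ^ 8 ≤ Real.log x)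
    (hz : (1 : ℝ) < z) (hz1 : (z : ℝ) ≤ x ^ (1 / n ^ 2)) (hk : (k : ℝ) ≤ 8 * n + 2) :
    (C * Real.log z) ^ k ≤ Real.exp (Real.log x / 40) := by
  have hx0 : 0 < x := by linarith
  have hn0 : 0 < n := by linarith
  have hn1 : 1 ≤ n := by linarith
  have hH0 : 0 < Real.log x := lt_of_lt_of_le (by positivity) hH
  have hlz0 : 0 < Real.log z := Real.log_pos hz
  have hlz : Real.log z ≤ Real.log x := by
    have h3 : Real.log z ≤ Real.log (x ^ (1 / n ^ 2)) := Real.log_le_log (by linarith) hz1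
    rw [Real.log_rpow hx0] at h3
    have h4 : 1 / n ^ 2 ≤ 1 := by
      rw [div_le_one (by positivity)]; exact one_le_pow₀ hn1
    nlinarith
  obtain ⟨u, hu⟩ : ∃ u : ℝ, u = Real.log x ^ (1 / 8 : ℝ) := ⟨_, rfl⟩
  have hu0 : 0 < u := by rw [hu]; positivity
  have hu8 : u ^ 8 = Real.log x := by
    rw [hu, ← Real.rpow_natCast, ← Real.rpow_mul hH0.le]
    norm_num
  have hnu : n ≤ u := by
    by_contra hcon
    push Not at hcon
    have : u ^ 8 < n ^ 8 := pow_lt_pow_left₀ hcon hu0.le (by norm_num)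
    rw [hu8] at this
    linarith
  have h1 : C * Real.log z ≤ u ^ 9 := by
    calc C * Real.log z ≤ u * Real.log x := mul_le_mul (hnC.trans hnu) hlz hlz0.le hu0.le
      _ = u ^ 9 := by rw [← hu8]; ring
  have h2 : Real.log u ≤ u := (Real.log_le_sub_one_of_pos hu0).trans (by linarith)
  have h3 : (C * Real.log z) ^ k ≤ Real.exp (k * (9 * u)) := by
    calc (C * Real.log z) ^ k ≤ (u ^ 9) ^ k := pow_le_pow_left₀ (by positivity) h1 k
      _ = (Real.exp (9 * Real.log u)) ^ k := by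
          have : Real.exp (9 * Real.log u) = u ^ 9 := by
            have h := Real.exp_nat_mul (Real.log u) 9
            rw [Real.exp_log hu0] at h
            exact_mod_cast h
          rw [this]
      _ = Real.exp (k * (9 * Real.log u)) := by rw [← Real.exp_nat_mul]
      _ ≤ Real.exp (k * (9 * u)) := by
          refine Real.exp_le_exp.2 (mul_le_mul_of_nonneg_left (by linarith) (Nat.cast_nonneg k))
  refine h3.trans (Real.exp_le_exp.2 ?_)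
  have hk2 : (k : ℝ) ≤ 9 * u := by linarith
  have h4 : (k : ℝ) * (9 * u) ≤ 81 * u ^ 2 := by nlinarith
  have h5 : (25 : ℝ) ≤ u := hn.trans hnu
  have h6 : (25 : ℝ) ^ 6 ≤ u ^ 6 := pow_le_pow_left₀ (by norm_num) h5 6
  have h7 : 3240 * u ^ 2 ≤ u ^ 6 * u ^ 2 := mul_le_mul_of_nonneg_right (by linarith) (by positivity)
  have h8 : u ^ 6 * u ^ 2 = Real.log x := by rw [← hu8]; ring
  rw [h8] at h7
  linarith

theorem epv {D C : ℝ} (hD : 1 ≤ D) (hC : 1 ≤ C) : ∃ N0 : ℕ, ∀ N : ℕ, N0 ≤ N → ∀ (m z R T : ℕ) (x μ V : ℝ),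
    1 ≤ x → (N : ℝ) ^ 8 ≤ Real.log x → m + 1 ≤ N → 0 ≤ μ → μ ≤ m * (N : ℝ) ^ 2 →
    (z : ℝ) ≤ x ^ (1 / (N : ℝ) ^ 2) → Real.exp (1 / (N : ℝ) ^ 2 / 2 * Real.log x) ≤ z → (R : ℝ) ≤ x ^ (1 / 16 : ℝ) →
    x ^ (7 / 10 : ℝ) ≤ T → 1 / (C * Real.log z) ^ (2 * (2 * N + 1)) ≤ V →
    ((Real.exp (-((N ^ 2 / 60 : ℕ) : ℝ)) + 9 * (2 * (N : ℝ) + 1) ^ 2 / z) * (4 * (2 * D / (1 / (N : ℝ) ^ 2)) ^ 5) ^ (2 * N + 1) +
      (z : ℝ) ^ (3 * (4 * (N ^ 2 / 60) + 10)) * (4 * (2 * D / (1 / (N : ℝ) ^ 2)) ^ 2) ^ (2 * N + 1) *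
        ((x ^ (1 / 8 : ℝ)) ^ 2 * (R : ℝ) ^ 2) / (T * V)) *
      ((2 * (N : ℝ) + 1) * (1 + ((m : ℝ) + 1) ^ 2 * μ) ^ (2 * N + 1)) ≤ 1 / 8 := by
  obtain ⟨N1, hN1⟩ := num
  refine ⟨N1 + 25 + ⌈128 * D ^ 5⌉₊ + ⌈C⌉₊, ?_⟩
  intro N hN m z R T x μ V hx hlx1 hm hμ0 hμ hz1 hz2 hR hT hV
  have hnum := hN1 N (by omega)
  have hN25 : (25 : ℝ) ≤ N := by
    have : 25 ≤ N := by omega
    exact_mod_cast this
  have hnD : 128 * D ^ 5 ≤ (N : ℝ) := by
    refine (Nat.le_ceil _).trans ?_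
    have : ⌈128 * D ^ 5⌉₊ ≤ N := by omega
    exact_mod_cast this
  have hnC : C ≤ (N : ℝ) := by
    refine (Nat.le_ceil _).trans ?_
    have : ⌈C⌉₊ ≤ N := by omega
    exact_mod_cast this
  set n : ℝ := (N : ℝ) with hn
  have hn0 : 0 < n := by linarith
  have hn1 : 1 ≤ n := by linarith
  set P : ℕ := 2 * N + 1 with hP
  have hPr : (2 * n + 1) = (P : ℝ) := by rw [hP, hn]; push_cast; ring
  have hx0 : 0 < x := by linarith
  -- Gamma
  have hΓ : 2 * D / (1 / n ^ 2) = 2 * D * n ^ 2 := by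
    rw [div_div_eq_mul_div, div_one]
  rw [hΓ]
  set Γ := 2 * D * n ^ 2 with hΓd
  have hΓ1 : 1 ≤ Γ := by
    rw [hΓd]
    have : 1 ≤ n ^ 2 := one_le_pow₀ hn1
    nlinarith
  have h5 : 4 * Γ ^ 5 ≤ n ^ 12 := by
    have e : 4 * Γ ^ 5 = (128 * D ^ 5) * n ^ 10 := by rw [hΓd]; ring
    rw [e]
    calc (128 * D ^ 5) * n ^ 10 ≤ n * n ^ 10 := mul_le_mul_of_nonneg_right hnD (by positivity)
      _ ≤ n * n ^ 11 := mul_le_mul_of_nonneg_left (pow_le_pow_right₀ hn1 (by norm_num)) hn0.le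
      _ = n ^ 12 := by ring
  have h2 : 4 * Γ ^ 2 ≤ n ^ 12 := by
    have : Γ ^ 2 ≤ Γ ^ 5 := pow_le_pow_right₀ hΓ1 (by norm_num)
    linarith
  have hm' : (m : ℝ) + 1 ≤ n := by
    rw [hn]; exact_mod_cast hm
  have hm0 : (0 : ℝ) ≤ m := Nat.cast_nonneg m
  have hX : 1 + ((m : ℝ) + 1) ^ 2 * μ ≤ n ^ 6 := by
    have h3 : μ ≤ n * n ^ 2 := hμ.trans (mul_le_mul_of_nonneg_right (by linarith) (by positivity))
    have h4 : ((m : ℝ) + 1) ^ 2 ≤ n ^ 2 := pow_le_pow_left₀ (by linarith) hm' 2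
    have h6 : ((m : ℝ) + 1) ^ 2 * μ ≤ n ^ 2 * (n * n ^ 2) := mul_le_mul h4 h3 hμ0 (by positivity)
    have h7 : (1 : ℝ) ≤ n ^ 5 := one_le_pow₀ hn1
    calc 1 + ((m : ℝ) + 1) ^ 2 * μ ≤ n ^ 5 + n ^ 5 := by nlinarith
      _ = 2 * n ^ 5 := by ring
      _ ≤ n * n ^ 5 := mul_le_mul_of_nonneg_right (by linarith) (by positivity)
      _ = n ^ 6 := by ring
  have hX0 : 0 ≤ 1 + ((m : ℝ) + 1) ^ 2 * μ := by positivity
  have hP2 : 2 * n + 1 ≤ n ^ 2 := by nlinarith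
  have hPP : n ^ 2 ≤ n ^ P := pow_le_pow_right₀ hn1 (by omega)
  have hF : (2 * n + 1) * (1 + ((m : ℝ) + 1) ^ 2 * μ) ^ P ≤ n ^ (7 * P) := by
    have h3 : (1 + ((m : ℝ) + 1) ^ 2 * μ) ^ P ≤ (n ^ 6) ^ P := pow_le_pow_left₀ hX0 hX P
    calc (2 * n + 1) * (1 + ((m : ℝ) + 1) ^ 2 * μ) ^ P ≤ n ^ P * (n ^ 6) ^ P :=
          mul_le_mul (hP2.trans hPP) h3 (pow_nonneg hX0 _) (by positivity)
      _ = n ^ (7 * P) := by rw [← pow_mul, ← pow_add]; congr 1; omega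
  have hF0 : 0 ≤ (2 * n + 1) * (1 + ((m : ℝ) + 1) ^ 2 * μ) ^ P := by positivity
  have h5P : (4 * Γ ^ 5) ^ P ≤ n ^ (12 * P) := by
    rw [pow_mul]
    exact pow_le_pow_left₀ (by positivity) h5 P
  have h2P : (4 * Γ ^ 2) ^ P ≤ n ^ (12 * P) := by
    rw [pow_mul]
    exact pow_le_pow_left₀ (by positivity) h2 P
  set E := Real.exp (n ^ 2 / 60 - 1) with hE
  have hE0 : 0 < E := Real.exp_pos _
  have hW : 300 * n ^ (43 * P) ≤ E := hnum
  have hnP : ∀ k, 0 < n ^ k := fun k => by positivity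
  -- generic: n^(a P) / E ≤ 1/300 for a ≤ 43
  have hgen : ∀ a : ℕ, a ≤ 43 → n ^ (a * P) / E ≤ 1 / 300 := by
    intro a ha
    rw [div_le_iff₀ hE0]
    have h3 : n ^ (a * P) ≤ n ^ (43 * P) := pow_le_pow_right₀ hn1 (Nat.mul_le_mul_right P ha)
    linarith
  -- b0
  set b0 : ℕ := N ^ 2 / 60 with hb0
  have hb0l : n ^ 2 / 60 - 1 ≤ (b0 : ℝ) := by
    have h3 : N ^ 2 < 60 * (b0 + 1) := by
      rw [hb0]
      have := Nat.lt_mul_div_succ (N ^ 2) (by norm_num : 0 < 60)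
      simpa using this
    have h4 : n ^ 2 < 60 * ((b0 : ℝ) + 1) := by
      rw [hn]
      exact_mod_cast h3
    linarith
  have hb0u : (b0 : ℝ) ≤ n ^ 2 / 60 := by
    have h3 : 60 * b0 ≤ N ^ 2 := by rw [hb0]; exact Nat.mul_div_le _ _
    have h4 : 60 * (b0 : ℝ) ≤ n ^ 2 := by
      rw [hn]
      exact_mod_cast h3
    linarith
  have hT1 : Real.exp (-(b0 : ℝ)) ≤ 1 / E := by
    rw [hE, one_div, ← Real.exp_neg]
    exact Real.exp_le_exp.2 (by linarith)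
  -- z
  have hn6 : n ^ 2 / 60 - 1 ≤ 1 / n ^ 2 / 2 * Real.log x := by
    have h3 : 1 / n ^ 2 / 2 * n ^ 8 ≤ 1 / n ^ 2 / 2 * Real.log x :=
      mul_le_mul_of_nonneg_left hlx1 (by positivity)
    have h4 : 1 / n ^ 2 / 2 * n ^ 8 = n ^ 6 / 2 := by field_simp
    have h6 : n ^ 2 ≤ n ^ 6 := pow_le_pow_right₀ hn1 (by norm_num)
    rw [h4] at h3
    have : 0 < n ^ 2 := by positivity
    linarith
  have hzE : E ≤ (z : ℝ) := (Real.exp_le_exp.2 hn6).trans hz2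
  have hz0 : (0 : ℝ) < z := lt_of_lt_of_le hE0 hzE
  have hz1' : (1 : ℝ) < z := by
    have h3 : 300 * n ^ (43 * P) ≤ (z : ℝ) := hW.trans hzE
    have h4 : 1 ≤ n ^ (43 * P) := one_le_pow₀ hn1
    linarith
  have hT2 : 9 * (2 * n + 1) ^ 2 / z ≤ n ^ P / E := by
    have h3 : 9 * (2 * n + 1) ^ 2 ≤ n ^ P := by
      calc 9 * (2 * n + 1) ^ 2 ≤ n * (n ^ 2) ^ 2 :=
            mul_le_mul (by linarith) (pow_le_pow_left₀ (by linarith) hP2 2) (by positivity) hn0.le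
        _ = n ^ 5 := by ring
        _ ≤ n ^ P := pow_le_pow_right₀ hn1 (by
            have : 25 ≤ N := by omega
            omega)
    exact div_le_div₀ (hnP P).le h3 hE0 hzE
  have hTA : (Real.exp (-(b0 : ℝ)) + 9 * (2 * n + 1) ^ 2 / z) * (4 * Γ ^ 5) ^ P *
      ((2 * n + 1) * (1 + ((m : ℝ) + 1) ^ 2 * μ) ^ P) ≤ 2 / 300 := by
    have h3 : Real.exp (-(b0 : ℝ)) + 9 * (2 * n + 1) ^ 2 / z ≤ 2 * (n ^ P / E) := by
      have h4 : 1 / E ≤ n ^ P / E := div_le_div_of_nonneg_right (one_le_pow₀ hn1) hE0.le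
      linarith
    have h6 : (4 * Γ ^ 5) ^ P * ((2 * n + 1) * (1 + ((m : ℝ) + 1) ^ 2 * μ) ^ P) ≤ n ^ (12 * P) * n ^ (7 * P) :=
      mul_le_mul h5P hF hF0 (hnP _).le
    have h7 : 0 ≤ (4 * Γ ^ 5) ^ P * ((2 * n + 1) * (1 + ((m : ℝ) + 1) ^ 2 * μ) ^ P) := by positivity
    calc _ = (Real.exp (-(b0 : ℝ)) + 9 * (2 * n + 1) ^ 2 / z) *
          ((4 * Γ ^ 5) ^ P * ((2 * n + 1) * (1 + ((m : ℝ) + 1) ^ 2 * μ) ^ P)) := by ring
      _ ≤ (2 * (n ^ P / E)) * (n ^ (12 * P) * n ^ (7 * P)) :=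
          mul_le_mul h3 h6 h7 (by positivity)
      _ = 2 * (n ^ (20 * P) / E) := by
          have : n ^ P * (n ^ (12 * P) * n ^ (7 * P)) = n ^ (20 * P) := by
            rw [← pow_add, ← pow_add]; congr 1; omega
          rw [← this]; ring
      _ ≤ 2 * (1 / 300) := mul_le_mul_of_nonneg_left (hgen 20 (by norm_num)) (by norm_num)
      _ = 2 / 300 := by norm_num
  -- third term
  have hzp : (z : ℝ) ^ (3 * (4 * b0 + 10)) ≤ x ^ (1 / 4 : ℝ) := by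
    calc (z : ℝ) ^ (3 * (4 * b0 + 10)) ≤ (x ^ (1 / n ^ 2)) ^ (3 * (4 * b0 + 10)) :=
          pow_le_pow_left₀ hz0.le hz1 _
      _ = x ^ (1 / n ^ 2 * ((3 * (4 * b0 + 10) : ℕ) : ℝ)) := by
          rw [Real.rpow_mul hx0.le, Real.rpow_natCast]
      _ ≤ x ^ (1 / 4 : ℝ) := by
          refine Real.rpow_le_rpow_of_exponent_le hx ?_
          have hn2 : 0 < n ^ 2 := by positivity
          rw [one_div, inv_mul_le_iff₀ hn2]
          push_cast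
          nlinarith
  have hR2 : (R : ℝ) ^ 2 ≤ x ^ (1 / 8 : ℝ) := by
    calc (R : ℝ) ^ 2 ≤ (x ^ (1 / 16 : ℝ)) ^ 2 := pow_le_pow_left₀ (Nat.cast_nonneg R) hR 2
      _ = x ^ (1 / 8 : ℝ) := by
          rw [← Real.rpow_natCast, ← Real.rpow_mul hx0.le]
          norm_num
  have hx8 : (x ^ (1 / 8 : ℝ)) ^ 2 = x ^ (1 / 4 : ℝ) := by
    rw [← Real.rpow_natCast, ← Real.rpow_mul hx0.le]
    norm_num
  have hCl : (C * Real.log z) ^ (2 * P) ≤ Real.exp (Real.log x / 40) :=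
    Epv_C hC hx hN25 hnC hlx1 hz1' hz1 (by rw [hn]; push_cast; linarith)
  have hCl0 : 0 < (C * Real.log z) ^ (2 * P) := by
    have := Real.log_pos hz1'
    positivity
  have hV' : Real.exp (-(Real.log x / 40)) ≤ V := by
    rw [Real.exp_neg, ← one_div]
    exact (one_div_le_one_div_of_le hCl0 hCl).trans hV
  have hx7 : 0 < x ^ (7 / 10 : ℝ) := Real.rpow_pos_of_pos hx0 _
  have hTV : x ^ (7 / 10 : ℝ) * Real.exp (-(Real.log x / 40)) ≤ T * V :=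
    mul_le_mul hT hV' (by positivity) (by linarith)
  have hTV0 : 0 < x ^ (7 / 10 : ℝ) * Real.exp (-(Real.log x / 40)) := mul_pos hx7 (Real.exp_pos _)
  have hx340 : x ^ (-(3 / 40) : ℝ) * Real.exp (Real.log x / 40) ≤ 1 / E := by
    rw [Real.rpow_def_of_pos hx0, hE, one_div, ← Real.exp_neg, ← Real.exp_add]
    refine Real.exp_le_exp.2 ?_
    have h3 : n ^ 2 ≤ n ^ 8 := pow_le_pow_right₀ hn1 (by norm_num)
    have h4 : 0 < n ^ 2 := by positivity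
    nlinarith
  have hTB : (z : ℝ) ^ (3 * (4 * b0 + 10)) * (4 * Γ ^ 2) ^ P * ((x ^ (1 / 8 : ℝ)) ^ 2 * (R : ℝ) ^ 2) / (T * V) *
      ((2 * n + 1) * (1 + ((m : ℝ) + 1) ^ 2 * μ) ^ P) ≤ 1 / 300 := by
    rw [hx8]
    have h3 : (z : ℝ) ^ (3 * (4 * b0 + 10)) * (4 * Γ ^ 2) ^ P * (x ^ (1 / 4 : ℝ) * (R : ℝ) ^ 2) ≤
        x ^ (1 / 4 : ℝ) * n ^ (12 * P) * (x ^ (1 / 4 : ℝ) * x ^ (1 / 8 : ℝ)) := by
      refine mul_le_mul (mul_le_mul hzp h2P (by positivity) (by positivity)) ?_ (by positivity) (by positivity)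
      exact mul_le_mul_of_nonneg_left hR2 (by positivity)
    have h4 : (z : ℝ) ^ (3 * (4 * b0 + 10)) * (4 * Γ ^ 2) ^ P * (x ^ (1 / 4 : ℝ) * (R : ℝ) ^ 2) / (T * V) ≤
        x ^ (1 / 4 : ℝ) * n ^ (12 * P) * (x ^ (1 / 4 : ℝ) * x ^ (1 / 8 : ℝ)) /
          (x ^ (7 / 10 : ℝ) * Real.exp (-(Real.log x / 40))) :=
      div_le_div₀ (by positivity) h3 hTV0 hTV
    have h6 : x ^ (1 / 4 : ℝ) * n ^ (12 * P) * (x ^ (1 / 4 : ℝ) * x ^ (1 / 8 : ℝ)) /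
          (x ^ (7 / 10 : ℝ) * Real.exp (-(Real.log x / 40))) =
        (x ^ (-(3 / 40) : ℝ) * Real.exp (Real.log x / 40)) * n ^ (12 * P) := by
      have e1 : x ^ (1 / 4 : ℝ) * (x ^ (1 / 4 : ℝ) * x ^ (1 / 8 : ℝ)) = x ^ (-(3 / 40) : ℝ) * x ^ (7 / 10 : ℝ) := by
        rw [← Real.rpow_add hx0, ← Real.rpow_add hx0, ← Real.rpow_add hx0]
        norm_num
      rw [div_eq_iff hTV0.ne']
      have e3 : Real.exp (Real.log x / 40) * Real.exp (-(Real.log x / 40)) = 1 := by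
        rw [← Real.exp_add]; simp
      calc x ^ (1 / 4 : ℝ) * n ^ (12 * P) * (x ^ (1 / 4 : ℝ) * x ^ (1 / 8 : ℝ))
          = (x ^ (1 / 4 : ℝ) * (x ^ (1 / 4 : ℝ) * x ^ (1 / 8 : ℝ))) * n ^ (12 * P) := by ring
        _ = (x ^ (-(3 / 40) : ℝ) * x ^ (7 / 10 : ℝ)) * n ^ (12 * P) * 1 := by rw [e1, mul_one]
        _ = (x ^ (-(3 / 40) : ℝ) * x ^ (7 / 10 : ℝ)) * n ^ (12 * P) *
            (Real.exp (Real.log x / 40) * Real.exp (-(Real.log x / 40))) := by rw [e3]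
        _ = _ := by ring
    rw [h6] at h4
    calc _ ≤ ((x ^ (-(3 / 40) : ℝ) * Real.exp (Real.log x / 40)) * n ^ (12 * P)) * n ^ (7 * P) :=
          mul_le_mul h4 hF hF0 (by positivity)
      _ ≤ (1 / E * n ^ (12 * P)) * n ^ (7 * P) := by
          refine mul_le_mul_of_nonneg_right (mul_le_mul_of_nonneg_right hx340 (hnP _).le) (hnP _).le
      _ = n ^ (19 * P) / E := by
          have : n ^ (19 * P) = n ^ (12 * P) * n ^ (7 * P) := by rw [← pow_add]; congr 1; omega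
          rw [this]; ring
      _ ≤ 1 / 300 := hgen 19 (by norm_num)
  have hfin : ((Real.exp (-(b0 : ℝ)) + 9 * (2 * n + 1) ^ 2 / z) * (4 * Γ ^ 5) ^ P +
      (z : ℝ) ^ (3 * (4 * b0 + 10)) * (4 * Γ ^ 2) ^ P * ((x ^ (1 / 8 : ℝ)) ^ 2 * (R : ℝ) ^ 2) / (T * V)) *
      ((2 * n + 1) * (1 + ((m : ℝ) + 1) ^ 2 * μ) ^ P) ≤ 2 / 300 + 1 / 300 := by
    rw [add_mul]
    exact add_le_add hTA hTB
  refine hfin.trans (by norm_num)

/-- the hypothesis of `h4u` -/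
theorem epv2 {C : ℝ} (hC : 1 ≤ C) : ∃ N0 : ℕ, ∀ N : ℕ, N0 ≤ N → ∀ (z T : ℕ) (x V : ℝ),
    1 ≤ x → (N : ℝ) ^ 8 ≤ Real.log x →
    (z : ℝ) ≤ x ^ (1 / (N : ℝ) ^ 2) → Real.exp (1 / (N : ℝ) ^ 2 / 2 * Real.log x) ≤ z →
    x ^ (7 / 10 : ℝ) ≤ T → 1 / (C * Real.log z) ^ (2 * (4 * N)) ≤ V →
    Real.exp (-((N ^ 2 / 60 : ℕ) : ℝ)) + 9 * (4 * (N : ℝ)) ^ 2 / z +
      (z : ℝ) ^ (3 * (4 * (N ^ 2 / 60) + 10)) / (T * V) ≤ 1 := by
  obtain ⟨N1, hN1⟩ := num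
  refine ⟨N1 + 150 + ⌈C⌉₊, ?_⟩
  intro N hN z T x V hx hlx1 hz1 hz2 hT hV
  have hnum := hN1 N (by omega)
  have hN25 : (150 : ℝ) ≤ N := by
    have : 150 ≤ N := by omega
    exact_mod_cast this
  have hnC : C ≤ (N : ℝ) := by
    refine (Nat.le_ceil _).trans ?_
    have : ⌈C⌉₊ ≤ N := by omega
    exact_mod_cast this
  set n : ℝ := (N : ℝ) with hn
  have hn0 : 0 < n := by linarith
  have hn1 : 1 ≤ n := by linarith
  have hx0 : 0 < x := by linarith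
  set E := Real.exp (n ^ 2 / 60 - 1) with hE
  have hE0 : 0 < E := Real.exp_pos _
  have hnE : 300 * n ^ 4 ≤ E := by
    refine le_trans ?_ hnum
    exact mul_le_mul_of_nonneg_left (pow_le_pow_right₀ hn1 (by omega)) (by norm_num)
  set b0 : ℕ := N ^ 2 / 60 with hb0
  have hb0l : n ^ 2 / 60 - 1 ≤ (b0 : ℝ) := by
    have h3 : N ^ 2 < 60 * (b0 + 1) := by
      rw [hb0]
      have := Nat.lt_mul_div_succ (N ^ 2) (by norm_num : 0 < 60)
      simpa using this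
    have h4 : n ^ 2 < 60 * ((b0 : ℝ) + 1) := by
      rw [hn]
      exact_mod_cast h3
    linarith
  have hb0u : (b0 : ℝ) ≤ n ^ 2 / 60 := by
    have h3 : 60 * b0 ≤ N ^ 2 := by rw [hb0]; exact Nat.mul_div_le _ _
    have h4 : 60 * (b0 : ℝ) ≤ n ^ 2 := by
      rw [hn]
      exact_mod_cast h3
    linarith
  have hT1 : Real.exp (-(b0 : ℝ)) ≤ 1 / E := by
    rw [hE, one_div, ← Real.exp_neg]
    exact Real.exp_le_exp.2 (by linarith)
  have hn6 : n ^ 2 / 60 - 1 ≤ 1 / n ^ 2 / 2 * Real.log x := by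
    have h3 : 1 / n ^ 2 / 2 * n ^ 8 ≤ 1 / n ^ 2 / 2 * Real.log x :=
      mul_le_mul_of_nonneg_left hlx1 (by positivity)
    have h4 : 1 / n ^ 2 / 2 * n ^ 8 = n ^ 6 / 2 := by field_simp
    have h6 : n ^ 2 ≤ n ^ 6 := pow_le_pow_right₀ hn1 (by norm_num)
    rw [h4] at h3
    have : 0 < n ^ 2 := by positivity
    linarith
  have hzE : E ≤ (z : ℝ) := (Real.exp_le_exp.2 hn6).trans hz2
  have hz0 : (0 : ℝ) < z := lt_of_lt_of_le hE0 hzE
  have hn4 : 1 ≤ n ^ 4 := one_le_pow₀ hn1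
  have hz1' : (1 : ℝ) < z := by linarith
  have hE300 : 300 ≤ E := by linarith
  have a1 : Real.exp (-(b0 : ℝ)) ≤ 1 / 300 := hT1.trans (one_div_le_one_div_of_le (by norm_num) hE300)
  have a2 : 9 * (4 * n) ^ 2 / z ≤ 1 / 2 := by
    rw [div_le_iff₀ hz0]
    have h1 : n ^ 2 ≤ n ^ 4 := pow_le_pow_right₀ hn1 (by norm_num)
    nlinarith
  have hzp : (z : ℝ) ^ (3 * (4 * b0 + 10)) ≤ x ^ (1 / 4 : ℝ) := by
    calc (z : ℝ) ^ (3 * (4 * b0 + 10)) ≤ (x ^ (1 / n ^ 2)) ^ (3 * (4 * b0 + 10)) :=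
          pow_le_pow_left₀ hz0.le hz1 _
      _ = x ^ (1 / n ^ 2 * ((3 * (4 * b0 + 10) : ℕ) : ℝ)) := by
          rw [Real.rpow_mul hx0.le, Real.rpow_natCast]
      _ ≤ x ^ (1 / 4 : ℝ) := by
          refine Real.rpow_le_rpow_of_exponent_le hx ?_
          have hn2 : 0 < n ^ 2 := by positivity
          rw [one_div, inv_mul_le_iff₀ hn2]
          push_cast
          nlinarith
  have hCl : (C * Real.log z) ^ (2 * (4 * N)) ≤ Real.exp (Real.log x / 40) :=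
    Epv_C hC hx (by linarith) hnC hlx1 hz1' hz1 (by rw [hn]; push_cast; linarith)
  have hCl0 : 0 < (C * Real.log z) ^ (2 * (4 * N)) := by
    have := Real.log_pos hz1'
    positivity
  have hV' : Real.exp (-(Real.log x / 40)) ≤ V := by
    rw [Real.exp_neg, ← one_div]
    exact (one_div_le_one_div_of_le hCl0 hCl).trans hV
  have hx7 : 0 < x ^ (7 / 10 : ℝ) := Real.rpow_pos_of_pos hx0 _
  have hTV : x ^ (7 / 10 : ℝ) * Real.exp (-(Real.log x / 40)) ≤ T * V :=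
    mul_le_mul hT hV' (by positivity) (by linarith)
  have hTV0 : 0 < x ^ (7 / 10 : ℝ) * Real.exp (-(Real.log x / 40)) := mul_pos hx7 (Real.exp_pos _)
  have a3 : (z : ℝ) ^ (3 * (4 * b0 + 10)) / (T * V) ≤ 1 / 300 := by
    calc (z : ℝ) ^ (3 * (4 * b0 + 10)) / (T * V) ≤ x ^ (1 / 4 : ℝ) / (x ^ (7 / 10 : ℝ) * Real.exp (-(Real.log x / 40))) :=
          div_le_div₀ (by positivity) hzp hTV0 hTV
      _ = Real.exp (-(17 / 40 * Real.log x)) := by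
          rw [div_eq_iff hTV0.ne', Real.rpow_def_of_pos hx0, Real.rpow_def_of_pos hx0, ← Real.exp_add, ← Real.exp_add]
          congr 1
          ring
      _ ≤ 1 / E := by
          rw [hE, one_div, ← Real.exp_neg]
          refine Real.exp_le_exp.2 ?_
          have h3 : n ^ 2 ≤ n ^ 8 := pow_le_pow_right₀ hn1 (by norm_num)
          have h4 : 0 < n ^ 2 := by positivity
          nlinarith
      _ ≤ 1 / 300 := one_div_le_one_div_of_le (by norm_num) hE300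
  linarith

/-- the constant of the fourth moment -/
theorem epv3 {D : ℝ} (hD : 1 ≤ D) (A : ℕ) : ∃ N0 : ℕ, ∀ N : ℕ, N0 ≤ N → ∀ (m : ℕ) (μ : ℝ), m + 1 ≤ N → 0 ≤ μ →
    μ ≤ m * (N : ℝ) ^ 2 →
    4 * ((1 + m * (2 * (2 * D / (1 / (N : ℝ) ^ 2)) * 2 ^ (2 * N ^ 2 * A))) ^ (4 * N) * ((4 * N).factorial : ℝ) *
      2 ^ (4 * N + 1) * (1 + μ) ^ (4 * N)) ≤ Real.exp ((N : ℝ) ^ 4) := by
  refine ⟨⌈5 * D⌉₊ + 8 * A + 60, ?_⟩
  intro N hN m μ hm hμ0 hμ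
  have hnD : 5 * D ≤ (N : ℝ) := by
    refine (Nat.le_ceil _).trans ?_
    have : ⌈5 * D⌉₊ ≤ N := by omega
    exact_mod_cast this
  have hnA : 8 * (A : ℝ) + 60 ≤ N := by
    have : 8 * A + 60 ≤ N := by omega
    exact_mod_cast this
  have hm' : (m : ℝ) + 1 ≤ N := by exact_mod_cast hm
  have hA0 : (0 : ℝ) ≤ A := Nat.cast_nonneg A
  have hm0 : (0 : ℝ) ≤ m := Nat.cast_nonneg m
  have hfac : ((4 * N).factorial : ℝ) ≤ (4 * (N : ℝ)) ^ (4 * N) := by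
    have := Nat.factorial_le_pow (4 * N)
    exact_mod_cast this
  set n : ℝ := (N : ℝ) with hn
  have hn60 : 60 ≤ n := by linarith
  have hn0 : 0 < n := by linarith
  have hn1 : 1 ≤ n := by linarith
  have hΓ : 2 * D / (1 / n ^ 2) = 2 * D * n ^ 2 := by
    rw [div_div_eq_mul_div, div_one]
  rw [hΓ]
  obtain ⟨Y, hY⟩ : ∃ Y : ℝ, Y = 2 ^ (2 * N ^ 2 * A) := ⟨_, rfl⟩
  have hY1 : 1 ≤ Y := by rw [hY]; exact one_le_pow₀ (by norm_num)
  rw [← hY]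
  have h1 : 1 + m * (2 * (2 * D * n ^ 2) * Y) ≤ n ^ 4 * Y := by
    have e1 : m * (2 * (2 * D * n ^ 2) * Y) ≤ (n - 1) * ((4 / 5 * n) * n ^ 2 * Y) := by
      have e2 : 2 * (2 * D * n ^ 2) * Y ≤ (4 / 5 * n) * n ^ 2 * Y := by
        refine mul_le_mul_of_nonneg_right ?_ (by linarith)
        have : 0 < n ^ 2 := by positivity
        nlinarith
      refine mul_le_mul (by linarith) e2 (by positivity) (by linarith)
    have e3 : (n - 1) * ((4 / 5 * n) * n ^ 2 * Y) = (4 / 5 * n ^ 4 - 4 / 5 * n ^ 3) * Y := by ring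
    rw [e3] at e1
    have e4 : 1 ≤ 1 / 5 * n ^ 4 := by
      have : (60 : ℝ) ^ 4 ≤ n ^ 4 := pow_le_pow_left₀ (by norm_num) hn60 4
      linarith
    have e5 : 0 ≤ n ^ 3 := by positivity
    nlinarith
  have h1' : (1 + m * (2 * (2 * D * n ^ 2) * Y)) ^ (4 * N) ≤ n ^ (16 * N) * Y ^ (4 * N) := by
    have h0 : (0 : ℝ) ≤ 1 + m * (2 * (2 * D * n ^ 2) * Y) := by positivity
    calc _ ≤ (n ^ 4 * Y) ^ (4 * N) := pow_le_pow_left₀ h0 h1 _
      _ = n ^ (16 * N) * Y ^ (4 * N) := by rw [mul_pow, ← pow_mul]; congr 2; ring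
  have h2 : ((4 * N).factorial : ℝ) ≤ n ^ (8 * N) := by
    refine hfac.trans ?_
    calc (4 * n) ^ (4 * N) ≤ (n ^ 2) ^ (4 * N) := pow_le_pow_left₀ (by positivity) (by nlinarith) _
      _ = n ^ (8 * N) := by rw [← pow_mul]; congr 1; ring
  have h3 : (4 : ℝ) * 2 ^ (4 * N + 1) ≤ n ^ (5 * N) := by
    have hN3 : 3 ≤ N := by omega
    calc (4 : ℝ) * 2 ^ (4 * N + 1) = 2 ^ (4 * N + 3) := by rw [pow_add, pow_add]; ring
      _ ≤ n ^ (4 * N + 3) := pow_le_pow_left₀ (by norm_num) (by linarith) _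
      _ ≤ n ^ (5 * N) := pow_le_pow_right₀ hn1 (by omega)
  have h4 : (1 + μ) ^ (4 * N) ≤ n ^ (16 * N) := by
    have e1 : 1 + μ ≤ n ^ 4 := by
      have e2 : μ ≤ (n - 1) * n ^ 2 := hμ.trans (mul_le_mul_of_nonneg_right (by linarith) (by positivity))
      have e3 : n ^ 3 ≤ n ^ 4 := pow_le_pow_right₀ hn1 (by norm_num)
      have e4 : 1 ≤ n ^ 2 := one_le_pow₀ hn1
      nlinarith
    calc (1 + μ) ^ (4 * N) ≤ (n ^ 4) ^ (4 * N) := pow_le_pow_left₀ (by linarith) e1 _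
      _ = n ^ (16 * N) := by rw [← pow_mul]; congr 1; ring
  have hprod : 4 * ((1 + m * (2 * (2 * D * n ^ 2) * Y)) ^ (4 * N) * ((4 * N).factorial : ℝ) *
      2 ^ (4 * N + 1) * (1 + μ) ^ (4 * N)) ≤ Y ^ (4 * N) * n ^ (45 * N) := by
    have hf0 : (0 : ℝ) ≤ ((4 * N).factorial : ℝ) := Nat.cast_nonneg _
    calc _ = ((1 + m * (2 * (2 * D * n ^ 2) * Y)) ^ (4 * N) * ((4 * N).factorial : ℝ)) *
          ((4 * 2 ^ (4 * N + 1)) * (1 + μ) ^ (4 * N)) := by ring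
      _ ≤ ((n ^ (16 * N) * Y ^ (4 * N)) * n ^ (8 * N)) * (n ^ (5 * N) * n ^ (16 * N)) := by
          refine mul_le_mul (mul_le_mul h1' h2 hf0 (by positivity)) (mul_le_mul h3 h4 (by positivity) (by positivity))
            (by positivity) (by positivity)
      _ = Y ^ (4 * N) * n ^ (45 * N) := by
          have : n ^ (45 * N) = n ^ (16 * N) * n ^ (8 * N) * (n ^ (5 * N) * n ^ (16 * N)) := by
            rw [← pow_add, ← pow_add, ← pow_add]; congr 1; ring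
          rw [this]; ring
  refine hprod.trans ?_
  have hY2 : Y ^ (4 * N) ≤ Real.exp (8 * A * n ^ 3) := by
    have e1 : Y ^ (4 * N) = 2 ^ (8 * N ^ 3 * A) := by rw [hY, ← pow_mul]; congr 1; ring
    rw [e1]
    calc (2 : ℝ) ^ (8 * N ^ 3 * A) ≤ Real.exp 1 ^ (8 * N ^ 3 * A) :=
          pow_le_pow_left₀ (by norm_num) (by linarith [Real.add_one_le_exp (1 : ℝ)]) _
      _ = Real.exp (8 * A * n ^ 3) := by
          rw [← Real.exp_nat_mul]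
          congr 1
          rw [hn]
          push_cast
          ring
  have hn2 : n ^ (45 * N) ≤ Real.exp (45 * n ^ 2) := by
    have e1 : n ≤ Real.exp n := by linarith [Real.add_one_le_exp n]
    calc n ^ (45 * N) ≤ Real.exp n ^ (45 * N) := pow_le_pow_left₀ hn0.le e1 _
      _ = Real.exp (45 * n ^ 2) := by
          rw [← Real.exp_nat_mul]
          congr 1
          rw [hn]
          push_cast
          ring
  calc Y ^ (4 * N) * n ^ (45 * N) ≤ Real.exp (8 * A * n ^ 3) * Real.exp (45 * n ^ 2) :=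
        mul_le_mul hY2 hn2 (by positivity) (Real.exp_pos _).le
    _ = Real.exp (8 * A * n ^ 3 + 45 * n ^ 2) := (Real.exp_add _ _).symm
    _ ≤ Real.exp (n ^ 4) := by
        refine Real.exp_le_exp.2 ?_
        have e1 : 0 < n ^ 2 := by positivity
        have e2 : 0 < n ^ 3 := by positivity
        have e3 : (8 * A + 60) * n ^ 3 ≤ n * n ^ 3 := mul_le_mul_of_nonneg_right hnA e2.le
        have e4 : n ^ 2 ≤ n ^ 3 := pow_le_pow_right₀ hn1 (by norm_num)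
        nlinarith

end H82LX
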