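import Pool.Agent.H69.PG.Abs
import Pool.Agent.H82.LX.Bd2
import Pool.Agent.H82.LX.Up2

/-!
# AB2: the abstract theorem, existence form with exponential moments

`M := MM ≥ 1`: the zero configuration is admissible (`0 ≤ l`, `V ∅ = 1`, `s 0 = 1`) and all masses are `≥ 0` (see `Abs_MM` in `Pool/Agent/H69/PG/Abs.lean`; import that file or copy the lemma).
Suppose every `t ∈ T` has some `k` with `ρ k t`. Then `∑_{t ∈ T} Ps^2 ≤ ∑_k ∑_{t ∈ T, ρ k t} Ps^2` (`Abs_split` in the same file, with the first sum `0`). By `sec` (`Vh V μ (2N)`) and `hE1`: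
`∑_T Ps^2 ≥ |T| (M - 1/8)`; by `up2`, `bd2`, `hB`, `hE2`: `∑_k ∑ Ps^2 ≤ |T| (M/8 + 1/8)`. As `|T| > 0`: `M - 1/8 ≤ M/8 + 1/8`, so `M ≤ 2/7 < 1`. Contradiction.
-/

open Finset

namespace H82LX

open H69PG

variable {ι : Type} [Fintype ι] [DecidableEq ι]

theorem ab2 {m N : ℕ} (hN1 : 1 ≤ N) {v : ℕ → ℝ} {l vm τ : ℝ} {V : Finset ι → ℝ} {μ : ℝ} (h : Vh V μ (2 * N + 1)) {s q : ℕ → ℝ}
    (hs : ∀ a, 0 ≤ s a) (hs0 : s 0 = 1) (hv : ∀ a, 0 ≤ v a) (hv0 : v 0 = 0) (hvm : ∀ a ∈ Icc 1 m, v a ≤ vm)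
    (hN : ∀ a ∈ Icc 1 m, l ≤ N * v a) (hl0 : 0 ≤ l) (hτ : 0 ≤ τ)
    (hq : ∀ a, 0 ≤ q a) (hq1 : ∑ a ∈ Icc 1 m, q a = 1)
    {T : Finset ℕ} (hT : T.Nonempty) {g : ι → ℕ → ℕ → ℝ} {β : ι → ℕ → ℝ} {ρ : ι → ℕ → Prop} {η G : ℝ} (hη : 0 ≤ η) (hG : 0 ≤ G)
    (hg0 : ∀ i t, g i 0 t = 1) (hβ : ∀ i t, 0 ≤ β i t)
    (hρ : ∀ i, ∀ t ∈ T, ρ i t → 1 ≤ β i t ∧ ∀ a ∈ Icc 1 m, g i a t = - q a)
    (h1 : ∀ n ∈ Cf ι m N v l, ∀ n' ∈ Cf ι m N v l,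
      |∑ t ∈ T, ∏ i, (g i (n i) t * g i (n' i) t) - (T.card : ℝ) * (if n = n' then ms V s n else 0)| ≤
        (T.card : ℝ) * (η * V (sp n ∪ sp n')))
    (h2 : ∀ k : ι, ∀ n ∈ Cf ι m N v l, ∀ n' ∈ Cf ι m N v l, n k = 0 → n' k = 0 →
      |∑ t ∈ T, (∏ i, (g i (n i) t * g i (n' i) t)) * β k t -
          (T.card : ℝ) * (if n = n' then G * (V (insert k (sp n)) * ∏ i, s (n i)) else 0)| ≤
        (T.card : ℝ) * (η * V (insert k (sp n ∪ sp n'))))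
    (hE1 : η * (1 + ((m : ℝ) + 1) ^ 2 * μ) ^ (2 * N) ≤ 1 / 8)
    (hE2 : η * ((2 * (N : ℝ) + 1) * (1 + ((m : ℝ) + 1) ^ 2 * μ) ^ (2 * N + 1)) ≤ 1 / 8)
    (hB : G * (μ * Real.exp (μ * (∑ a ∈ Icc 1 m, s a * (Real.exp (τ * v a) - 1)) - τ * (l - vm))) ≤ 1 / 8) :
    ∃ t ∈ T, ∀ k, ¬ ρ k t := by
  classical
  by_contra hcon
  push Not at hcon
  have hT0 : (0 : ℝ) < (T.card : ℝ) := by exact_mod_cast hT.card_pos
  have hMM : 1 ≤ MM m N v l V s := Abs_MM h.nonneg h.empty hs hs0 hv0 hl0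
  have hsec := sec (v := v) (l := l) (Abs_vh h (by omega : 2 * N ≤ 2 * N + 1)) hη h1
  have hup := up2 h hv hv0 hq hq1 hη hg0 hβ hρ h2
  have hbd := bd2 (Abs_vh h (by omega : N + 1 ≤ 2 * N + 1)) hs hs0 hv hv0 hvm hN hτ hq hq1
  have hsplit := Abs_split T ρ (fun t => Ps m N v l g t ^ 2) (fun t => sq_nonneg _)
  have hZ : T.filter (fun t => ∀ k, ¬ ρ k t) = ∅ := by
    rw [Finset.filter_eq_empty_iff]
    intro t ht hk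
    obtain ⟨k, hk'⟩ := hcon t ht
    exact hk k hk'
  rw [hZ, Finset.sum_empty, zero_add] at hsplit
  set M := MM m N v l V s with hM
  set E : ℝ := Real.exp (μ * (∑ a ∈ Icc 1 m, s a * (Real.exp (τ * v a) - 1)) - τ * (l - vm)) with hE
  have hGb : G * (∑ k : ι, ∑ n ∈ (Cf ι m N v l).filter (fun n => n k = 0),
      om N v l q n ^ 2 * (V (insert k (sp n)) * ∏ i, s (n i))) ≤ 1 / 8 * M := by
    calc _ ≤ G * (μ * (E * M)) := mul_le_mul_of_nonneg_left hbd hG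
      _ = G * (μ * E) * M := by ring
      _ ≤ 1 / 8 * M := mul_le_mul_of_nonneg_right hB (by linarith)
  have hup2 : ∑ k : ι, ∑ t ∈ T.filter (fun t => ρ k t), Ps m N v l g t ^ 2 ≤
      (T.card : ℝ) * (1 / 8 * M + 1 / 8) :=
    hup.trans (mul_le_mul_of_nonneg_left (add_le_add hGb hE2) hT0.le)
  have hlow : (T.card : ℝ) * (M - 1 / 8) ≤ ∑ t ∈ T, Ps m N v l g t ^ 2 :=
    (mul_le_mul_of_nonneg_left (by linarith) hT0.le).trans hsec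
  have hfin : (T.card : ℝ) * (M - 1 / 8) ≤ (T.card : ℝ) * (1 / 8 * M + 1 / 8) :=
    hlow.trans (hsplit.trans hup2)
  have := le_of_mul_le_mul_left hfin hT0
  linarith

end H82LX
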