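import Pool.Agent.H82.LX.Syu
import Pool.Agent.H69.PG.H2v

/-!
# H2U: the second hypothesis of the abstract theorem, with an absolute constant

(The same as `h2v` in `Pool/Agent/H69/PG/H2v.lean` with `euu` instead of `elu`: copy its proof as far as possible.)
As in `H1u.lean`, with the set `U = insert k (sp n ∪ sp n')`, `k ∉ sp n ∪ sp n'`, `|U| ≤ 2N + 1 = J0`; at the coordinate `k` the factor is `bA = th0 * be = th0 * Fn (DB Q R) (fB Q R)` (`fB_be`), with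
`A1 = Γ³ ≤ 4 Γ^5`, `A2 = R²` (`fB_sum`, `fB_p`, `fB_abs`, `fB_good`) and `SS = 1/GG Q R` (`fB_one`). Main term for `n = n'`: `T VV_|insert k (sp n)| (1/GG) ∏_{i ∈ sp n} s(n_i)`. Error:
`T VV_j (e^(-b0) + 9 (2N+1)^2/z) (4Γ^5)^j + z^(..) (4Γ²)^(j-1) R² ∏ Z(n_i) Z(n'_i)`, `j = |U| ≤ 2N + 1`.
-/

open Finset EG

namespace H82LX

open H69PG

theorem h2u : ∃ C1 : ℕ, ∀ (ι : Type) [Fintype ι] [DecidableEq ι] (C N m M K z Q0 T R b0 : ℕ) (Z : ℕ → ℕ) (v f0 : ℕ → ℝ)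
    (l Γ Pl η : ℝ) (c : ι → ℕ), C1 ≤ C → SysU C N m M K z Q0 T R b0 Z v f0 l Γ Pl η c →
    ∀ k : ι, ∀ n ∈ Cf ι m N v l, ∀ n' ∈ Cf ι m N v l, n k = 0 → n' k = 0 →
      |∑ t ∈ range T, (∏ i, (gA K z Q0 Z f0 c i (n i) t * gA K z Q0 Z f0 c i (n' i) t)) * bA K z Q0 R c k t -
          ((range T).card : ℝ) * (if n = n' then 1 / GG (primorial z) R *
            (Vf N K z (insert k (sp n)) * ∏ i, sA Z (primorial z) f0 (n i)) else 0)| ≤
        ((range T).card : ℝ) * (η * Vf N K z (insert k (sp n ∪ sp n'))) := by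
  classical
  obtain ⟨Ce, hCe1, hCe⟩ := euu
  refine ⟨Ce, ?_⟩
  intro ι _ _ C N m M K z Q0 T R b0 Z v f0 l Γ Pl η c hC h k n hn n' hn' hk hk'
  have hcn := (Finset.mem_filter.1 hn).2.1
  have hcn' := (Finset.mem_filter.1 hn').2.1
  have hK2 : 2 ≤ K := by have := h.hK; omega
  have hz1 : 1 ≤ z := by have := h.hKz; omega
  set Q := primorial z with hQ
  set U0 := sp n ∪ sp n' with hU0
  have hk0 : k ∉ U0 := by
    rw [hU0, Finset.mem_union]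
    simp [sp, hk, hk']
  have hout : ∀ i, i ∉ U0 → n i = 0 ∧ n' i = 0 := by
    intro i hi
    rw [hU0, Finset.mem_union] at hi
    simpa [sp] using hi
  have hin : ∀ i ∈ U0, ¬ (((n i : Fin (m + 1)) : ℕ) = 0 ∧ ((n' i : Fin (m + 1)) : ℕ) = 0) := by
    intro i hi hc
    rw [hU0, Finset.mem_union] at hi
    have h1 : n i = 0 := Fin.ext (by simpa using hc.1)
    have h2 : n' i = 0 := Fin.ext (by simpa using hc.2)
    rcases hi with hi | hi
    · simp [sp, h1] at hi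
    · simp [sp, h2] at hi
  have hU0c : U0.card ≤ 2 * N := (Finset.card_union_le _ _).trans (by omega)
  set U := insert k U0 with hU
  have hUc : U.card = U0.card + 1 := Finset.card_insert_of_notMem hk0
  have hUle : U.card ≤ 2 * N + 1 := by omega
  let D : ι → Finset ℕ := fun i => if i = k then DB Q R else DAB Z Q (n i) (n' i)
  let f : ι → ℕ → ℝ := fun i => if i = k then fB Q R else fAB Z Q (n i) (n' i)
  let A2 : ι → ℝ := fun i => if i = k then (R : ℝ) ^ 2 else 4 * Γ ^ 2 * ((Z (n i) : ℝ) * Z (n' i))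
  have hDk : D k = DB Q R := if_pos rfl
  have hfk : f k = fB Q R := if_pos rfl
  have hA2k : A2 k = (R : ℝ) ^ 2 := if_pos rfl
  have hne0 : ∀ i ∈ U0, i ≠ k := by
    rintro i hi rfl
    exact hk0 hi
  have hD0 : ∀ i ∈ U0, D i = DAB Z Q (n i) (n' i) := fun i hi => if_neg (hne0 i hi)
  have hf0 : ∀ i ∈ U0, f i = fAB Z Q (n i) (n' i) := fun i hi => if_neg (hne0 i hi)
  have hA20 : ∀ i ∈ U0, A2 i = 4 * Γ ^ 2 * ((Z (n i) : ℝ) * Z (n' i)) :=
    fun i hi => if_neg (hne0 i hi)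
  have hnm : ∀ i, ((n i : Fin (m + 1)) : ℕ) ≤ m := fun i => by have := (n i).2; omega
  have hnm' : ∀ i, ((n' i : Fin (m + 1)) : ℕ) ≤ m := fun i => by have := (n' i).2; omega
  have hΓ0 : 0 ≤ Γ := by linarith [h.Γ_one]
  have hΓ35 : Γ ^ 3 ≤ 4 * Γ ^ 5 := by
    have h1 : Γ ^ 3 ≤ Γ ^ 5 := pow_le_pow_right₀ h.Γ_one (by norm_num)
    have h2 : 0 ≤ Γ ^ 5 := by positivity
    linarith
  have hCb' : Ce * (2 * N + 1 + 1) ≤ b0 := (Nat.mul_le_mul hC (by omega)).trans h.hCb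
  have hel := hCe (2 * N + 1) b0 hCb' ι K z Q0 (by have := h.hK; omega) hK2 h.hKz c h.fm T U
    (by omega) D f (fun _ => 4 * Γ ^ 5) A2
    (by
      intro i hi
      rcases Finset.mem_insert.1 hi with rfl | hi
      · rw [hDk]; exact fB_good _ _
      · rw [hD0 i hi]; exact fAB_good _ _ _ _)
    (by
      intro i hi
      rcases Finset.mem_insert.1 hi with rfl | hi
      · rw [hDk, hfk]; exact (fB_sum h.R_pos h.ΓR).trans hΓ35
      · rw [hD0 i hi, hf0 i hi]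
        exact fAB_sum hz1 (h.ZM _ (hnm i)) (h.ZM _ (hnm' i)) h.hM (h.ΓZ _ (hnm i)) (h.ΓZ _ (hnm' i)))
    (by
      intro i hi p hp _
      rcases Finset.mem_insert.1 hi with rfl | hi
      · rw [hDk, hfk]
        exact (fB_p h.R_pos h.ΓR hp).trans (mul_le_mul_of_nonneg_left hΓ35 (by positivity))
      · rw [hD0 i hi, hf0 i hi]
        exact fAB_p hz1 (h.ZM _ (hnm i)) (h.ZM _ (hnm' i)) h.hM (h.ΓZ _ (hnm i)) (h.ΓZ _ (hnm' i)) hp)
    (by
      intro i hi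
      rcases Finset.mem_insert.1 hi with rfl | hi
      · rw [hDk, hfk, hA2k]; exact fB_abs h.R_pos
      · rw [hD0 i hi, hf0 i hi, hA20 i hi]
        exact fAB_abs hz1 (h.ZM _ (hnm i)) (h.ZM _ (hnm' i)) h.hM (h.ΓZ _ (hnm i)) (h.ΓZ _ (hnm' i)))
  -- the product formula
  set E : ℝ := ∏ i ∈ U0, (H2v_ff f0 (n i) * H2v_ff f0 (n' i)) with hE
  have hEabs : |E| ≤ 1 := by
    rw [hE, Finset.abs_prod]
    refine Finset.prod_le_one (fun i _ => abs_nonneg _) (fun i _ => ?_)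
    rw [abs_mul]
    exact mul_le_one₀ (H2v_ff_abs h.f0_le _) (abs_nonneg _) (H2v_ff_abs h.f0_le _)
  have hpt : ∀ t, (∏ i, (gA K z Q0 Z f0 c i (n i) t * gA K z Q0 Z f0 c i (n' i) t)) * bA K z Q0 R c k t =
      E * ∏ i ∈ U, (th0 K z (Q0 * t + c i) * Fn (D i) (f i) (Q0 * t + c i)) := by
    intro t
    have h1 : ∏ i, (gA K z Q0 Z f0 c i (n i) t * gA K z Q0 Z f0 c i (n' i) t) =
        ∏ i ∈ U0, (gA K z Q0 Z f0 c i (n i) t * gA K z Q0 Z f0 c i (n' i) t) := by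
      symm
      refine Finset.prod_subset (Finset.subset_univ _) (fun i _ hi => ?_)
      obtain ⟨h2, h3⟩ := hout i hi
      rw [h2, h3]
      simp [gA]
    have h2 : bA K z Q0 R c k t = th0 K z (Q0 * t + c k) * Fn (D k) (f k) (Q0 * t + c k) := by
      rw [hDk, hfk, fB_be]; rfl
    rw [h1, hU, Finset.prod_insert hk0, ← h2, hE]
    have h3 : ∏ i ∈ U0, (gA K z Q0 Z f0 c i (n i) t * gA K z Q0 Z f0 c i (n' i) t) =
        (∏ i ∈ U0, (H2v_ff f0 (n i) * H2v_ff f0 (n' i))) *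
          ∏ i ∈ U0, (th0 K z (Q0 * t + c i) * Fn (D i) (f i) (Q0 * t + c i)) := by
      rw [← Finset.prod_mul_distrib]
      refine Finset.prod_congr rfl fun i hi => ?_
      rw [H2v_prod h.Z0 h.Zm i _ _ t (hin i hi), hD0 i hi, hf0 i hi]
    rw [h3]
    ring
  simp_rw [hpt]
  rw [← Finset.mul_sum, Finset.card_range]
  set S := ∑ t ∈ range T, ∏ i ∈ U, (th0 K z (Q0 * t + c i) * Fn (D i) (f i) (Q0 * t + c i)) with hS
  set PS := ∏ i ∈ U, SS (D i) (f i) 1 with hPS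
  have hPS1 : PS = 1 / GG Q R * ∏ i ∈ U0, (if ((n i : Fin (m + 1)) : ℕ) = ((n' i : Fin (m + 1)) : ℕ) then wA Z Q (n i) else 0) := by
    rw [hPS, hU, Finset.prod_insert hk0, hDk, hfk, fB_one h.R_pos]
    congr 1
    refine Finset.prod_congr rfl fun i hi => ?_
    rw [hD0 i hi, hf0 i hi, fAB_one Q h.Z0 h.Zm]
  have hVfU : Vf N K z U = VV K z U.card := by
    unfold Vf
    rw [if_pos (by omega)]
  -- main term
  have hmain : (if n = n' then 1 / GG Q R * (Vf N K z (insert k (sp n)) * ∏ i, sA Z Q f0 (n i)) else 0) =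
      VV K z U.card * (E * PS) := by
    by_cases hnn : n = n'
    · rw [if_pos hnn]
      have hUn : U0 = sp n := by rw [hU0, ← hnn, Finset.union_self]
      have hUn' : insert k (sp n) = U := by rw [hU, hUn]
      rw [hUn', hVfU, hPS1, hE]
      have h1 : ∏ i, sA Z Q f0 (n i) = ∏ i ∈ U0, sA Z Q f0 (n i) := by
        symm
        refine Finset.prod_subset (Finset.subset_univ _) (fun i _ hi => ?_)
        rw [(hout i hi).1]
        simp [sA]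
      have h2 : ∏ i ∈ U0, sA Z Q f0 (n i) = (∏ i ∈ U0, (H2v_ff f0 (n i) * H2v_ff f0 (n' i))) *
          ∏ i ∈ U0, (if ((n i : Fin (m + 1)) : ℕ) = ((n' i : Fin (m + 1)) : ℕ) then wA Z Q (n i) else 0) := by
        rw [← Finset.prod_mul_distrib]
        refine Finset.prod_congr rfl fun i hi => ?_
        have h3 := hin i hi
        rw [← hnn] at h3 ⊢
        have h4 : ¬ ((n i : Fin (m + 1)) : ℕ) = 0 := fun e => h3 ⟨e, e⟩
        unfold sA H2v_ff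
        rw [if_neg h4, if_neg h4, if_pos rfl]
        ring
      rw [h1, h2]
      ring
    · rw [if_neg hnn]
      obtain ⟨i, hi⟩ := Function.ne_iff.1 hnn
      have hiU : i ∈ U0 := by
        by_contra hcon
        obtain ⟨h2, h3⟩ := hout i hcon
        exact hi (h2.trans h3.symm)
      have hz : ∏ i ∈ U0, (if ((n i : Fin (m + 1)) : ℕ) = ((n' i : Fin (m + 1)) : ℕ) then wA Z Q (n i) else 0) = 0 := by
        refine Finset.prod_eq_zero hiU ?_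
        rw [if_neg (fun e => hi (Fin.ext e))]
      rw [hPS1, hz]
      ring
  rw [hmain]
  have hVpos : 0 < VV K z U.card := vv_pos (by have := h.hK; omega)
  have hVpos' : 0 < VV K z (2 * N + 1) := vv_pos (by have := h.hK; omega)
  have hVle : VV K z (2 * N + 1) ≤ VV K z U.card := vv_anti hUle (by have := h.hK; omega)
  have hTpos : (0 : ℝ) < T := by exact_mod_cast h.T_pos
  have hzpos : (0 : ℝ) < z := by exact_mod_cast hz1
  have e1 : E * S - (T : ℝ) * (VV K z U.card * (E * PS)) = E * (S - (T : ℝ) * VV K z U.card * PS) := by ring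
  rw [e1, abs_mul]
  have hstep : |E| * |S - (T : ℝ) * VV K z U.card * PS| ≤ 1 * |S - (T : ℝ) * VV K z U.card * PS| :=
    mul_le_mul_of_nonneg_right hEabs (abs_nonneg _)
  rw [one_mul] at hstep
  refine hstep.trans (hel.trans ?_)
  rw [hVfU]
  have hb1 : ∏ i ∈ U, (4 * Γ ^ 5) ≤ (4 * Γ ^ 5) ^ (2 * N + 1) := by
    rw [Finset.prod_const]
    exact pow_le_pow_right₀ (by
      have : (1 : ℝ) ≤ Γ ^ 5 := one_le_pow₀ h.Γ_one
      linarith) hUle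
  have hZprod : ∀ q ∈ Cf ι m N v l, (∀ i, i ∉ U0 → q i = 0) → ∏ i ∈ U0, (Z (q i) : ℝ) ≤ Pl := by
    intro q hq hq0
    have h1 : ∏ i ∈ U0, (Z (q i) : ℝ) = ∏ i, (Z (q i) : ℝ) := by
      refine Finset.prod_subset (Finset.subset_univ _) (fun i _ hi => ?_)
      rw [hq0 i hi]
      simp [h.Z0]
    rw [h1]
    exact h.hPl q hq
  have hb3 : ∏ i ∈ U, A2 i ≤ (4 * Γ ^ 2) ^ (2 * N + 1) * (Pl ^ 2 * (R : ℝ) ^ 2) := by
    have hsplit : ∏ i ∈ U0, (4 * Γ ^ 2 * ((Z (n i) : ℝ) * Z (n' i))) =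
        (4 * Γ ^ 2) ^ U0.card * ((∏ i ∈ U0, (Z (n i) : ℝ)) * (∏ i ∈ U0, (Z (n' i) : ℝ))) := by
      rw [← Finset.prod_const, ← Finset.prod_mul_distrib, ← Finset.prod_mul_distrib]
    rw [hU, Finset.prod_insert hk0, hA2k, Finset.prod_congr rfl hA20, hsplit]
    have h1 := hZprod n hn (fun i hi => (hout i hi).1)
    have h2 := hZprod n' hn' (fun i hi => (hout i hi).2)
    have h0 : (0 : ℝ) ≤ ∏ i ∈ U0, (Z (n i) : ℝ) := Finset.prod_nonneg fun i _ => Nat.cast_nonneg _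
    have h0' : (0 : ℝ) ≤ ∏ i ∈ U0, (Z (n' i) : ℝ) := Finset.prod_nonneg fun i _ => Nat.cast_nonneg _
    have h3 : (4 * Γ ^ 2) ^ U0.card ≤ (4 * Γ ^ 2) ^ (2 * N + 1) :=
      pow_le_pow_right₀ (by
        have : (1 : ℝ) ≤ Γ ^ 2 := one_le_pow₀ h.Γ_one
        linarith) (by omega)
    have h4 : (∏ i ∈ U0, (Z (n i) : ℝ)) * (∏ i ∈ U0, (Z (n' i) : ℝ)) ≤ Pl * Pl :=
      mul_le_mul h1 h2 h0' (by linarith [h.Pl_one])
    have h5 : (4 * Γ ^ 2) ^ U0.card * ((∏ i ∈ U0, (Z (n i) : ℝ)) * (∏ i ∈ U0, (Z (n' i) : ℝ))) ≤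
        (4 * Γ ^ 2) ^ (2 * N + 1) * (Pl * Pl) :=
      mul_le_mul h3 h4 (mul_nonneg h0 h0') (by positivity)
    have h6 := mul_le_mul_of_nonneg_left h5 (sq_nonneg (R : ℝ))
    calc (R : ℝ) ^ 2 * ((4 * Γ ^ 2) ^ U0.card * ((∏ i ∈ U0, (Z (n i) : ℝ)) * (∏ i ∈ U0, (Z (n' i) : ℝ))))
        ≤ (R : ℝ) ^ 2 * ((4 * Γ ^ 2) ^ (2 * N + 1) * (Pl * Pl)) := h6
      _ = _ := by ring
  have hTV : 0 < (T : ℝ) * VV K z U.card := mul_pos hTpos hVpos
  have hcast : (((2 * N + 1 : ℕ) : ℕ) : ℝ) = 2 * (N : ℝ) + 1 := by push_cast; ring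
  have hA : (Real.exp (-(b0 : ℝ)) + 9 * (((2 * N + 1 : ℕ) : ℕ) : ℝ) ^ 2 / z) * ∏ i ∈ U, (4 * Γ ^ 5) ≤
      (Real.exp (-(b0 : ℝ)) + 9 * (2 * (N : ℝ) + 1) ^ 2 / z) * (4 * Γ ^ 5) ^ (2 * N + 1) := by
    rw [hcast]
    exact mul_le_mul_of_nonneg_left hb1 (by positivity)
  have hB : (z : ℝ) ^ (3 * (4 * b0 + 10)) * ∏ i ∈ U, A2 i ≤ (T : ℝ) * VV K z U.card *
      ((z : ℝ) ^ (3 * (4 * b0 + 10)) * (4 * Γ ^ 2) ^ (2 * N + 1) * (Pl ^ 2 * (R : ℝ) ^ 2) /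
        (T * VV K z (2 * N + 1))) := by
    set W := (z : ℝ) ^ (3 * (4 * b0 + 10)) * (4 * Γ ^ 2) ^ (2 * N + 1) * (Pl ^ 2 * (R : ℝ) ^ 2) with hW
    have hW0 : 0 ≤ W := by positivity
    have h1 : (z : ℝ) ^ (3 * (4 * b0 + 10)) * ∏ i ∈ U, A2 i ≤ W := by
      rw [hW, mul_assoc]
      exact mul_le_mul_of_nonneg_left hb3 (by positivity)
    refine h1.trans ?_
    rw [mul_div_assoc', le_div_iff₀ (mul_pos hTpos hVpos')]
    have h2 : (T : ℝ) * VV K z (2 * N + 1) ≤ (T : ℝ) * VV K z U.card :=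
      mul_le_mul_of_nonneg_left hVle hTpos.le
    calc W * ((T : ℝ) * VV K z (2 * N + 1)) ≤ W * ((T : ℝ) * VV K z U.card) :=
          mul_le_mul_of_nonneg_left h2 hW0
      _ = _ := by ring
  have hA' := mul_le_mul_of_nonneg_left hA hTV.le
  have hη := mul_le_mul_of_nonneg_left h.hη hTV.le
  calc (T : ℝ) * VV K z U.card * ((Real.exp (-(b0 : ℝ)) + 9 * (((2 * N + 1 : ℕ) : ℕ) : ℝ) ^ 2 / z) *
          ∏ i ∈ U, (4 * Γ ^ 5)) + (z : ℝ) ^ (3 * (4 * b0 + 10)) * ∏ i ∈ U, A2 i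
      ≤ (T : ℝ) * VV K z U.card * ((Real.exp (-(b0 : ℝ)) + 9 * (2 * (N : ℝ) + 1) ^ 2 / z) *
          (4 * Γ ^ 5) ^ (2 * N + 1)) + (T : ℝ) * VV K z U.card *
      ((z : ℝ) ^ (3 * (4 * b0 + 10)) * (4 * Γ ^ 2) ^ (2 * N + 1) * (Pl ^ 2 * (R : ℝ) ^ 2) /
        (T * VV K z (2 * N + 1))) := add_le_add hA' hB
    _ = (T : ℝ) * VV K z U.card * ((Real.exp (-(b0 : ℝ)) + 9 * (2 * (N : ℝ) + 1) ^ 2 / z) *
          (4 * Γ ^ 5) ^ (2 * N + 1) +
    (z : ℝ) ^ (3 * (4 * b0 + 10)) * (4 * Γ ^ 2) ^ (2 * N + 1) * (Pl ^ 2 * (R : ℝ) ^ 2) / (T * VV K z (2 * N + 1))) := by ring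
    _ ≤ (T : ℝ) * VV K z U.card * η := hη
    _ = (T : ℝ) * (η * VV K z U.card) := by ring

end H82LX
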