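import Pool.Agent.H82.LX.Ab2
import Pool.Agent.H82.LX.H1u
import Pool.Agent.H82.LX.H2u
import Pool.Agent.H69.PG.H4v

/-!
# COU: the abstract theorem applied to linear forms, with an absolute constant

(Compare `coA` in `Pool/Agent/H69/PG/CoA.lean`.)
`ab2` with `T = range T` (not empty, `T ≥ 1`), `V = Vf N K z`, `μ = card ι * VV K z 1` (`vh` in `Pool/Agent/H69/PG/H4v.lean` gives `Vh (Vf N K z) μ (4 N)`, and `2 N + 1 ≤ 4 N`: shrink the index, `Abs_vh` in `Abs.lean` or directly),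
`s = sA Z Q f0`, `q a = f0 a * wA Z Q a`, `g = gA`, `β = bA`, `ρ i t` = no prime `p ≤ y` divides `Q0 t + c i` (`rough` in `H4v.lean`), `G = 1/GG Q R`. `C1` = the maximum of the constants of `h1u`, `h2u`.
(`sA ≥ 0` by `wA_nonneg`; `sA 0 = 1`; on `Icc 1 m` `sA a = f0 a ^ 2 * wA a`; `η ≥ 0` by `hη` (all terms on its left are `≥ 0`, `vv_pos`); `bA ≥ 0` is `th0` times a square; `gA` is `1` for `a = 0`; `GG ≥ 0`.)
-/

open Finset EG

namespace H82LX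

open H69PG

theorem CoU_th (K z L : ℕ) : th0 K z L = 0 ∨ th0 K z L = 1 := by
  classical
  unfold th0
  split_ifs
  · exact Or.inr rfl
  · exact Or.inl rfl

theorem CoU_GG (Q R : ℕ) : 0 ≤ GG Q R := by
  unfold GG
  exact Finset.sum_nonneg fun r _ => by positivity

theorem CoU_bA {ι : Type} (K z Q0 R : ℕ) (c : ι → ℕ) (i : ι) (t : ℕ) : 0 ≤ bA K z Q0 R c i t := by
  unfold bA be
  rcases CoU_th K z (Q0 * t + c i) with h | h <;> rw [h]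
  · simp
  · rw [one_mul]
    exact sq_nonneg _

theorem CoU_eta {ι : Type} [Fintype ι] [DecidableEq ι] {C N m M K z Q0 T R b0 : ℕ} {Z : ℕ → ℕ}
    {v f0 : ℕ → ℝ} {l Γ Pl η : ℝ} {c : ι → ℕ} (h : SysU C N m M K z Q0 T R b0 Z v f0 l Γ Pl η c) :
    0 ≤ η := by
  refine le_trans ?_ h.hη
  have h1 := h.Γ_one
  have h2 := h.Pl_one
  have h3 : 0 < VV K z (2 * N + 1) := vv_pos (by have := h.hK; omega)
  have h4 : 0 ≤ Γ := by linarith
  have h5 : 0 ≤ Pl := by linarith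
  positivity

theorem coU : ∃ C1 : ℕ, ∀ (ι : Type) [Fintype ι] [DecidableEq ι] (C N m M K z Q0 T R b0 y : ℕ) (Z : ℕ → ℕ) (v f0 : ℕ → ℝ)
    (l vm τ Γ Pl η : ℝ) (c : ι → ℕ), C1 ≤ C → SysU C N m M K z Q0 T R b0 Z v f0 l Γ Pl η c →
    (∀ a, 0 ≤ v a) → v 0 = 0 → (∀ a ∈ Icc 1 m, v a ≤ vm) → (∀ a ∈ Icc 1 m, l ≤ N * v a) → 0 ≤ l → 0 ≤ τ →
    (∀ a, 0 ≤ f0 a) → ∑ a ∈ Icc 1 m, f0 a * wA Z (primorial z) a = 1 →
    R ≤ y → z ≤ y → (∀ a ≤ m, Z a ≤ y) →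
    η * ((2 * (N : ℝ) + 1) * (1 + ((m : ℝ) + 1) ^ 2 * ((Fintype.card ι : ℝ) * VV K z 1)) ^ (2 * N + 1)) ≤ 1 / 8 →
    1 / GG (primorial z) R * (((Fintype.card ι : ℝ) * VV K z 1) *
      Real.exp (((Fintype.card ι : ℝ) * VV K z 1) *
        (∑ a ∈ Icc 1 m, f0 a ^ 2 * wA Z (primorial z) a * (Real.exp (τ * v a) - 1)) - τ * (l - vm))) ≤ 1 / 8 →
    ∃ t < T, ∀ i, ∃ p : ℕ, p.Prime ∧ p ≤ y ∧ p ∣ Q0 * t + c i := by
  classical
  obtain ⟨c1, hc1⟩ := h1u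
  obtain ⟨c2, hc2⟩ := h2u
  refine ⟨max c1 c2, ?_⟩
  intro ι _ _ C N m M K z Q0 T R b0 y Z v f0 l vm τ Γ Pl η c hC hS hv hv0 hvm hNv hl0 hτ hf0 hq1 hRy hzy
    hZy hE2 hB
  have hC1 : c1 ≤ C := le_trans (le_max_left _ _) hC
  have hC2 : c2 ≤ C := le_trans (le_max_right _ _) hC
  have hK := hS.hK
  have hN := hS.N_pos
  have hη := CoU_eta hS
  have hμ : 0 ≤ (Fintype.card ι : ℝ) * VV K z 1 :=
    mul_nonneg (Nat.cast_nonneg _) (vv_pos (by omega)).le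
  have hs0 : ∀ a, 0 ≤ sA Z (primorial z) f0 a := by
    intro a
    unfold sA
    split_ifs
    · exact zero_le_one
    · exact mul_nonneg (sq_nonneg _) (wA_nonneg _ hS.Zm a)
  have hsum1 : ∑ a ∈ Icc 1 m, sA Z (primorial z) f0 a * (Real.exp (τ * v a) - 1) =
      ∑ a ∈ Icc 1 m, f0 a ^ 2 * wA Z (primorial z) a * (Real.exp (τ * v a) - 1) := by
    refine Finset.sum_congr rfl fun a ha => ?_
    unfold sA
    rw [if_neg (by have := (Finset.mem_Icc.1 ha).1; omega)]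
  have hE1 : η * (1 + ((m : ℝ) + 1) ^ 2 * ((Fintype.card ι : ℝ) * VV K z 1)) ^ (2 * N) ≤ 1 / 8 := by
    refine le_trans (mul_le_mul_of_nonneg_left ?_ hη) hE2
    have hb : (1 : ℝ) ≤ 1 + ((m : ℝ) + 1) ^ 2 * ((Fintype.card ι : ℝ) * VV K z 1) := by
      have : 0 ≤ ((m : ℝ) + 1) ^ 2 * ((Fintype.card ι : ℝ) * VV K z 1) := mul_nonneg (sq_nonneg _) hμ
      linarith
    set b : ℝ := 1 + ((m : ℝ) + 1) ^ 2 * ((Fintype.card ι : ℝ) * VV K z 1) with hbdef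
    have h1 : b ^ (2 * N) ≤ b ^ (2 * N + 1) := pow_le_pow_right₀ hb (by omega)
    have h2 : (0 : ℝ) ≤ b ^ (2 * N + 1) := by positivity
    have h3 : (1 : ℝ) ≤ 2 * (N : ℝ) + 1 := by
      have : (0 : ℝ) ≤ N := Nat.cast_nonneg _
      linarith
    nlinarith
  have hres := ab2 (ι := ι) (m := m) (N := N) hN (v := v) (l := l) (vm := vm) (τ := τ)
    (V := Vf N K z) (μ := (Fintype.card ι : ℝ) * VV K z 1) (Abs_vh (vh hK) (by omega : 2 * N + 1 ≤ 4 * N))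
    (s := sA Z (primorial z) f0) (q := fun a => f0 a * wA Z (primorial z) a)
    hs0 (by unfold sA; simp) hv hv0 hvm hNv hl0 hτ
    (fun a => mul_nonneg (hf0 a) (wA_nonneg _ hS.Zm a)) hq1
    (T := range T) (Finset.nonempty_range_iff.2 (by have := hS.T_pos; omega))
    (g := gA K z Q0 Z f0 c) (β := bA K z Q0 R c)
    (ρ := fun i t => ∀ p : ℕ, p.Prime → p ≤ y → ¬ p ∣ Q0 * t + c i)
    (η := η) (G := 1 / GG (primorial z) R)
    hη (by have := CoU_GG (primorial z) R; positivity)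
    (fun i t => by unfold gA; simp)
    (fun i t => CoU_bA K z Q0 R c i t)
    (fun i t _ hr => rough hS.Z0 hS.Zm hS.R_pos hRy hzy hZy hr)
    (hc1 ι C N m M K z Q0 T R b0 Z v f0 l Γ Pl η c hC1 hS)
    (hc2 ι C N m M K z Q0 T R b0 Z v f0 l Γ Pl η c hC2 hS)
    hE1 hE2 (by rw [hsum1]; exact hB)
  obtain ⟨t, ht, h⟩ := hres
  refine ⟨t, Finset.mem_range.1 ht, fun i => ?_⟩
  have hi := h i
  push Not at hi
  exact hi

end H82LX
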