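import Pool.Agent.H82.LX.Euu
import Pool.Agent.H82.LX.Fpb
import Pool.Agent.H69.PG.VVf
import Pool.Agent.H69.PG.Ggb

/-!
# The assumptions on the parameters, uniform version (`C` will be an absolute constant)
-/

open Finset EG

namespace H82LX

open H69PG

/-- the parameters and their relations -/
structure SysU {ι : Type} [Fintype ι] [DecidableEq ι] (C N m M K z Q0 T R b0 : ℕ) (Z : ℕ → ℕ) (v f0 : ℕ → ℝ) (l Γ Pl η : ℝ)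
    (c : ι → ℕ) : Prop where
  fm : Fm K Q0 c
  N_pos : 1 ≤ N
  hK : 8 * N + 8 ≤ K
  hKz : K ≤ z
  hCb : C * (2 * N + 2) ≤ b0
  Z0 : Z 0 = 1
  Zm : Monotone Z
  ZM : ∀ a ≤ m, Z a ≤ z ^ M
  RM : R ≤ z ^ M
  R_pos : 1 ≤ R
  hM : 2 * M ≤ z
  T_pos : 1 ≤ T
  Γ_one : 1 ≤ Γ
  ΓZ : ∀ a ≤ m, GG (primorial z) (Z a) ≤ Γ
  ΓR : GG (primorial z) R ≤ Γ
  f0_le : ∀ a, |f0 a| ≤ 1
  Pl_one : 1 ≤ Pl
  hPl : ∀ n ∈ Cf ι m N v l, ∏ i, (Z (n i) : ℝ) ≤ Pl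
  hη : (Real.exp (-(b0 : ℝ)) + 9 * (2 * (N : ℝ) + 1) ^ 2 / z) * (4 * Γ ^ 5) ^ (2 * N + 1) +
    (z : ℝ) ^ (3 * (4 * b0 + 10)) * (4 * Γ ^ 2) ^ (2 * N + 1) * (Pl ^ 2 * (R : ℝ) ^ 2) / (T * VV K z (2 * N + 1)) ≤ η

end H82LX
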