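import Pool.Agent.H82.LX.Ab4
import Pool.Agent.H82.LX.H4u
import Pool.Agent.H82.LX.CoU

/-!
# COV: the counting form of the abstract theorem applied to linear forms, with an absolute constant

`coU` (`CoU.lean`) with `ab4` instead of `ab2`.
-/

open Finset EG

namespace H82LX

open H69PG

open Classical in
theorem coV : ∃ C1 : ℕ, ∀ (ι : Type) [Fintype ι] [DecidableEq ι] (C N m M M' K z Q0 T R b0 y : ℕ) (Z : ℕ → ℕ) (v f0 : ℕ → ℝ)
    (l vm τ Γ Pl η : ℝ) (c : ι → ℕ), C1 ≤ C → SysU C N m M K z Q0 T R b0 Z v f0 l Γ Pl η c →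
    C1 * (4 * N + 1) ≤ b0 →
    Real.exp (-(b0 : ℝ)) + 9 * (4 * (N : ℝ)) ^ 2 / z + (z : ℝ) ^ (3 * (4 * b0 + 10)) / (T * VV K z (4 * N)) ≤ 1 →
    (∀ a, 0 ≤ v a) → v 0 = 0 → (∀ a ∈ Icc 1 m, v a ≤ vm) → (∀ a ∈ Icc 1 m, l ≤ N * v a) → 0 ≤ l → 0 ≤ τ →
    (∀ a, 0 ≤ f0 a) → ∑ a ∈ Icc 1 m, f0 a * wA Z (primorial z) a = 1 →
    R ≤ y → z ≤ y → (∀ a ≤ m, Z a ≤ y) → (∀ i, ∀ t < T, Q0 * t + c i ≤ z ^ M') →
    η * ((2 * (N : ℝ) + 1) * (1 + ((m : ℝ) + 1) ^ 2 * ((Fintype.card ι : ℝ) * VV K z 1)) ^ (2 * N + 1)) ≤ 1 / 8 →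
    1 / GG (primorial z) R * (((Fintype.card ι : ℝ) * VV K z 1) *
      Real.exp (((Fintype.card ι : ℝ) * VV K z 1) *
        (∑ a ∈ Icc 1 m, f0 a ^ 2 * wA Z (primorial z) a * (Real.exp (τ * v a) - 1)) - τ * (l - vm))) ≤ 1 / 8 →
    (T : ℝ) ≤ 4 * ((1 + m * (2 * Γ * 2 ^ M')) ^ (4 * N) * ((4 * N).factorial : ℝ) * 2 ^ (4 * N + 1) *
        (1 + (Fintype.card ι : ℝ) * VV K z 1) ^ (4 * N)) *
      (((range T).filter (fun t => ∀ i, ∃ p : ℕ, p.Prime ∧ p ≤ y ∧ p ∣ Q0 * t + c i)).card : ℝ) := by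
  obtain ⟨c1, hc1⟩ := h1u
  obtain ⟨c2, hc2⟩ := h2u
  obtain ⟨c4, hc4⟩ := h4u
  refine ⟨max c1 (max c2 c4), ?_⟩
  intro ι _ _ C N m M M' K z Q0 T R b0 y Z v f0 l vm τ Γ Pl η c hC hS hCb4 hη4 hv hv0 hvm hNv hl0 hτ hf0 hq1 hRy hzy
    hZy hLz hE2 hB
  have hC1 : c1 ≤ C := le_trans (le_max_left _ _) hC
  have hC2 : c2 ≤ C := le_trans (le_trans (le_max_left _ _) (le_max_right _ _)) hC
  have hC4 : c4 * (4 * N + 1) ≤ b0 :=
    le_trans (Nat.mul_le_mul_right _ (le_trans (le_max_right _ _) (le_max_right _ _))) hCb4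
  have hK := hS.hK
  have hKz := hS.hKz
  have hN := hS.N_pos
  have hη := CoU_eta hS
  have hμ : 0 ≤ (Fintype.card ι : ℝ) * VV K z 1 :=
    mul_nonneg (Nat.cast_nonneg _) (vv_pos (by omega)).le
  have hs0 : ∀ a, 0 ≤ sA Z (primorial z) f0 a := by
    intro a
    unfold sA
    split_ifs
    · exact zero_le_one
    · exact mul_nonneg (sq_nonneg _) (wA_nonneg _ hS.Zm a)
  have hsum1 : ∑ a ∈ Icc 1 m, sA Z (primorial z) f0 a * (Real.exp (τ * v a) - 1) =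
      ∑ a ∈ Icc 1 m, f0 a ^ 2 * wA Z (primorial z) a * (Real.exp (τ * v a) - 1) := by
    refine Finset.sum_congr rfl fun a ha => ?_
    unfold sA
    rw [if_neg (by have := (Finset.mem_Icc.1 ha).1; omega)]
  have hE1 : η * (1 + ((m : ℝ) + 1) ^ 2 * ((Fintype.card ι : ℝ) * VV K z 1)) ^ (2 * N) ≤ 1 / 8 := by
    refine le_trans (mul_le_mul_of_nonneg_left ?_ hη) hE2
    have hb : (1 : ℝ) ≤ 1 + ((m : ℝ) + 1) ^ 2 * ((Fintype.card ι : ℝ) * VV K z 1) := by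
      have : 0 ≤ ((m : ℝ) + 1) ^ 2 * ((Fintype.card ι : ℝ) * VV K z 1) := mul_nonneg (sq_nonneg _) hμ
      linarith
    set b : ℝ := 1 + ((m : ℝ) + 1) ^ 2 * ((Fintype.card ι : ℝ) * VV K z 1) with hbdef
    have h1 : b ^ (2 * N) ≤ b ^ (2 * N + 1) := pow_le_pow_right₀ hb (by omega)
    have h2 : (0 : ℝ) ≤ b ^ (2 * N + 1) := by positivity
    have h3 : (1 : ℝ) ≤ 2 * (N : ℝ) + 1 := by
      have : (0 : ℝ) ≤ N := Nat.cast_nonneg _
      linarith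
    nlinarith
  have hC0 : (1 : ℝ) ≤ 2 * Γ * 2 ^ M' := by
    have h1 := hS.Γ_one
    have h2 : (1 : ℝ) ≤ 2 ^ M' := one_le_pow₀ (by norm_num)
    nlinarith
  have hres := ab4 (ι := ι) (m := m) (N := N) hN (v := v) (l := l) (vm := vm) (τ := τ)
    (V := Vf N K z) (μ := (Fintype.card ι : ℝ) * VV K z 1) (vh hK)
    (s := sA Z (primorial z) f0) (q := fun a => f0 a * wA Z (primorial z) a)
    hs0 (by unfold sA; simp) hv hv0 hvm hNv hl0 hτ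
    (fun a => mul_nonneg (hf0 a) (wA_nonneg _ hS.Zm a)) hq1
    (T := range T) (g := gA K z Q0 Z f0 c) (β := bA K z Q0 R c)
    (th := fun i t => th0 K z (Q0 * t + c i))
    (ρ := fun i t => ∀ p : ℕ, p.Prime → p ≤ y → ¬ p ∣ Q0 * t + c i)
    (η := η) (G := 1 / GG (primorial z) R) (C0 := 2 * Γ * 2 ^ M')
    hη (by have := CoU_GG (primorial z) R; positivity) hC0
    (fun i t => by unfold gA; simp)
    (fun i t => CoU_bA K z Q0 R c i t)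
    (fun i t => CoU_th K z _)
    (fun i t ht a ha => gA_abs (M := M) (M' := M') (by omega) hS.hM hS.Γ_one hS.ZM hS.ΓZ hS.f0_le
      (by have := hS.fm.cpos i; omega) (hLz i t (Finset.mem_range.1 ht)) ha)
    (fun i t _ hr => rough hS.Z0 hS.Zm hS.R_pos hRy hzy hZy hr)
    (hc1 ι C N m M K z Q0 T R b0 Z v f0 l Γ Pl η c hC1 hS)
    (hc2 ι C N m M K z Q0 T R b0 Z v f0 l Γ Pl η c hC2 hS)
    (hc4 ι C N m M K z Q0 T R b0 Z v f0 l Γ Pl η c hS hC4 hη4)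
    hE1 hE2 (by rw [hsum1]; exact hB)
  rw [Finset.card_range] at hres
  refine hres.trans (le_of_eq ?_)
  congr 3
  ext t
  simp only [Finset.mem_filter, Finset.mem_range]
  refine and_congr_right fun _ => forall_congr' fun i => ?_
  push Not
  rfl

end H82LX
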