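import Pool.Agent.H82.LX.CoV
import Pool.Agent.H82.LX.Cor
import Pool.Agent.H82.LX.Epv

/-!
# CRV: the core theorem in counting form, uniform in the number `m` of scales

As `core` (`Cor.lean`) with `coV` instead of `coU`, for all `m` with `B^(16 m) ≤ log x`: `N = B^(2m)`, `ε = 1/N²`, and `card ι * log K ≤ c0 m log x`.
The number of good `t` is at least `T exp(-N^4)`.
-/

open Finset EG

namespace H82LX

open H69PG

theorem Crv_K {n H : ℝ} {A : ℕ} (hn : 1 ≤ n) (hA : 16 * (A : ℝ) ≤ n) (hH : n ^ 8 ≤ H) :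
    (A : ℝ) * Real.log H ≤ 1 / n ^ 2 / 2 * H := by
  have hn0 : 0 < n := by linarith
  have hH0 : 0 < H := lt_of_lt_of_le (by positivity) hH
  obtain ⟨u, hu⟩ : ∃ u : ℝ, u = H ^ (1 / 8 : ℝ) := ⟨_, rfl⟩
  have hu0 : 0 < u := by rw [hu]; positivity
  have hu8 : u ^ 8 = H := by
    rw [hu, ← Real.rpow_natCast, ← Real.rpow_mul hH0.le]
    norm_num
  have hnu : n ≤ u := by
    by_contra hcon
    push Not at hcon
    have : u ^ 8 < n ^ 8 := pow_lt_pow_left₀ hcon hu0.le (by norm_num)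
    rw [hu8] at this
    linarith
  have hu1 : 1 ≤ u := hn.trans hnu
  have h2 : Real.log u ≤ u := (Real.log_le_sub_one_of_pos hu0).trans (by linarith)
  have h3 : Real.log H = 8 * Real.log u := by
    rw [← hu8, Real.log_pow]
    norm_num
  have hA0 : (0 : ℝ) ≤ A := Nat.cast_nonneg A
  have h4 : (A : ℝ) * Real.log H ≤ u / 16 * (8 * u) := by
    rw [h3]
    exact mul_le_mul (by linarith) (by linarith) (mul_nonneg (by norm_num) (Real.log_nonneg hu1)) (by positivity)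
  have h5 : 1 / u ^ 2 / 2 * H ≤ 1 / n ^ 2 / 2 * H := by
    have e1 : n ^ 2 ≤ u ^ 2 := pow_le_pow_left₀ hn0.le hnu 2
    have e2 : 1 / u ^ 2 ≤ 1 / n ^ 2 := one_div_le_one_div_of_le (by positivity) e1
    exact mul_le_mul_of_nonneg_right (by linarith) hH0.le
  have h6 : 1 / u ^ 2 / 2 * H = u ^ 6 / 2 := by
    rw [← hu8]
    field_simp
  have h7 : u ^ 2 ≤ u ^ 6 := pow_le_pow_right₀ hu1 (by norm_num)
  calc (A : ℝ) * Real.log H ≤ u / 16 * (8 * u) := h4
    _ = u ^ 2 / 2 := by ring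
    _ ≤ u ^ 6 / 2 := by linarith
    _ ≤ 1 / n ^ 2 / 2 * H := by rw [← h6]; exact h5

open Classical in
theorem corV (A : ℕ) (hA : 1 ≤ A) {r : ℝ} (hr : 0 < r) (hr1 : r ≤ 1 / 16) : ∃ c0 : ℝ, 0 < c0 ∧ ∃ C0 : ℝ, 1 ≤ C0 ∧
    ∃ m0 : ℕ, ∀ m : ℕ, m0 ≤ m → ∀ x : ℝ, 1 ≤ x → Real.exp (C0 * m) ≤ Real.log x →
    ∀ (ι : Type) [Fintype ι] [DecidableEq ι] (K Q0 T : ℕ) (cc : ι → ℕ),
      Real.exp (C0 * m) ≤ K → (K : ℝ) ≤ Real.log x ^ A → Fm K Q0 cc →
      (Fintype.card ι : ℝ) * Real.log K ≤ c0 * m * Real.log x →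
      x ^ (7 / 10 : ℝ) ≤ T → (∀ i, ∀ t < T, ((Q0 * t + cc i : ℕ) : ℝ) ≤ x ^ A) →
      (T : ℝ) ≤ Real.exp (Real.exp (C0 * m)) *
        (((range T).filter (fun t => ∀ i, ∃ p : ℕ, p.Prime ∧ (p : ℝ) ≤ x ^ r ∧ p ∣ Q0 * t + cc i)).card : ℝ) := by
  obtain ⟨D, hD, hwbu⟩ := wbu
  obtain ⟨C, hco⟩ := coV
  obtain ⟨C2, hC2, hvv1⟩ := vv1
  obtain ⟨C3, hC3, hvvl⟩ := vv_low
  obtain ⟨N1, hepu⟩ := epv hD hC3
  obtain ⟨N2, hepv2⟩ := epv2 hC3
  obtain ⟨N3, hepv3⟩ := epv3 hD A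
  obtain ⟨m1, hnum2⟩ := num2
  have hD0 : 0 < D := by linarith
  have hC20 : 0 < C2 := by linarith
  obtain ⟨B, hB16, hB8⟩ : ∃ B : ℕ, 16 ≤ B ∧ 8 * D ^ 2 ≤ (B : ℝ) := by
    refine ⟨⌈8 * D ^ 2⌉₊ + 16, by omega, ?_⟩
    push_cast
    linarith [Nat.le_ceil (8 * D ^ 2)]
  have hBr : (16 : ℝ) ≤ B := by exact_mod_cast hB16
  have hB0 : (0 : ℝ) < B := by linarith
  have hlB : 0 < Real.log B := Real.log_pos (by linarith)
  have hlB1 : 1 ≤ Real.log B := by
    rw [Real.le_log_iff_exp_le hB0]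
    linarith [Real.exp_one_lt_d9]
  have hAr : (1 : ℝ) ≤ A := by exact_mod_cast hA
  obtain ⟨rr, hrr⟩ : ∃ n : ℕ, 2 / r ≤ (n : ℝ) := ⟨⌈2 / r⌉₊, Nat.le_ceil _⟩
  refine ⟨r / (512 * D * C2), by positivity, 16 * Real.log B, by linarith,
    N1 + N2 + N3 + m1 + 8 + 300 * C + 18 * A + rr + ⌈4 * D⌉₊, ?_⟩
  intro m hm x hx1 hBx ι _ _ K Q0 T cc hK1 hK2 hFm hcard hT hLx
  have hx0 : 0 < x := by linarith
  have hexp : Real.exp (16 * Real.log B * m) = (B : ℝ) ^ (16 * m) := by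
    have h := Real.exp_nat_mul (Real.log B) (16 * m)
    rw [Real.exp_log hB0] at h
    rw [← h]
    congr 1
    push_cast
    ring
  rw [hexp] at hBx hK1
  have hceil := Nat.le_ceil (4 * D)
  set H := Real.log x with hHdef
  obtain ⟨N, hN⟩ : ∃ N : ℕ, N = B ^ (2 * m) := ⟨_, rfl⟩
  have hNB8 : (N : ℝ) ^ 8 = (B : ℝ) ^ (16 * m) := by
    rw [hN]
    push_cast
    rw [← pow_mul]
    congr 1
    ring
  have hN8 : (N : ℝ) ^ 8 ≤ H := by rw [hNB8]; exact hBx
  have hmN : m + 1 ≤ N := by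
    have h3 : 2 * m < 2 ^ (2 * m) := Nat.lt_two_pow_self
    have h4 : 2 ^ (2 * m) ≤ B ^ (2 * m) := Nat.pow_le_pow_left (by omega) _
    omega
  have hNbig : N1 + N2 + N3 + m1 + 8 + 300 * C + 18 * A + rr + ⌈4 * D⌉₊ ≤ N := by omega
  have hHpos : 1 ≤ H := by
    refine le_trans ?_ hBx
    exact one_le_pow₀ (by linarith)
  have hN2 : 8 ≤ N := by omega
  have hNr : (8 : ℝ) ≤ N := by exact_mod_cast hN2
  have hN0 : (0 : ℝ) < N := by linarith
  have hm1 : 1 ≤ m := by omega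
  have hmr : (0 : ℝ) < m := by exact_mod_cast hm1
  obtain ⟨ε, hε⟩ : ∃ ε : ℝ, ε = 1 / (N : ℝ) ^ 2 := ⟨_, rfl⟩
  have hε0 : 0 < ε := by rw [hε]; positivity
  have hBm : (0 : ℝ) < (B : ℝ) ^ m := by positivity
  obtain ⟨v, hv⟩ : ∃ v : ℝ, v = 1 / (B : ℝ) ^ m := ⟨_, rfl⟩
  have hv0 : 0 < v := by rw [hv]; positivity
  have hBm16 : (B : ℝ) ≤ (B : ℝ) ^ m := by
    calc (B : ℝ) = (B : ℝ) ^ 1 := (pow_one _).symm
      _ ≤ (B : ℝ) ^ m := pow_le_pow_right₀ (by linarith) hm1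
  have hv16 : v ≤ 1 / 16 := by
    rw [hv]
    exact one_div_le_one_div_of_le (by norm_num) (by linarith)
  -- powers of N
  have hεH : (N : ℝ) ^ 6 ≤ ε * H := by
    rw [hε, one_div, inv_mul_eq_div, le_div_iff₀ (by positivity)]
    refine le_trans (le_of_eq ?_) hN8
    ring
  have hN6 : (2 : ℝ) ≤ (N : ℝ) ^ 6 := by
    calc (2 : ℝ) ≤ 8 ^ 6 := by norm_num
      _ ≤ (N : ℝ) ^ 6 := pow_le_pow_left₀ (by norm_num) hNr 6
  have h2ε : 2 ≤ ε * Real.log x := hN6.trans hεH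
  have hvr : v ≤ r := by
    -- 1/B^m ≤ r since B^m ≥ m ≥ 2/r
    have h1 : (m : ℝ) ≤ (B : ℝ) ^ m := by
      have h2 : m < 2 ^ m := Nat.lt_two_pow_self
      have h3 : 2 ^ m ≤ B ^ m := Nat.pow_le_pow_left (by omega) _
      have h4 : m ≤ B ^ m := by omega
      exact_mod_cast h4
    have h5 : 2 / r ≤ (m : ℝ) := by
      refine hrr.trans ?_
      have : rr ≤ m := by omega
      exact_mod_cast this
    have h6 : 1 / r ≤ (B : ℝ) ^ m := by
      have : 1 / r ≤ 2 / r := div_le_div_of_nonneg_right (by norm_num) hr.le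
      linarith
    rw [hv, one_div_le hBm hr]
    exact h6
  have hεv : ε ≤ v := by
    rw [hε, hv]
    apply one_div_le_one_div_of_le hBm
    rw [hN]
    push_cast
    rw [← pow_mul]
    exact pow_le_pow_right₀ (by linarith) (by omega)
  set w : ℕ → ℝ := vs B m v with hw
  have hB1' : 1 ≤ B := by omega
  have hw1 : 0 < w 1 := CoB_vs_pos hB1' hv0 le_rfl
  have hwm : Monotone w := vs_mono hB1' hv0.le
  have hw0 : ∀ a, 0 ≤ w a := vs_nonneg hv0.le
  have hwv : ∀ a, w a ≤ v := vs_le hB1' hv0.le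
  have hwz : w 0 = 0 := by simp [hw, vs]
  have hw1N : 1 / (N : ℝ) ≤ w 1 := by
    have e1 : w 1 = v / (B : ℝ) ^ (m - 1) := by simp [hw, vs]
    rw [e1, hv, hN, div_div]
    push_cast
    apply one_div_le_one_div_of_le (by positivity)
    rw [← pow_add]
    exact pow_le_pow_right₀ (by linarith) (by omega)
  have hεw : ε ≤ w 1 / (4 * D) := by
    rw [le_div_iff₀ (by positivity)]
    refine le_trans ?_ hw1N
    rw [hε, one_div_mul_eq_div, div_le_div_iff₀ (by positivity) hN0]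
    have h1 : 4 * D ≤ N := by
      refine hceil.trans ?_
      have : ⌈4 * D⌉₊ ≤ N := by omega
      exact_mod_cast this
    nlinarith
  obtain ⟨w1, w2, w3, w4⟩ := hwbu B m v r ε x hB8 hm1 hv0 (by linarith) hr (by linarith) hε0 hεw (hεv.trans hvr) hx1 h2ε
  obtain ⟨z1, z2, z3, z4⟩ := zfu hx1 h2ε
  obtain ⟨r1, r2, r3, r4⟩ := zfu (ε := r) hx1 (h2ε.trans (mul_le_mul_of_nonneg_right (hεv.trans hvr) (by linarith)))
  set z := zf ε x with hz
  set R := zf r x with hR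
  set Z : ℕ → ℕ := fun a => zf (w a) x with hZ
  have hzK : K ≤ z := by
    have h1 : (K : ℝ) ≤ z := by
      refine hK2.trans (le_trans ?_ z3)
      rw [← Real.log_le_iff_le_exp (by positivity), Real.log_pow]
      have h7 : 16 * (A : ℝ) ≤ N := by
        have : 16 * A ≤ N := by omega
        exact_mod_cast this
      have h8 := Crv_K (n := (N : ℝ)) (H := H) (A := A) (by linarith) h7 hN8
      rw [hε]
      exact h8
    exact_mod_cast h1
  have hKN : 8 * N + 8 ≤ K := by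
    have h1 : ((8 * N + 8 : ℕ) : ℝ) ≤ K := by
      refine le_trans ?_ hK1
      rw [← hNB8]
      push_cast
      have h2 : (N : ℝ) ^ 2 * (N : ℝ) ^ 6 = (N : ℝ) ^ 8 := by ring
      rw [← h2]
      have h3 : 8 * (N : ℝ) + 8 ≤ (N : ℝ) ^ 2 * 2 := by nlinarith
      exact h3.trans (mul_le_mul_of_nonneg_left hN6 (by positivity))
    exact_mod_cast h1
  have hVV1 : 0 < VV K z 1 := vv_pos (by omega)
  set μ : ℝ := (Fintype.card ι : ℝ) * VV K z 1 with hμ
  have hμ0 : 0 ≤ μ := by positivity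
  have hμU : μ ≤ r * m * (N : ℝ) ^ 2 / (256 * D) := by
    have h1 := hvv1 K z (by omega) hzK
    have hlz : 0 < Real.log z := lt_of_lt_of_le (by positivity) z1
    have hlK : 0 ≤ Real.log K := Real.log_natCast_nonneg K
    have h4 : VV K z 1 ≤ C2 * Real.log K / (ε / 2 * Real.log x) := by
      refine h1.trans ?_
      apply div_le_div₀ (by positivity) le_rfl (by positivity) z1
    have hcn : (0 : ℝ) ≤ Fintype.card ι := Nat.cast_nonneg _
    rw [hμ]
    calc (Fintype.card ι : ℝ) * VV K z 1 ≤ (Fintype.card ι : ℝ) * (C2 * Real.log K / (ε / 2 * Real.log x)) :=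
          mul_le_mul_of_nonneg_left h4 hcn
      _ = C2 * ((Fintype.card ι : ℝ) * Real.log K) / (ε / 2 * Real.log x) := by ring
      _ ≤ C2 * (r / (512 * D * C2) * m * H) / (ε / 2 * Real.log x) := by
          refine div_le_div_of_nonneg_right (mul_le_mul_of_nonneg_left hcard hC20.le) (by positivity)
      _ = r * m * (N : ℝ) ^ 2 / (256 * D) := by
          rw [hε, ← hHdef]
          field_simp
          ring
  have hμN : μ ≤ m * (N : ℝ) ^ 2 := by
    refine hμU.trans ?_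
    rw [div_le_iff₀ (by positivity)]
    have h1 : 0 ≤ (m : ℝ) * (N : ℝ) ^ 2 := by positivity
    nlinarith
  -- the coefficients
  obtain ⟨cφ, hc0, hcE, hs1, -, hs3⟩ := CoB_f0 (m := m) hm1 (w := w) (W := wA Z (primorial z)) (v1 := w 1) (E := 4 * D * ε)
    hw1 (fun a ha => hwm (Finset.mem_Icc.1 ha).1) (by positivity) (fun a ha => w1 a ha)
  set f0 : ℕ → ℝ := fun a => if a = 0 then 0 else cφ / w a with hf0
  have hf0' : ∀ a ∈ Icc 1 m, f0 a = cφ / w a := by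
    intro a ha
    have := (Finset.mem_Icc.1 ha).1
    simp only [hf0]
    rw [if_neg (by omega)]
  have hf0n : ∀ a, 0 ≤ f0 a := by
    intro a
    simp only [hf0]
    split_ifs
    · exact le_rfl
    · exact div_nonneg hc0.le (hw0 a)
  have hf0le : ∀ a, |f0 a| ≤ 1 := by
    intro a
    rw [abs_of_nonneg (hf0n a)]
    simp only [hf0]
    split_ifs with ha
    · norm_num
    · have hwa : w 1 ≤ w a := hwm (by omega)
      have hwa0 : 0 < w a := lt_of_lt_of_le hw1 hwa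
      rw [div_le_one hwa0]
      refine le_trans ?_ hwa
      refine hcE.trans ?_
      rw [div_le_iff₀ hmr]
      have h1 : ε * (4 * D) ≤ w 1 := by rwa [le_div_iff₀ (by positivity)] at hεw
      have h2 : (1 : ℝ) ≤ m := by exact_mod_cast hm1
      calc 4 * D * ε = ε * (4 * D) := by ring
        _ ≤ w 1 := h1
        _ ≤ w 1 * m := le_mul_of_one_le_right hw1.le h2
  have hsum1 : ∑ a ∈ Icc 1 m, f0 a * wA Z (primorial z) a = 1 := by
    rw [← hs1]
    exact Finset.sum_congr rfl fun a ha => by rw [hf0' a ha]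
  have hsum3 : ∑ a ∈ Icc 1 m, f0 a ^ 2 * wA Z (primorial z) a * w a = cφ := by
    refine Eq.trans ?_ hs3
    exact Finset.sum_congr rfl fun a ha => by rw [hf0' a ha]
  have hxz : x ≤ (z : ℝ) ^ (2 * N ^ 2) := by
    calc x = Real.exp (ε / 2 * Real.log x) ^ (2 * N ^ 2) := by
          rw [← Real.exp_nat_mul, hε]
          push_cast
          have e1 : 2 * (N : ℝ) ^ 2 * (1 / (N : ℝ) ^ 2 / 2 * Real.log x) = Real.log x := by
            field_simp
          rw [e1, Real.exp_log hx0]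
      _ ≤ (z : ℝ) ^ (2 * N ^ 2) := pow_le_pow_left₀ (Real.exp_pos _).le z3 _
  have hzfM : ∀ e : ℝ, e ≤ 1 → zf e x ≤ z ^ (2 * N ^ 2) := by
    intro e he
    have h1 : (zf e x : ℝ) ≤ x := by
      refine (zf_le hx0.le).trans ?_
      calc x ^ e ≤ x ^ (1 : ℝ) := Real.rpow_le_rpow_of_exponent_le hx1 he
        _ = x := Real.rpow_one x
    have h2 : (zf e x : ℝ) ≤ ((z ^ (2 * N ^ 2) : ℕ) : ℝ) := by
      push_cast
      exact h1.trans hxz
    exact_mod_cast h2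
  have hw1' : ∀ a, w a ≤ 1 := fun a => (hwv a).trans (by linarith)
  have hΓ1 : 1 ≤ 2 * D / ε := by
    rw [le_div_iff₀ hε0]
    have : ε ≤ 1 := hεv.trans (by linarith)
    linarith
  have hT1 : 1 ≤ T := by
    have h1 : (1 : ℝ) ≤ T := (Real.one_le_rpow hx1 (by norm_num)).trans hT
    exact_mod_cast h1
  have hV := hvvl K z (2 * N + 1) (by omega) (by omega) hzK
  have hsys : SysU C N m (2 * N ^ 2) K z Q0 T R (N ^ 2 / 60) Z w f0 (1 / 8) (2 * D / ε) (x ^ (1 / 8 : ℝ))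
      ((Real.exp (-((N ^ 2 / 60 : ℕ) : ℝ)) + 9 * (2 * (N : ℝ) + 1) ^ 2 / z) * (4 * (2 * D / ε) ^ 5) ^ (2 * N + 1) +
        (z : ℝ) ^ (3 * (4 * (N ^ 2 / 60) + 10)) * (4 * (2 * D / ε) ^ 2) ^ (2 * N + 1) *
        ((x ^ (1 / 8 : ℝ)) ^ 2 * (R : ℝ) ^ 2) / (T * VV K z (2 * N + 1))) cc := by
    refine ⟨hFm, by omega, hKN, hzK, ?_, ?_, ?_, ?_, ?_, by omega, ?_, hT1, hΓ1, ?_, w3, hf0le, ?_, ?_, le_rfl⟩
    · rw [Nat.le_div_iff_mul_le (by norm_num)]
      have h1 : 240 * C ≤ N := by omega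
      nlinarith
    · simp only [hZ, hwz]
      exact zf_zero x
    · intro a b hab
      exact zf_mono hx1 (hwm hab)
    · intro a _
      exact hzfM _ (hw1' a)
    · exact hzfM _ (by linarith)
    · have h1 : ((2 * (2 * N ^ 2) : ℕ) : ℝ) ≤ z := by
        refine le_trans ?_ z3
        have h2 := Real.add_one_le_exp (ε / 2 * Real.log x)
        refine le_trans ?_ h2
        have h3 : ε / 2 * Real.log x = ε * H / 2 := by ring
        rw [h3]
        push_cast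
        have h4 : (N : ℝ) ^ 2 * (N : ℝ) ^ 4 = (N : ℝ) ^ 6 := by ring
        have h5 : (8 : ℝ) ≤ (N : ℝ) ^ 4 := by
          calc (8 : ℝ) ≤ 8 ^ 4 := by norm_num
            _ ≤ (N : ℝ) ^ 4 := pow_le_pow_left₀ (by norm_num) hNr 4
        have h6 : 8 * (N : ℝ) ^ 2 ≤ (N : ℝ) ^ 6 := by
          rw [← h4, mul_comm]
          exact mul_le_mul_of_nonneg_left h5 (by positivity)
        linarith
      exact_mod_cast h1
    · intro a ha
      exact w2 a ha
    · exact Real.one_le_rpow hx1 (by norm_num)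
    · intro n hn
      unfold Cf at hn
      rw [Finset.mem_filter] at hn
      calc ∏ i, (Z (n i) : ℝ) ≤ ∏ i, x ^ (w (n i)) := by
            refine Finset.prod_le_prod (fun i _ => Nat.cast_nonneg _) fun i _ => zf_le hx0.le
        _ = x ^ (∑ i, w (n i)) := (Real.rpow_sum_of_pos hx0 _ _).symm
        _ ≤ x ^ (1 / 8 : ℝ) := Real.rpow_le_rpow_of_exponent_le hx1 hn.2.2
  have hη := hepu N (by omega) m z R T x μ (VV K z (2 * N + 1)) hx1 hN8 hmN hμ0 hμN
    (by rw [← hε]; exact zf_le hx0.le) (by rw [← hε]; exact z3)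
    ((zf_le hx0.le).trans (Real.rpow_le_rpow_of_exponent_le hx1 hr1)) hT hV
  rw [← hε] at hη
  have hη4 := hepv2 N (by omega) z T x (VV K z (4 * N)) hx1 hN8
    (by rw [← hε]; exact zf_le hx0.le) (by rw [← hε]; exact z3) hT (hvvl K z (4 * N) (by omega) (by omega) hzK)
  have hη3 := hepv3 N (by omega) m μ hmN hμ0 hμN
  rw [← hε] at hη3
  have hzR : z ≤ R := zf_mono hx1 (hεv.trans hvr)
  have hZR : ∀ a ≤ m, Z a ≤ R := fun a _ => zf_mono hx1 ((hwv a).trans hvr)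
  have hCb4 : C * (4 * N + 1) ≤ N ^ 2 / 60 := by
    rw [Nat.le_div_iff_mul_le (by norm_num)]
    have h1 : 240 * C ≤ N := by omega
    have h2 : 4 * N + 1 ≤ 5 * N := by omega
    have h3 : C * (4 * N + 1) * 60 ≤ C * (5 * N) * 60 := Nat.mul_le_mul_right _ (Nat.mul_le_mul_left _ h2)
    have h4 : 300 * C ≤ N := by omega
    calc C * (4 * N + 1) * 60 ≤ C * (5 * N) * 60 := h3
      _ = (300 * C) * N := by ring
      _ ≤ N * N := Nat.mul_le_mul_right _ h4
      _ = N ^ 2 := by ring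
  have hLz : ∀ i, ∀ t < T, Q0 * t + cc i ≤ z ^ (2 * N ^ 2 * A) := by
    intro i t ht
    have h1 : ((Q0 * t + cc i : ℕ) : ℝ) ≤ ((z ^ (2 * N ^ 2 * A) : ℕ) : ℝ) := by
      refine (hLx i t ht).trans ?_
      push_cast
      rw [pow_mul]
      exact pow_le_pow_left₀ hx0.le hxz A
    exact_mod_cast h1
  have hres := hco ι C N m (2 * N ^ 2) (2 * N ^ 2 * A) K z Q0 T R (N ^ 2 / 60) R Z w f0 (1 / 8) v ((B : ℝ) ^ m) (2 * D / ε)
    (x ^ (1 / 8 : ℝ)) _ cc le_rfl hsys hCb4 hη4 hw0 hwz (fun a _ => hwv a) (by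
      intro a ha
      have h1 : w 1 ≤ w a := hwm (Finset.mem_Icc.1 ha).1
      have h2 : (N : ℝ) * (1 / N) ≤ N * w a := mul_le_mul_of_nonneg_left (hw1N.trans h1) hN0.le
      have h3 : (N : ℝ) * (1 / N) = 1 := by field_simp
      linarith) (by norm_num) hBm.le hf0n hsum1 le_rfl hzR hZR hLz hη (by
      refine Cor_num (D := D) (r := r) (Nr := N) (m := m) (cφ := cφ) hD hr (by linarith) hN0 hmr ?_ ?_ hμ0 hμU hc0 ?_ hBm.le
        (Cor_S hBm.le ?_ ?_ hsum3) (by linarith) rfl (hnum2 m B (by omega) (by omega))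
      · have hGG : 1 ≤ GG (primorial z) R := gg_ge_one _ (by omega)
        exact div_nonneg (by norm_num) (by linarith)
      · rw [← hε]
        exact w4
      · rw [← hε]
        exact hcE
      · intro a ha
        refine ⟨hw0 a, ?_⟩
        calc (B : ℝ) ^ m * w a ≤ (B : ℝ) ^ m * v := mul_le_mul_of_nonneg_left (hwv a) hBm.le
          _ = 1 := by rw [hv]; field_simp
      · intro a _
        exact wA_nonneg _ (fun a b hab => zf_mono hx1 (hwm hab)) a)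
  refine hres.trans ?_
  rw [hexp, ← hNB8]
  have hN48 : Real.exp ((N : ℝ) ^ 4) ≤ Real.exp ((N : ℝ) ^ 8) :=
    Real.exp_le_exp.2 (pow_le_pow_right₀ (by linarith) (by norm_num))
  refine mul_le_mul (hη3.trans hN48) ?_ (Nat.cast_nonneg _) (Real.exp_pos _).le
  refine Nat.cast_le.2 (Finset.card_le_card ?_)
  intro t ht
  rw [Finset.mem_filter] at ht ⊢
  refine ⟨ht.1, fun i => ?_⟩
  obtain ⟨p, hp, hpR, hpd⟩ := ht.2 i
  refine ⟨p, hp, ?_, hpd⟩
  calc (p : ℝ) ≤ R := by exact_mod_cast hpR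
    _ ≤ x ^ r := zf_le hx0.le

end H82LX
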