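import Pool.Agent.H82.LX.Bhu
import Pool.Agent.H82.LX.Nco
import Pool.Agent.H69.PG.Elu

/-!
# EUU: means of products over a set `U` of forms, uniformly in the dimension

As `elu` (`Pool/Agent/H69/PG/Elu.lean`, see its proof for the passage to the index type `{i // i ∈ U}`: restrict `c`, `D`, `f`, `A1`, `A2`; `Fm` restricts), with `elw` (`Bhu.lean`) instead of `el` and `nco` instead of `s3`.
`C` is the constant of `elw`; `C (|U| + 1) ≤ C (J0 + 1) ≤ b0`. By `elw` the sum is `T VV_|U| Mm + O(e^(-b0) T VV_|U| ∏ ∑ |f|/B + z^(..) ∏ ∑ |f|)`, and by `nco` `|Mm - ∏ SS| ≤ 9 |U|^2/z ∏ A1 ≤ 9 J0^2/z ∏ A1`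
(`VV ≥ 0`: `Elu_VV_nonneg` or `el_vv_nonneg`; `A1 i ≥ 0` follows from `hA1`, `A2 i ≥ 0` from `hA2`; the sums `∑ |f|/B ≤ A1 i` are `≥ 0`, so the products compare: `Finset.prod_le_prod`).
-/

open Finset EG

namespace H82LX

open H69PG

theorem euu : ∃ C : ℕ, 1 ≤ C ∧ ∀ J0 b0 : ℕ, C * (J0 + 1) ≤ b0 → ∀ (ι : Type) [Fintype ι] [DecidableEq ι],
    ∀ K z Q0 : ℕ, 2 * J0 ≤ K → 2 ≤ K → K ≤ z → ∀ c : ι → ℕ, Fm K Q0 c → ∀ T : ℕ, ∀ U : Finset ι, U.card ≤ J0 →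
    ∀ (D : ι → Finset ℕ) (f : ι → ℕ → ℝ) (A1 A2 : ι → ℝ), (∀ i ∈ U, Good (primorial z) (D i)) →
    (∀ i ∈ U, ∑ B ∈ D i, |f i B| / (B : ℝ) ≤ A1 i) →
    (∀ i ∈ U, ∀ p : ℕ, p.Prime → z < p → ∑ B ∈ (D i).filter (fun B => p ∣ B), |f i B| / (B : ℝ) ≤ 3 / (p : ℝ) * A1 i) →
    (∀ i ∈ U, ∑ B ∈ D i, |f i B| ≤ A2 i) →
    |∑ t ∈ range T, ∏ i ∈ U, (th0 K z (Q0 * t + c i) * Fn (D i) (f i) (Q0 * t + c i)) -
        (T : ℝ) * VV K z U.card * ∏ i ∈ U, SS (D i) (f i) 1| ≤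
      (T : ℝ) * VV K z U.card * ((Real.exp (-(b0 : ℝ)) + 9 * (J0 : ℝ) ^ 2 / z) * ∏ i ∈ U, A1 i) +
        (z : ℝ) ^ (3 * (4 * b0 + 10)) * ∏ i ∈ U, A2 i := by
  obtain ⟨Ce, hCe⟩ := elw
  refine ⟨Ce + 1, by omega, ?_⟩
  intro J0 b0 hb0 ι _ _ K z Q0 hJK hK2 hKz c hc T U hU D f A1 A2 hD hA1 hp hA2
  have hcard : Fintype.card {i // i ∈ U} = U.card := Fintype.card_coe U
  have hc' : Fm K Q0 (fun i : {i // i ∈ U} => c i) :=
    ⟨hc.pos, hc.pr, fun i i' h => Subtype.ext (hc.inj h), fun i i' => hc.df i i', fun i => hc.cpos i⟩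
  have hCb : Ce * (U.card + 1) ≤ b0 := by
    refine le_trans ?_ hb0
    exact Nat.mul_le_mul (by omega) (by omega)
  have h1 := hCe U.card b0 hCb {i // i ∈ U} hcard K z Q0 (by omega) hK2 hKz (fun i => c i) hc' T
    (fun i => D i) (fun i => f i) (fun i => hD i i.2)
  have h2 := nco (ι := {i // i ∈ U}) (z := z) (by omega) (fun i => D i) (fun i => f i) (fun i => A1 i)
    (fun i => hD i i.2) (fun i => hA1 i i.2) (fun i => hp i i.2)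
  rw [hcard] at h2
  have hV : 0 ≤ VV K z U.card := Elu_VV_nonneg K z _ (by omega)
  have hT0 : (0 : ℝ) ≤ (T : ℝ) * VV K z U.card := mul_nonneg (Nat.cast_nonneg _) hV
  have e1 : (∑ t ∈ range T, ∏ i : {i // i ∈ U}, (th0 K z (Q0 * t + c i) * Fn (D i) (f i) (Q0 * t + c i))) =
      ∑ t ∈ range T, ∏ i ∈ U, (th0 K z (Q0 * t + c i) * Fn (D i) (f i) (Q0 * t + c i)) := by
    refine Finset.sum_congr rfl fun t _ => ?_
    exact Finset.prod_coe_sort U (fun i => th0 K z (Q0 * t + c i) * Fn (D i) (f i) (Q0 * t + c i))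
  have e2 : (∏ i : {i // i ∈ U}, ∑ B ∈ D i, |f i B| / (B : ℝ)) = ∏ i ∈ U, ∑ B ∈ D i, |f i B| / (B : ℝ) :=
    Finset.prod_coe_sort U (fun i => ∑ B ∈ D i, |f i B| / (B : ℝ))
  have e3 : (∏ i : {i // i ∈ U}, ∑ B ∈ D i, |f i B|) = ∏ i ∈ U, ∑ B ∈ D i, |f i B| :=
    Finset.prod_coe_sort U (fun i => ∑ B ∈ D i, |f i B|)
  have e4 : (∏ i : {i // i ∈ U}, SS (D i) (f i) 1) = ∏ i ∈ U, SS (D i) (f i) 1 :=
    Finset.prod_coe_sort U (fun i => SS (D i) (f i) 1)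
  have e5 : (∏ i : {i // i ∈ U}, A1 i) = ∏ i ∈ U, A1 i :=
    Finset.prod_coe_sort U (fun i => A1 i)
  rw [e1, e2, e3] at h1
  rw [e4, e5] at h2
  have hA1' : ∏ i ∈ U, ∑ B ∈ D i, |f i B| / (B : ℝ) ≤ ∏ i ∈ U, A1 i :=
    Finset.prod_le_prod (fun i _ => Finset.sum_nonneg fun B _ => by positivity) hA1
  have hA2' : ∏ i ∈ U, ∑ B ∈ D i, |f i B| ≤ ∏ i ∈ U, A2 i :=
    Finset.prod_le_prod (fun i _ => Finset.sum_nonneg fun B _ => by positivity) hA2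
  have hA10 : 0 ≤ ∏ i ∈ U, A1 i :=
    Finset.prod_nonneg fun i hi => (Finset.sum_nonneg fun B _ => by positivity).trans (hA1 i hi)
  set S := ∑ t ∈ range T, ∏ i ∈ U, (th0 K z (Q0 * t + c i) * Fn (D i) (f i) (Q0 * t + c i)) with hS
  set M := Mm (fun i : {i // i ∈ U} => D i) (fun i => f i) 1 with hM
  set P := ∏ i ∈ U, SS (D i) (f i) 1 with hP
  have h3 : |S - (T : ℝ) * VV K z U.card * P| ≤ |S - (T : ℝ) * VV K z U.card * M| + (T : ℝ) * VV K z U.card * |M - P| := by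
    have : S - (T : ℝ) * VV K z U.card * P =
        (S - (T : ℝ) * VV K z U.card * M) + (T : ℝ) * VV K z U.card * (M - P) := by ring
    rw [this]
    refine (abs_add_le _ _).trans ?_
    rw [abs_mul ((T : ℝ) * VV K z U.card) (M - P), abs_of_nonneg hT0]
  refine h3.trans ?_
  have hUJ : (U.card : ℝ) ≤ (J0 : ℝ) := by exact_mod_cast hU
  have hsq : 9 * (U.card : ℝ) ^ 2 / z ≤ 9 * (J0 : ℝ) ^ 2 / z := by gcongr
  have h4 : |M - P| ≤ 9 * (J0 : ℝ) ^ 2 / z * ∏ i ∈ U, A1 i :=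
    h2.trans (mul_le_mul_of_nonneg_right hsq hA10)
  have h5 : (T : ℝ) * VV K z U.card * |M - P| ≤ (T : ℝ) * VV K z U.card * (9 * (J0 : ℝ) ^ 2 / z * ∏ i ∈ U, A1 i) :=
    mul_le_mul_of_nonneg_left h4 hT0
  have h6 : Real.exp (-(b0 : ℝ)) * ((T : ℝ) * VV K z U.card * ∏ i ∈ U, ∑ B ∈ D i, |f i B| / (B : ℝ)) ≤
      Real.exp (-(b0 : ℝ)) * ((T : ℝ) * VV K z U.card * ∏ i ∈ U, A1 i) :=
    mul_le_mul_of_nonneg_left (mul_le_mul_of_nonneg_left hA1' hT0) (Real.exp_pos _).le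
  have h7 : (z : ℝ) ^ (3 * (4 * b0 + 10)) * ∏ i ∈ U, ∑ B ∈ D i, |f i B| ≤
      (z : ℝ) ^ (3 * (4 * b0 + 10)) * ∏ i ∈ U, A2 i :=
    mul_le_mul_of_nonneg_left hA2' (by positivity)
  calc |S - (T : ℝ) * VV K z U.card * M| + (T : ℝ) * VV K z U.card * |M - P|
      ≤ (Real.exp (-(b0 : ℝ)) * ((T : ℝ) * VV K z U.card * ∏ i ∈ U, A1 i) +
          (z : ℝ) ^ (3 * (4 * b0 + 10)) * ∏ i ∈ U, A2 i) +
          (T : ℝ) * VV K z U.card * (9 * (J0 : ℝ) ^ 2 / z * ∏ i ∈ U, A1 i) := by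
        linarith
    _ = _ := by ring

end H82LX
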