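import Pool.Agent.H82.LX.Mkf
import Pool.Agent.H69.PG.Vsm

/-!
# EXM: exponential moments of the cost

Let `e_r(n) = ∑_{R ∈ powersetCard r univ} ∏_{i ∈ R} w(n i) ≥ 0`. Then `∏_i (1 + w(n_i)) = ∑_{r ≤ |ι|} e_r(n)` (`Finset.prod_one_add`/`Finset.prod_add`, grouped by the cardinality,
`Finset.sum_powerset`), and `(r+1) e_{r+1}(n) = ∑_k w(n_k) e_r(update n k 0)`: indeed `w 0 = 0`, so `e_r(update n k 0) = ∑_{R, |R| = r, k ∉ R} ∏_{i ∈ R} w(n_i)`, and every `R'` with `r+1` elements is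
`insert k R`, `k ∉ R`, for exactly `r+1` pairs `(R, k)` (compare `Vsm_count` in `Pool/Agent/H69/PG/Vsm.lean`).
With `W = ∑_{a=1}^m s_a w_a` and `S_r = ∑_{n ∈ Cf} e_r(n) ms(n)`: by `mkf` (`F = e_r`) `(r+1) S_{r+1} ≤ μ W S_r`, so `S_r ≤ (μ W)^r/r! MM` by induction, and
`∑_r (μ W)^r/r! ≤ exp(μ W)` (`Real.sum_le_exp_of_nonneg`).
-/

open Finset

namespace H82LX

open H69PG

variable {ι : Type} [Fintype ι] [DecidableEq ι]

/-- elementary symmetric functions of the weights -/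
noncomputable def Exm_e {m : ℕ} (w : ℕ → ℝ) (r : ℕ) (n : ι → Fin (m + 1)) : ℝ :=
  ∑ U ∈ (univ : Finset (Finset ι)).filter (fun U => U.card = r), ∏ i ∈ U, w (n i)

omit [DecidableEq ι] in
theorem Exm_prod {m : ℕ} (w : ℕ → ℝ) (n : ι → Fin (m + 1)) :
    ∏ i, (1 + w (n i)) = ∑ r ∈ range (Fintype.card ι + 1), Exm_e w r n := by
  rw [Finset.prod_one_add, Finset.powerset_univ]
  rw [← Finset.sum_fiberwise_of_maps_to (s := (univ : Finset (Finset ι)))
      (t := range (Fintype.card ι + 1)) (g := fun U => U.card)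
      (fun U _ => by
        rw [Finset.mem_range]
        exact Nat.lt_succ_of_le (Finset.card_le_univ U))]
  rfl

theorem Exm_rec {m : ℕ} {w : ℕ → ℝ} (hw0 : w 0 = 0) (r : ℕ) (n : ι → Fin (m + 1)) :
    ((r : ℝ) + 1) * Exm_e w (r + 1) n = ∑ k, w (n k) * Exm_e w r (Function.update n k 0) := by
  rw [Exm_e, Vsm_count (fun U => ∏ i ∈ U, w (n i)) r]
  have h : ∀ k : ι, w (n k) * Exm_e w r (Function.update n k 0) =
      ∑ A ∈ (univ : Finset (Finset ι)).filter (fun A => A.card = r),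
        w (n k) * ∏ i ∈ A, w ((Function.update n k 0 : ι → Fin (m + 1)) i) := by
    intro k
    rw [Exm_e, Finset.mul_sum]
  rw [Finset.sum_congr rfl fun k _ => h k, Finset.sum_comm]
  refine Finset.sum_congr rfl fun A _ => ?_
  rw [← Finset.sum_compl_add_sum A fun k =>
    w (n k) * ∏ i ∈ A, w ((Function.update n k 0 : ι → Fin (m + 1)) i)]
  have h2 : ∑ k ∈ A, w (n k) * ∏ i ∈ A, w ((Function.update n k 0 : ι → Fin (m + 1)) i) = 0 := by
    refine Finset.sum_eq_zero fun k hk => ?_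
    rw [Finset.prod_eq_zero hk, mul_zero]
    simp [hw0]
  rw [h2, add_zero]
  refine Finset.sum_congr rfl fun k hk => ?_
  rw [Finset.mem_compl] at hk
  rw [Finset.prod_insert hk]
  congr 1
  refine Finset.prod_congr rfl fun i hi => ?_
  have hik : i ≠ k := fun e => hk (by rw [← e]; exact hi)
  rw [Function.update_of_ne hik]

omit [DecidableEq ι] in
theorem Exm_nonneg {m : ℕ} {w : ℕ → ℝ} (hw : ∀ a, 0 ≤ w a) (r : ℕ) (n : ι → Fin (m + 1)) :
    0 ≤ Exm_e w r n :=
  Finset.sum_nonneg fun _ _ => Finset.prod_nonneg fun _ _ => hw _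

theorem exm {m N : ℕ} {v : ℕ → ℝ} {l : ℝ} {V : Finset ι → ℝ} {μ : ℝ} (h : Vh V μ N) {s w : ℕ → ℝ}
    (hs : ∀ a, 0 ≤ s a) (hs0 : s 0 = 1) (hv : ∀ a, 0 ≤ v a) (hv0 : v 0 = 0) (hw : ∀ a, 0 ≤ w a) (hw0 : w 0 = 0) :
    ∑ n ∈ Cf ι m N v l, (∏ i, (1 + w (n i))) * ms V s n ≤
      Real.exp (μ * ∑ a ∈ Icc 1 m, s a * w a) * MM m N v l V s := by
  set W : ℝ := ∑ a ∈ Icc 1 m, s a * w a with hW
  have hW0 : 0 ≤ W := Finset.sum_nonneg fun a _ => mul_nonneg (hs a) (hw a)
  have hμ := h.μ_nonneg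
  have hms : ∀ n : ι → Fin (m + 1), 0 ≤ ms V s n := fun n =>
    mul_nonneg (h.nonneg _) (Finset.prod_nonneg fun _ _ => hs _)
  have hMM : 0 ≤ MM m N v l V s := Finset.sum_nonneg fun n _ => hms n
  have hS : ∀ r : ℕ, ∑ n ∈ Cf ι m N v l, Exm_e w r n * ms V s n ≤
      (μ * W) ^ r / (r.factorial : ℝ) * MM m N v l V s := by
    intro r
    induction r with
    | zero =>
      have e : (univ : Finset (Finset ι)).filter (fun U => U.card = 0) = {∅} := by
        ext U
        rw [Finset.mem_filter, Finset.mem_singleton, Finset.card_eq_zero]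
        exact ⟨fun h => h.2, fun h => ⟨Finset.mem_univ _, h⟩⟩
      simp only [Exm_e, e, Finset.sum_singleton, Finset.prod_empty, one_mul, pow_zero,
        Nat.factorial_zero, Nat.cast_one, div_one, MM]
      exact le_refl _
    | succ r ih =>
      have h1 := mkf h hs hs0 hv hv0 hw hw0 (l := l) (Exm_e w r) (Exm_nonneg hw r) (m := m)
      rw [← hW] at h1
      have h2 : ∑ n ∈ Cf ι m N v l, (∑ i, w (n i) * Exm_e w r (Function.update n i 0)) * ms V s n =
          ((r : ℝ) + 1) * ∑ n ∈ Cf ι m N v l, Exm_e w (r + 1) n * ms V s n := by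
        rw [Finset.mul_sum]
        refine Finset.sum_congr rfl fun n _ => ?_
        rw [← Exm_rec hw0]
        ring
      rw [h2] at h1
      have h3 := h1.trans (mul_le_mul_of_nonneg_left ih (mul_nonneg hμ hW0))
      have hj0 : (0 : ℝ) < (r : ℝ) + 1 := by positivity
      have e : (μ * W) ^ (r + 1) / ((r + 1).factorial : ℝ) * MM m N v l V s =
          (μ * W * ((μ * W) ^ r / (r.factorial : ℝ) * MM m N v l V s)) / ((r : ℝ) + 1) := by
        rw [Nat.factorial_succ]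
        push_cast
        have hf : ((r.factorial : ℕ) : ℝ) ≠ 0 := by exact_mod_cast (Nat.factorial_pos r).ne'
        field_simp
        ring
      rw [e, le_div_iff₀ hj0, mul_comm]
      exact h3
  have h4 : ∑ n ∈ Cf ι m N v l, (∏ i, (1 + w (n i))) * ms V s n =
      ∑ r ∈ range (Fintype.card ι + 1), ∑ n ∈ Cf ι m N v l, Exm_e w r n * ms V s n := by
    rw [Finset.sum_comm]
    refine Finset.sum_congr rfl fun n _ => ?_
    rw [Exm_prod, Finset.sum_mul]
  rw [h4]
  refine (Finset.sum_le_sum fun r _ => hS r).trans ?_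
  rw [← Finset.sum_mul]
  exact mul_le_mul_of_nonneg_right (Real.sum_le_exp_of_nonneg (mul_nonneg hμ hW0) _) hMM

end H82LX
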