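import Pool.Agent.H82.LX.Amp
import Pool.Agent.H69.PG.Fin

/-!
# FIVA: small lemmas for long prime-free intervals, uniformly in their length

The parameters of `fin_uni` (`Fiv.lean`) and `gen0` (`Pool/Agent/H82/LW/Gen0.lean`).
-/

open Finset EG

namespace H82LX

open H69PG

/-- Mertens -/
theorem Fiv_mert : ∃ D : ℝ, 1 ≤ D ∧ ∀ z : ℕ, 2 ≤ z →
    (Nat.totient (primorial z) : ℝ) / (primorial z : ℝ) ≤ D / Real.log z := by
  obtain ⟨D, hD, h⟩ := vv_mu
  refine ⟨D, hD, fun z hz => ?_⟩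
  have h1 := h z 2 2 hz le_rfl le_rfl
  have h2 : VV 2 2 1 = 1 := by
    unfold VV PK
    simp
  rw [h2, mul_one] at h1
  refine h1.trans (le_of_eq ?_)
  have hl : Real.log ((2 : ℕ) : ℝ) ≠ 0 := by
    have : 0 < Real.log ((2 : ℕ) : ℝ) := Real.log_pos (by norm_num)
    exact this.ne'
  have hz0 : Real.log (z : ℝ) ≠ 0 := by
    have : 0 < Real.log (z : ℝ) := Real.log_pos (by exact_mod_cast (by omega : 1 < z))
    exact this.ne'
  field_simp

theorem Fiv_a {a x : ℝ} (ha : 1 ≤ a) (hx : 3 ≤ x) : a + 2 * x ≤ a * x ^ 2 := by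
  have h1 : 0 ≤ x ^ 2 - 1 := by nlinarith
  have h2 := mul_le_mul_of_nonneg_right ha h1
  nlinarith

/-- the parameters, `H = log x` -/
theorem Fiv_par {D c0 C0 : ℝ} (hD : 1 ≤ D) (hc0 : 0 < c0) (hC0 : 1 ≤ C0) (m0 : ℕ) :
    ∃ C2 : ℝ, 1 ≤ C2 ∧ ∀ lam : ℝ, 1 ≤ lam → ∃ m : ℕ, m0 ≤ m ∧ 4 * D * lam ≤ c0 * m ∧ C0 * m ≤ C2 * lam := by
  refine ⟨C0 * (4 * D / c0 + 1 + m0), ?_, ?_⟩
  · have h1 : 0 ≤ 4 * D / c0 := by positivity
    have h2 : (0 : ℝ) ≤ m0 := Nat.cast_nonneg _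
    nlinarith
  · intro lam hlam
    refine ⟨⌈4 * D * lam / c0⌉₊ + m0, by omega, ?_, ?_⟩
    · have h1 := Nat.le_ceil (4 * D * lam / c0)
      push_cast
      have h2 : (0 : ℝ) ≤ m0 := Nat.cast_nonneg _
      have h3 : c0 * (4 * D * lam / c0) = 4 * D * lam := by field_simp
      nlinarith
    · have h1 := Nat.ceil_lt_add_one (show 0 ≤ 4 * D * lam / c0 by positivity)
      push_cast
      have h2 : (0 : ℝ) ≤ m0 := Nat.cast_nonneg _
      have h3 : (⌈4 * D * lam / c0⌉₊ : ℝ) + m0 ≤ (4 * D / c0 + 1 + m0) * lam := by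
        have e : (4 * D / c0 + 1 + m0) * lam = 4 * D * lam / c0 + lam + m0 * lam := by ring
        rw [e]
        nlinarith
      calc C0 * ((⌈4 * D * lam / c0⌉₊ : ℝ) + m0) ≤ C0 * ((4 * D / c0 + 1 + m0) * lam) :=
            mul_le_mul_of_nonneg_left h3 (by linarith)
        _ = _ := by ring

theorem Fiv_ev {r1 C2 : ℝ} (hr1 : 0 < r1) (hC2 : 1 ≤ C2) :
    ∃ x0 : ℝ, ∀ x : ℝ, x0 ≤ x →
      1 ≤ x ∧ 2 + x ^ (1 / 50 : ℝ) + Real.log x ^ 2 ≤ x ∧
      Real.log x / 100 ≤ x ^ r1 ∧ x ^ (1 / 50 : ℝ) ≤ x / 2 ∧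
      x ^ (1 / 2 : ℝ) + 1 ≤ Real.exp (-(Real.log x ^ (1 / 2 : ℝ))) / 8 * x ∧
      80000 ≤ Real.log x ∧ 1 / (2 * C2) * Real.log (Real.log x) ≤ Real.log x / 80000 := by
  have e2 := Filter.eventually_ge_atTop (Real.exp 80000)
  have e3 := (isLittleO_log_rpow_atTop (r := 1 / 4) (by norm_num)).bound
    (show (0 : ℝ) < 1 by norm_num)
  have e4 := (isLittleO_log_rpow_atTop hr1).bound (show (0 : ℝ) < 1 by norm_num)
  have e5 := (tendsto_rpow_atTop (show (0 : ℝ) < 1 / 2 by norm_num)).eventually_ge_atTop 64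
  have e6 := (Real.isLittleO_log_id_atTop.comp_tendsto Real.tendsto_log_atTop).bound
    (show (0 : ℝ) < 1 / 80000 by norm_num)
  refine Filter.eventually_atTop.1 ?_
  filter_upwards [e2, e3, e4, e5, e6] with x a2 a3 a4 a5 a6
  have hx0 : 0 < x := (Real.exp_pos _).trans_le a2
  have hH : 80000 ≤ Real.log x := (Real.le_log_iff_exp_le hx0).2 a2
  have hx1 : 1 ≤ x := by
    rw [← Real.log_nonneg_iff hx0]
    linarith
  set H := Real.log x with hHd
  have hsq : x ^ (1 / 2 : ℝ) * x ^ (1 / 2 : ℝ) = x := by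
    rw [← Real.rpow_add hx0]
    norm_num
  have h50 : x ^ (1 / 50 : ℝ) ≤ x ^ (1 / 2 : ℝ) := Real.rpow_le_rpow_of_exponent_le hx1 (by norm_num)
  have hlog4 : H ≤ x ^ (1 / 4 : ℝ) := by
    have := (le_abs_self H).trans a3
    rwa [one_mul, Real.norm_eq_abs, abs_of_pos (Real.rpow_pos_of_pos hx0 _)] at this
  have hlog2 : H ^ 2 ≤ x ^ (1 / 2 : ℝ) := by
    have e : x ^ (1 / 2 : ℝ) = (x ^ (1 / 4 : ℝ)) ^ 2 := by
      rw [← Real.rpow_natCast, ← Real.rpow_mul hx0.le]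
      norm_num
    rw [e]
    exact pow_le_pow_left₀ (by linarith) hlog4 2
  have a4' : H ≤ x ^ r1 := by
    have := (le_abs_self H).trans a4
    rwa [one_mul, Real.norm_eq_abs, abs_of_pos (Real.rpow_pos_of_pos hx0 r1)] at this
  set y := x ^ (1 / 2 : ℝ) with hy
  have hyx : 64 * y ≤ x := by nlinarith
  refine ⟨hx1, by linarith, by linarith, by linarith, ?_, hH, ?_⟩
  · -- exp(- sqrt H) x ≥ 8 (sqrt x + 1)
    have hs0 : 0 ≤ H := by linarith
    obtain ⟨s, hs⟩ : ∃ s : ℝ, s = H ^ (1 / 2 : ℝ) := ⟨_, rfl⟩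
    have hs1 : 0 ≤ s := by rw [hs]; positivity
    have hss : s * s = H := by
      rw [hs, ← Real.rpow_add (by linarith)]
      norm_num
    have hs4 : 280 ≤ s := by nlinarith
    rw [← hs]
    have hxe : x = Real.exp H := (Real.exp_log hx0).symm
    have hye : y = Real.exp (H / 2) := by
      rw [hy, Real.rpow_def_of_pos hx0]
      congr 1
      rw [← hHd]
      ring
    have h1 : Real.exp (-s) / 8 * x = Real.exp (H - s) / 8 := by
      rw [hxe, div_mul_eq_mul_div, ← Real.exp_add]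
      congr 2
      ring
    rw [h1]
    have h2 : H / 2 + 3 ≤ H - s := by nlinarith
    have h3 : Real.exp (H / 2 + 3) ≤ Real.exp (H - s) := Real.exp_le_exp.2 h2
    rw [Real.exp_add, ← hye] at h3
    have h4 : 16 ≤ Real.exp 3 := by
      have h5 : (Real.exp 1) ^ 3 = Real.exp 3 := by rw [← Real.exp_nat_mul]; norm_num
      rw [← h5]
      have := Real.exp_one_gt_d9
      calc (16 : ℝ) ≤ 2.7 ^ 3 := by norm_num
        _ ≤ (Real.exp 1) ^ 3 := pow_le_pow_left₀ (by norm_num) (by linarith) 3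
    have h6 : y * 16 ≤ y * Real.exp 3 := mul_le_mul_of_nonneg_left h4 (by linarith)
    linarith
  · simp only [Function.comp_apply, id_eq, Real.norm_eq_abs] at a6
    rw [abs_of_pos (show 0 < Real.log x by linarith)] at a6
    have h1 : Real.log H ≤ 1 / 80000 * H := (le_abs_self _).trans a6
    have h2 : 0 ≤ Real.log H := Real.log_nonneg (by linarith)
    have h3 : 1 / (2 * C2) ≤ 1 := by
      rw [div_le_one (by positivity)]
      linarith
    calc 1 / (2 * C2) * Real.log H ≤ 1 * Real.log H := mul_le_mul_of_nonneg_right h3 h2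
      _ ≤ H / 80000 := by linarith

end H82LX
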