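import Pool.Agent.H82.LX.Crv
import Pool.Agent.H82.LX.FivA

/-!
# FIV: long prime-free intervals, uniformly in their length

As `fin_main` (`Pool/Agent/H69/PG/Fin.lean`) with the counting core `corV` (`Crv.lean`): `m = ⌈4 D lam/c0⌉ + m0` scales.
-/

open Finset EG

namespace H82LX

open H69PG

open Classical in
theorem fin_uni {r A : ℝ} (hr : 0 < r) (hA : 0 < A) :
    ∃ c : ℝ, 0 < c ∧ ∃ C x0 : ℝ, ∀ x : ℝ, x0 ≤ x → ∀ X : ℕ, (X : ℝ) ≤ x ^ A →
      ∀ lam : ℝ, 1 ≤ lam → lam ≤ c * Real.log (Real.log x) →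
      x * Real.exp (-Real.exp (C * lam)) ≤ (((Ioc X (X + ⌊x⌋₊)).filter (fun n : ℕ => ∀ k : ℕ, n < k →
        (k : ℝ) ≤ n + lam * Real.log x → ¬ k.Prime ∧ (k.minFac : ℝ) ≤ x ^ r)).card : ℝ) := by
  set r1 : ℝ := min r (1 / 16) with hr1def
  have hr1 : 0 < r1 := lt_min hr (by norm_num)
  have hr1r : r1 ≤ r := min_le_left _ _
  have hr116 : r1 ≤ 1 / 16 := min_le_right _ _
  have hr1h : r1 ≤ 1 / 2 := by linarith
  obtain ⟨c0, hc0, C0, hC0, m0, hcore⟩ := corV (⌈A⌉₊ + 2) (by omega) hr1 hr116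
  obtain ⟨D, hD, hmert⟩ := Fiv_mert
  obtain ⟨C2, hC2, hpar⟩ := Fiv_par hD hc0 hC0 m0
  obtain ⟨x0, hev⟩ := Fiv_ev hr1 hC2
  refine ⟨1 / (2 * C2), by positivity, C2 + 2, x0, ?_⟩
  intro x hx X hX lam hlam hlamu
  obtain ⟨h1x, hsz, hlx, hq, hcx, hH, hlamH⟩ := hev x hx
  obtain ⟨m, hm, hm1, hm2⟩ := hpar lam hlam
  have hx0 : 0 < x := by linarith
  set H := Real.log x with hHd
  have hlamH' : lam ≤ H / 80000 := hlamu.trans hlamH
  have hH0 : 0 < H := by linarith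
  have hEH : Real.exp (C2 * lam) ≤ H ^ (1 / 2 : ℝ) := by
    rw [Real.rpow_def_of_pos hH0]
    refine Real.exp_le_exp.2 ?_
    calc C2 * lam ≤ C2 * (1 / (2 * C2) * Real.log H) := mul_le_mul_of_nonneg_left hlamu (by linarith)
      _ = Real.log H * (1 / 2) := by field_simp
  have hHs : H ^ (1 / 2 : ℝ) * 200 ≤ H := by
    have hss : H ^ (1 / 2 : ℝ) * H ^ (1 / 2 : ℝ) = H := by
      rw [← Real.rpow_add hH0]
      norm_num
    have hs0 : 0 < H ^ (1 / 2 : ℝ) := by positivity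
    have hs1 : 200 ≤ H ^ (1 / 2 : ℝ) := by nlinarith
    nlinarith
  have hEm : Real.exp (C0 * m) ≤ Real.exp (C2 * lam) := Real.exp_le_exp.2 hm2
  set K : ℕ := ⌊lam * Real.log x⌋₊ with hK
  set z0 : ℕ := ⌊Real.log x / 100⌋₊ with hz0
  set Q0 : ℕ := primorial z0 with hQ0
  set T : ℕ := ⌊x / (Q0 : ℝ)⌋₊ with hT
  have hQ : 0 < Q0 := primorial_pos z0
  have hQr : (0 : ℝ) < Q0 := by exact_mod_cast hQ
  have hz0le : 100 * (z0 : ℝ) ≤ Real.log x := by
    have := Nat.floor_le (show 0 ≤ Real.log x / 100 by positivity)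
    linarith
  have hQle : (Q0 : ℝ) ≤ x ^ (1 / 50 : ℝ) := Amp_prim h1x hz0le
  have hLl : 1 ≤ lam * Real.log x := by nlinarith
  have hKpos : 0 < K := Nat.floor_pos.2 hLl
  have hKle : (K : ℝ) ≤ lam * Real.log x := Nat.floor_le (by linarith)
  have hKge : H / 2 ≤ (K : ℝ) := by
    have h1 := Nat.sub_one_lt_floor (lam * Real.log x)
    have h2 : H ≤ lam * Real.log x := by nlinarith
    have h3 : (⌊lam * Real.log x⌋₊ : ℝ) = K := rfl
    rw [h3] at h1
    linarith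
  have hKle2 : (K : ℝ) ≤ H ^ 2 / 80000 := by
    refine hKle.trans ?_
    have : lam * Real.log x ≤ H / 80000 * H := mul_le_mul_of_nonneg_right hlamH' hH0.le
    linarith
  have hzK : z0 ≤ K := Nat.floor_le_floor (by nlinarith)
  have hz0ge : H / 200 ≤ (z0 : ℝ) := by
    have h1 := Nat.sub_one_lt_floor (Real.log x / 100)
    have h3 : (⌊Real.log x / 100⌋₊ : ℝ) = z0 := rfl
    rw [h3] at h1
    linarith
  have hz02 : 2 ≤ z0 := by
    have : (2 : ℝ) ≤ z0 := by linarith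
    exact_mod_cast this
  have hlz0 : 0 < Real.log (z0 : ℝ) := Real.log_pos (by exact_mod_cast (by omega : 1 < z0))
  have hlK : Real.log K ≤ 2 * Real.log z0 := by
    rw [show 2 * Real.log (z0 : ℝ) = Real.log ((z0 : ℝ) ^ 2) by rw [Real.log_pow]; norm_num]
    apply Real.log_le_log (by exact_mod_cast hKpos)
    calc (K : ℝ) ≤ H ^ 2 / 80000 := hKle2
      _ ≤ (H / 200) ^ 2 := by nlinarith
      _ ≤ (z0 : ℝ) ^ 2 := by gcongr
  have hzr : (z0 : ℝ) ≤ x ^ r1 := (Nat.floor_le (by positivity)).trans hlx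
  obtain ⟨E, hE⟩ : ∃ E : ℝ, E = Real.exp (C2 * lam) := ⟨_, rfl⟩
  set S : ℕ → Finset ℕ := fun b => (Icc 1 K).filter (fun k => Nat.Coprime (X + 1 + b + k) Q0) with hS
  set B : Finset ℕ := (range Q0).filter (fun b =>
      (((Icc 1 K).filter (fun k => Nat.Coprime (X + 1 + b + k) Q0)).card : ℝ) ≤
        2 * (K : ℝ) * ((Nat.totient Q0 : ℝ) / (Q0 : ℝ))) with hB
  have hBc : (Q0 : ℝ) / 2 ≤ (B.card : ℝ) := Fin_good Q0 X K hQ hKpos
  set G : ℕ → Finset ℕ := fun b => (range T).filter (fun t => ∀ k ∈ S b, ∃ p : ℕ, p.Prime ∧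
    (p : ℝ) ≤ x ^ r1 ∧ p ∣ Q0 * t + (X + 1 + b + k)) with hG
  obtain ⟨c1, hc1⟩ : ∃ c1 : ℝ, c1 = Real.exp (-E) := ⟨_, rfl⟩
  have hc10 : 0 < c1 := by rw [hc1]; exact Real.exp_pos _
  have hcapp : ∀ (b : ℕ), b < Q0 → ((S b).card : ℝ) ≤ 2 * (K : ℝ) * ((Nat.totient Q0 : ℝ) / (Q0 : ℝ)) →
      (T : ℝ) ≤ Real.exp (Real.exp (C0 * m)) * ((G b).card : ℝ) := by
    intro b hbq hbs
    have hSs : S b ⊆ Icc 1 K := Finset.filter_subset _ _
    have hT7 : x ^ (7 / 10 : ℝ) ≤ T := by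
      have h1 := Nat.sub_one_lt_floor (x / (Q0 : ℝ))
      have h3 : (⌊x / (Q0 : ℝ)⌋₊ : ℝ) = T := rfl
      rw [h3] at h1
      have h4 : x ^ (49 / 50 : ℝ) ≤ x / Q0 := by
        rw [le_div_iff₀ hQr]
        calc x ^ (49 / 50 : ℝ) * (Q0 : ℝ) ≤ x ^ (49 / 50 : ℝ) * x ^ (1 / 50 : ℝ) :=
              mul_le_mul_of_nonneg_left hQle (Real.rpow_nonneg hx0.le _)
          _ = x := by rw [← Real.rpow_add hx0]; norm_num
      have h5 : x ^ (49 / 50 : ℝ) = x ^ (7 / 10 : ℝ) * x ^ (7 / 25 : ℝ) := by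
        rw [← Real.rpow_add hx0]
        norm_num
      have h6 : 2 ≤ x ^ (7 / 25 : ℝ) := by
        rw [Real.rpow_def_of_pos hx0]
        have h7 := Real.add_one_le_exp (Real.log x * (7 / 25))
        have h8 : 1 ≤ Real.log x * (7 / 25) := by nlinarith
        linarith
      have h9 : 1 ≤ x ^ (7 / 10 : ℝ) := Real.one_le_rpow h1x (by norm_num)
      nlinarith
    have h1 := hcore m hm x h1x (hEm.trans (hEH.trans (by linarith))) {k // k ∈ S b} K Q0 T (fun k => X + 1 + b + k.1)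
      (by linarith [hEm.trans hEH]) (by
        have e1 : H ^ 2 ≤ H ^ (⌈A⌉₊ + 2) := pow_le_pow_right₀ (by linarith) (by omega)
        nlinarith [sq_nonneg H]) (Fin_Fm X b K z0 hzK (S b) hSs) (by
        rw [Fintype.card_coe]
        have hφ := hmert z0 hz02
        have h2 : 0 ≤ (Nat.totient Q0 : ℝ) / (Q0 : ℝ) := by positivity
        have h3 : 0 ≤ Real.log (K : ℝ) := Real.log_natCast_nonneg K
        calc ((S b).card : ℝ) * Real.log K ≤ (2 * (lam * H) * (D / Real.log z0)) * (2 * Real.log z0) := by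
              refine mul_le_mul (hbs.trans ?_) hlK h3 (by positivity)
              exact mul_le_mul (by linarith) hφ h2 (by positivity)
          _ = (4 * D * lam) * H := by field_simp; ring
          _ ≤ (c0 * m) * H := mul_le_mul_of_nonneg_right hm1 hH0.le) hT7 (by
        intro i t ht
        have hi := Finset.mem_Icc.1 (hSs i.2)
        have hiK : (i.1 : ℝ) ≤ K := by exact_mod_cast hi.2
        have hbQ : (b : ℝ) ≤ Q0 := by exact_mod_cast hbq.le
        have hQt : (Q0 : ℝ) * t ≤ x := by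
          have h1 : (t : ℝ) ≤ x / (Q0 : ℝ) := (Nat.cast_le.2 ht.le).trans (Nat.floor_le (by positivity))
          rw [le_div_iff₀ hQr] at h1
          linarith
        have hAc : A ≤ ⌈A⌉₊ := Nat.le_ceil A
        have hXA : (X : ℝ) ≤ x ^ (⌈A⌉₊ : ℕ) := by
          refine hX.trans ?_
          rw [← Real.rpow_natCast]
          exact Real.rpow_le_rpow_of_exponent_le h1x hAc
        have hA1 : x ^ (⌈A⌉₊ + 2) = x ^ (⌈A⌉₊ : ℕ) * x ^ 2 := pow_add _ _ _
        have hA2 : 1 ≤ x ^ (⌈A⌉₊ : ℕ) := one_le_pow₀ h1x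
        have hHH : H ^ 2 / 80000 ≤ H ^ 2 := by nlinarith [sq_nonneg H]
        have hx3 : 3 ≤ x := by nlinarith [sq_nonneg H]
        have e2 : (X : ℝ) + 1 + b + i.1 + Q0 * t ≤ x ^ (⌈A⌉₊ : ℕ) + 2 * x := by linarith
        have e3 : x ^ (⌈A⌉₊ : ℕ) + 2 * x ≤ x ^ (⌈A⌉₊ : ℕ) * x ^ 2 := Fiv_a hA2 hx3
        push_cast
        rw [hA1]
        linarith)
    refine h1.trans (mul_le_mul_of_nonneg_left ?_ (Real.exp_pos _).le)
    norm_cast
    refine Finset.card_le_card ?_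
    intro t ht
    rw [Finset.mem_filter] at ht ⊢
    exact ⟨ht.1, fun k hk => ht.2 ⟨k, hk⟩⟩
  have hGc : ∀ b ∈ B, c1 * (T : ℝ) ≤ ((G b).card : ℝ) := by
    intro b hb
    have hbq := Finset.mem_range.1 (Finset.mem_filter.1 hb).1
    have hbs := (Finset.mem_filter.1 hb).2
    have h1 := hcapp b hbq hbs
    have h2 : Real.exp (Real.exp (C0 * m)) ≤ Real.exp E := Real.exp_le_exp.2 (by rw [hE]; exact hEm)
    have h3 : (T : ℝ) ≤ Real.exp E * ((G b).card : ℝ) :=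
      h1.trans (mul_le_mul_of_nonneg_right h2 (Nat.cast_nonneg _))
    have h4 : c1 * Real.exp E = 1 := by rw [hc1, ← Real.exp_add]; simp
    calc c1 * (T : ℝ) ≤ c1 * (Real.exp E * ((G b).card : ℝ)) := mul_le_mul_of_nonneg_left h3 hc10.le
      _ = ((G b).card : ℝ) := by rw [← mul_assoc, h4, one_mul]
  have hBs : B ⊆ range Q0 := Finset.filter_subset _ _
  have hW := Fin_map Q0 X T B G (c1 * T) hQ hBs (fun b _ => Finset.filter_subset _ _) hGc
  set W : Finset ℕ := (B.sigma G).image (fun p => X + 1 + p.1 + Q0 * p.2) with hWdef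
  have hQT : ((Q0 * T : ℕ) : ℝ) ≤ x := by
    have := Nat.floor_le (show 0 ≤ x / (Q0 : ℝ) by positivity)
    rw [le_div_iff₀ hQr] at this
    push_cast
    linarith
  have hQT' : Q0 * T ≤ ⌊x⌋₊ := Nat.le_floor hQT
  have hTl : x - Q0 ≤ (Q0 : ℝ) * T := by
    have := Nat.lt_floor_add_one (x / (Q0 : ℝ))
    rw [div_lt_iff₀ hQr] at this
    have h2 : (⌊x / (Q0 : ℝ)⌋₊ : ℝ) = T := rfl
    rw [h2] at this
    nlinarith
  have hsub : W ⊆ ((Ioc X (X + ⌊x⌋₊)).filter (fun n : ℕ => ∀ k : ℕ, n < k →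
      (k : ℝ) ≤ n + lam * Real.log x → ¬ k.Prime ∧ (k.minFac : ℝ) ≤ x ^ r)) ∪
        range (⌊x ^ (1 / 2 : ℝ)⌋₊ + 1) := by
    intro n hn
    obtain ⟨⟨b, t⟩, hbt, e⟩ := Finset.mem_image.1 hn
    have e' : X + 1 + b + Q0 * t = n := e
    rw [Finset.mem_sigma] at hbt
    have hb : b ∈ B := hbt.1
    have ht : t ∈ G b := hbt.2
    have hbq := Finset.mem_range.1 (hBs hb)
    have ht1 := Finset.mem_range.1 (Finset.mem_filter.1 ht).1
    have ht2 := (Finset.mem_filter.1 ht).2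
    have key : ∀ k : ℕ, n < k → (k : ℝ) ≤ n + lam * Real.log x →
        ∃ p : ℕ, p.Prime ∧ (p : ℝ) ≤ x ^ r1 ∧ p ∣ k := by
      intro k hnk hk
      obtain ⟨j, rfl⟩ := Nat.exists_eq_add_of_lt hnk
      have hj : ((j + 1 : ℕ) : ℝ) ≤ lam * Real.log x := by
        push_cast at hk ⊢
        linarith
      have hjK : j + 1 ≤ K := Nat.le_floor hj
      have ek : Q0 * t + (X + 1 + b + (j + 1)) = n + j + 1 := by omega
      by_cases hco : Nat.Coprime (X + 1 + b + (j + 1)) Q0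
      · have hmem : j + 1 ∈ S b := Finset.mem_filter.2 ⟨Finset.mem_Icc.2 ⟨by omega, hjK⟩, hco⟩
        obtain ⟨p, hp, hpr, hd⟩ := ht2 (j + 1) hmem
        rw [ek] at hd
        exact ⟨p, hp, hpr, hd⟩
      · obtain ⟨p, hp, hd1, hd2⟩ := Nat.Prime.not_coprime_iff_dvd.1 hco
        refine ⟨p, hp, ?_, ?_⟩
        · have : p ≤ z0 := hp.dvd_primorial_iff.1 hd2
          have h' : (p : ℝ) ≤ z0 := by exact_mod_cast this
          exact h'.trans hzr
        · rw [← ek]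
          exact dvd_add (hd2.mul_right t) hd1
    by_cases hnx : n < ⌊x ^ (1 / 2 : ℝ)⌋₊ + 1
    · exact Finset.mem_union_right _ (Finset.mem_range.2 hnx)
    · refine Finset.mem_union_left _ (Finset.mem_filter.2 ⟨?_, ?_⟩)
      · rw [Finset.mem_Ioc]
        have h1 : Q0 * (t + 1) ≤ Q0 * T := Nat.mul_le_mul_left _ ht1
        have h2 : Q0 * (t + 1) = Q0 * t + Q0 := by ring
        omega
      · intro k hnk hk
        obtain ⟨p, hp, hpr, hd⟩ := key k hnk hk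
        refine ⟨?_, ?_⟩
        · intro hkp
          have hpk : p = k := (Nat.prime_dvd_prime_iff_eq hp hkp).1 hd
          have h1 : (k : ℝ) ≤ x ^ (1 / 2 : ℝ) := by
            rw [← hpk]
            exact hpr.trans (Real.rpow_le_rpow_of_exponent_le h1x hr1h)
          have h2 : k ≤ ⌊x ^ (1 / 2 : ℝ)⌋₊ := Nat.le_floor h1
          omega
        · have h1 : k.minFac ≤ p := Nat.minFac_le_of_dvd hp.two_le hd
          have h2 : (k.minFac : ℝ) ≤ p := by exact_mod_cast h1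
          exact h2.trans (hpr.trans (Real.rpow_le_rpow_of_exponent_le h1x hr1r))
  have hcard := (Finset.card_le_card hsub).trans (Finset.card_union_le _ _)
  rw [Finset.card_range] at hcard
  have hcard' : (W.card : ℝ) ≤ (((Ioc X (X + ⌊x⌋₊)).filter (fun n : ℕ => ∀ k : ℕ, n < k →
      (k : ℝ) ≤ n + lam * Real.log x → ¬ k.Prime ∧ (k.minFac : ℝ) ≤ x ^ r)).card : ℝ) +
        ((⌊x ^ (1 / 2 : ℝ)⌋₊ : ℝ) + 1) := by exact_mod_cast hcard
  have hfl : (⌊x ^ (1 / 2 : ℝ)⌋₊ : ℝ) ≤ x ^ (1 / 2 : ℝ) := Nat.floor_le (by positivity)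
  have hlow : c1 / 4 * x ≤ (B.card : ℝ) * (c1 * T) := by
    have h1 : x / 2 ≤ (Q0 : ℝ) * T := by linarith
    have h2 : (Q0 : ℝ) / 2 * (c1 * T) ≤ (B.card : ℝ) * (c1 * T) :=
      mul_le_mul_of_nonneg_right hBc (by positivity)
    nlinarith
  have hE1 : E ≤ H ^ (1 / 2 : ℝ) := by rw [hE]; exact hEH
  have hc1x : Real.exp (-(H ^ (1 / 2 : ℝ))) / 8 * x ≤ c1 / 8 * x := by
    have : Real.exp (-(H ^ (1 / 2 : ℝ))) ≤ c1 := by
      rw [hc1]
      exact Real.exp_le_exp.2 (by linarith)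
    refine mul_le_mul_of_nonneg_right (by linarith) hx0.le
  have hE2 : 1 ≤ E := by rw [hE]; exact Real.one_le_exp (by positivity)
  have hfin : x * Real.exp (-Real.exp ((C2 + 2) * lam)) ≤ c1 / 8 * x := by
    have h1 : Real.exp ((C2 + 2) * lam) = E * Real.exp (2 * lam) := by
      rw [hE, ← Real.exp_add]
      congr 1
      ring
    have h2 : 7 ≤ Real.exp (2 * lam) := by
      have h5 : (Real.exp 1) ^ 2 = Real.exp 2 := by rw [← Real.exp_nat_mul]; norm_num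
      have h6 : (7 : ℝ) ≤ (Real.exp 1) ^ 2 := by
        have := Real.exp_one_gt_d9
        nlinarith
      rw [h5] at h6
      exact h6.trans (Real.exp_le_exp.2 (by linarith))
    have h3 : E + 3 ≤ Real.exp ((C2 + 2) * lam) := by
      rw [h1]
      nlinarith
    have h4 : (8 : ℝ) ≤ Real.exp 3 := by
      have h5 : (Real.exp 1) ^ 3 = Real.exp 3 := by rw [← Real.exp_nat_mul]; norm_num
      rw [← h5]
      have := Real.exp_one_gt_d9
      calc (8 : ℝ) ≤ 2 ^ 3 := by norm_num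
        _ ≤ (Real.exp 1) ^ 3 := pow_le_pow_left₀ (by norm_num) (by linarith) 3
    have h7 : Real.exp (-Real.exp ((C2 + 2) * lam)) ≤ c1 / 8 := by
      calc Real.exp (-Real.exp ((C2 + 2) * lam)) ≤ Real.exp (-E + -3) := Real.exp_le_exp.2 (by linarith)
        _ = c1 * (Real.exp 3)⁻¹ := by rw [Real.exp_add, ← hc1, Real.exp_neg 3]
        _ ≤ c1 * (8 : ℝ)⁻¹ := mul_le_mul_of_nonneg_left (inv_anti₀ (by norm_num) h4) hc10.le
        _ = c1 / 8 := by ring
    calc x * Real.exp (-Real.exp ((C2 + 2) * lam)) ≤ x * (c1 / 8) := mul_le_mul_of_nonneg_left h7 hx0.le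
      _ = c1 / 8 * x := by ring
  linarith

end H82LX
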