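import Pool.Agent.H69.PG.Mkv

/-!
# MKF: removal of one particle, with a weight

Exactly the proof of `mkv` (`Pool/Agent/H69/PG/Mkv.lean`, its lemmas `mkv_sp_erase`, `mkv_prod`, `mkv_cost` are public) with the additional factor `F`:
`∑_{n ∈ Cf} (∑_i w(n_i) F(update n i 0)) ms(n) = ∑_i ∑_{n ∈ Cf, n_i ≠ 0} w(n_i) F(update n i 0) ms(n)` (`w 0 = 0`). Write `n = update n' i a`, `n' = update n i 0`, `n'_i = 0`,
`a = n_i ≥ 1`; `n' ∈ Cf`, `|sp n'| < N`, `sp n = insert i (sp n')`, `∏ s(n) = s(a) ∏ s(n')`. So the sum is at most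
`∑_{n' ∈ Cf, |sp n'| < N} F(n') ∏ s(n') (∑_a w(a) s(a)) ∑_{i ∉ sp n'} V(insert i (sp n')) ≤ (∑_a w(a) s(a)) μ ∑_{n'} F(n') ms(n')`.
-/

open Finset

namespace H82LX

open H69PG

variable {ι : Type} [Fintype ι] [DecidableEq ι]

theorem mkf {m N : ℕ} {v : ℕ → ℝ} {l : ℝ} {V : Finset ι → ℝ} {μ : ℝ} (h : Vh V μ N) {s w : ℕ → ℝ}
    (hs : ∀ a, 0 ≤ s a) (hs0 : s 0 = 1) (hv : ∀ a, 0 ≤ v a) (hv0 : v 0 = 0) (hw : ∀ a, 0 ≤ w a) (hw0 : w 0 = 0)
    (F : (ι → Fin (m + 1)) → ℝ) (hF : ∀ n, 0 ≤ F n) :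
    ∑ n ∈ Cf ι m N v l, (∑ i, w (n i) * F (Function.update n i 0)) * ms V s n ≤
      μ * (∑ a ∈ Icc 1 m, s a * w a) * ∑ n ∈ Cf ι m N v l, F n * ms V s n := by
  classical
  have hW : ∑ a : Fin (m + 1), s a * w a = ∑ a ∈ Icc 1 m, s a * w a := by
    rw [Fin.sum_univ_eq_sum_range (fun a => s a * w a) (m + 1), Finset.range_eq_Ico,
      Finset.sum_eq_sum_Ico_succ_bot (by omega), hw0, mul_zero, zero_add]
    rfl
  have hW0 : 0 ≤ ∑ a : Fin (m + 1), s a * w a :=
    Finset.sum_nonneg fun a _ => mul_nonneg (hs _) (hw _)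
  have hP0 : ∀ n : ι → Fin (m + 1), 0 ≤ ∏ j, s (n j) := fun n =>
    Finset.prod_nonneg fun j _ => hs _
  -- step 1
  have key : ∀ i : ι, ∑ n ∈ Cf ι m N v l, w (n i) * F (Function.update n i 0) * ms V s n
      ≤ ∑ n ∈ (Cf ι m N v l).filter (fun n => n i = 0 ∧ (sp n).card < N),
        (∑ a : Fin (m + 1), s a * w a) * (F n * ((∏ j, s (n j)) * V (insert i (sp n)))) := by
    intro i
    have e1 : ∑ n ∈ Cf ι m N v l, w (n i) * F (Function.update n i 0) * ms V s n
        = ∑ n ∈ (Cf ι m N v l).filter (fun n => n i ≠ 0),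
          w (n i) * F (Function.update n i 0) * ms V s n := by
      symm
      apply Finset.sum_subset (Finset.filter_subset _ _)
      intro n hn hn2
      have : n i = 0 := by
        by_contra hne
        exact hn2 (Finset.mem_filter.2 ⟨hn, hne⟩)
      rw [this, Fin.val_zero, hw0, zero_mul, zero_mul]
    let G : (ι → Fin (m + 1)) × Fin (m + 1) → ℝ := fun p =>
      (s p.2 * w p.2) * (F p.1 * ((∏ j, s (p.1 j)) * V (insert i (sp p.1))))
    have e2 : ∑ n ∈ (Cf ι m N v l).filter (fun n => n i ≠ 0),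
          w (n i) * F (Function.update n i 0) * ms V s n
        = ∑ n ∈ (Cf ι m N v l).filter (fun n => n i ≠ 0), G (Function.update n i 0, n i) := by
      refine Finset.sum_congr rfl fun n hn => ?_
      have hni : n i ≠ 0 := (Finset.mem_filter.1 hn).2
      have hmem : i ∈ sp n := by
        unfold sp
        exact Finset.mem_filter.2 ⟨Finset.mem_univ _, hni⟩
      simp only [G]
      rw [mkv_sp_erase, Finset.insert_erase hmem, ms, ← mkv_prod hs0 n i]
      ring
    rw [e1, e2]
    have hinj : Set.InjOn (fun n : ι → Fin (m + 1) => (Function.update n i 0, n i))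
        ((Cf ι m N v l).filter (fun n => n i ≠ 0)) := by
      intro n _ n' _ hnn
      simp only [Prod.mk.injEq] at hnn
      funext j
      by_cases hj : j = i
      · subst hj
        exact hnn.2
      · have := congrFun hnn.1 j
        rwa [Function.update_of_ne hj, Function.update_of_ne hj] at this
    rw [← Finset.sum_image (f := G) (g := fun n : ι → Fin (m + 1) => (Function.update n i 0, n i))
      hinj]
    have hsub : ((Cf ι m N v l).filter (fun n => n i ≠ 0)).image
        (fun n : ι → Fin (m + 1) => (Function.update n i 0, n i))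
        ⊆ ((Cf ι m N v l).filter (fun n => n i = 0 ∧ (sp n).card < N)) ×ˢ
          (univ : Finset (Fin (m + 1))) := by
      intro p hp
      obtain ⟨n, hn, rfl⟩ := Finset.mem_image.1 hp
      rw [Finset.mem_filter] at hn
      obtain ⟨hn1, hn2⟩ := hn
      have hmem : i ∈ sp n := by
        unfold sp
        exact Finset.mem_filter.2 ⟨Finset.mem_univ _, hn2⟩
      rw [Cf, Finset.mem_filter] at hn1
      obtain ⟨-, hn3, hn4⟩ := hn1
      have hc : ((sp n).erase i).card < (sp n).card := Finset.card_erase_lt_of_mem hmem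
      rw [Finset.mem_product]
      refine ⟨?_, Finset.mem_univ _⟩
      rw [Finset.mem_filter, Cf, Finset.mem_filter]
      simp only [mkv_sp_erase]
      refine ⟨⟨Finset.mem_univ _, by omega, (mkv_cost hv hv0 n i).trans hn4⟩,
        Function.update_self _ _ _, by omega⟩
    refine (Finset.sum_le_sum_of_subset_of_nonneg hsub fun p _ _ => ?_).trans (le_of_eq ?_)
    · exact mul_nonneg (mul_nonneg (hs _) (hw _))
        (mul_nonneg (hF _) (mul_nonneg (hP0 _) (h.nonneg _)))
    · rw [Finset.sum_product]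
      refine Finset.sum_congr rfl fun n _ => ?_
      simp only [G]
      rw [Finset.sum_mul]
  -- step 2
  calc ∑ n ∈ Cf ι m N v l, (∑ i, w (n i) * F (Function.update n i 0)) * ms V s n
      = ∑ i, ∑ n ∈ Cf ι m N v l, w (n i) * F (Function.update n i 0) * ms V s n := by
        rw [Finset.sum_comm]
        exact Finset.sum_congr rfl fun n _ => Finset.sum_mul _ _ _
    _ ≤ ∑ i, ∑ n ∈ (Cf ι m N v l).filter (fun n => n i = 0 ∧ (sp n).card < N),
        (∑ a : Fin (m + 1), s a * w a) * (F n * ((∏ j, s (n j)) * V (insert i (sp n)))) :=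
        Finset.sum_le_sum fun i _ => key i
    _ = ∑ n ∈ (Cf ι m N v l).filter (fun n => (sp n).card < N), ∑ i ∈ (sp n)ᶜ,
        (∑ a : Fin (m + 1), s a * w a) * (F n * ((∏ j, s (n j)) * V (insert i (sp n)))) := by
        apply Finset.sum_comm'
        intro i n
        simp only [Finset.mem_univ, Finset.mem_filter, true_and, Finset.mem_compl, sp,
          not_not]
        tauto
    _ ≤ ∑ n ∈ (Cf ι m N v l).filter (fun n => (sp n).card < N),
        (∑ a : Fin (m + 1), s a * w a) * (μ * (F n * ms V s n)) := by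
        refine Finset.sum_le_sum fun n hn => ?_
        rw [← Finset.mul_sum, ← Finset.mul_sum, ← Finset.mul_sum]
        refine mul_le_mul_of_nonneg_left ?_ hW0
        calc F n * ((∏ j, s (n j)) * ∑ i ∈ (sp n)ᶜ, V (insert i (sp n)))
            ≤ F n * ((∏ j, s (n j)) * (μ * V (sp n))) :=
              mul_le_mul_of_nonneg_left
                (mul_le_mul_of_nonneg_left (h.step _ (Finset.mem_filter.1 hn).2) (hP0 n)) (hF n)
          _ = μ * (F n * ms V s n) := by rw [ms]; ring
    _ ≤ ∑ n ∈ Cf ι m N v l, (∑ a : Fin (m + 1), s a * w a) * (μ * (F n * ms V s n)) := by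
        refine Finset.sum_le_sum_of_subset_of_nonneg (Finset.filter_subset _ _) fun n _ _ => ?_
        exact mul_nonneg hW0 (mul_nonneg h.μ_nonneg
          (mul_nonneg (hF n) (mul_nonneg (h.nonneg _) (hP0 n))))
    _ = μ * (∑ a ∈ Icc 1 m, s a * w a) * ∑ n ∈ Cf ι m N v l, F n * ms V s n := by
        rw [← Finset.mul_sum, ← Finset.mul_sum, hW]
        ring

end H82LX
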